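import Pool.Agent.L5helper45.PT.Base

set_option autoImplicit false
set_option linter.unusedVariables false

/-! # Averaging over the residue classes modulo the small primes -/

namespace Pool.Agent.L5helper45.PT

open Polynomial Finset Pool.Agent.H474R2.PG

open scoped Classical

theorem crt_count (m n : ℕ) (hm : 0 < m) (hn : 0 < n) (hmn : m.Coprime n) (Φ Ψ : ℕ → Prop)
    (hΦ : ∀ a, Φ (a % m) ↔ Φ a) (hΨ : ∀ a, Ψ (a % n) ↔ Ψ a) :
    ((Finset.range (m * n)).filter (fun a => Φ a ∧ Ψ a)).card =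
      ((Finset.range m).filter Φ).card * ((Finset.range n).filter Ψ).card := by
  rw [← Finset.card_product]
  refine Finset.card_nbij' (fun a => (a % m, a % n))
    (fun q => ((Nat.chineseRemainder hmn q.1 q.2 : ℕ))) ?_ ?_ ?_ ?_
  · intro a ha
    simp only [Finset.coe_filter, Finset.mem_range, Set.mem_ofPred_eq] at ha
    simp only [Finset.coe_product, Finset.coe_filter, Finset.mem_range, Set.mem_prod,
      Set.mem_ofPred_eq]
    exact ⟨⟨Nat.mod_lt _ hm, (hΦ a).2 ha.2.1⟩, ⟨Nat.mod_lt _ hn, (hΨ a).2 ha.2.2⟩⟩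
  · intro q hq
    simp only [Finset.coe_product, Finset.coe_filter, Finset.mem_range, Set.mem_prod,
      Set.mem_ofPred_eq] at hq
    simp only [Finset.coe_filter, Finset.mem_range, Set.mem_ofPred_eq]
    obtain ⟨⟨h1, h2⟩, ⟨h3, h4⟩⟩ := hq
    have e1 := (Nat.chineseRemainder hmn q.1 q.2).2.1
    have e2 := (Nat.chineseRemainder hmn q.1 q.2).2.2
    refine ⟨Nat.chineseRemainder_lt_mul hmn q.1 q.2 hm.ne' hn.ne', ?_, ?_⟩
    · rw [← hΦ, e1, Nat.mod_eq_of_lt h1]
      exact h2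
    · rw [← hΨ, e2, Nat.mod_eq_of_lt h3]
      exact h4
  · intro a ha
    simp only [Finset.coe_filter, Finset.mem_range, Set.mem_ofPred_eq] at ha
    have e1 := (Nat.chineseRemainder hmn (a % m) (a % n)).2.1
    have e2 := (Nat.chineseRemainder hmn (a % m) (a % n)).2.2
    have e3 := Nat.chineseRemainder_lt_mul hmn (a % m) (a % n) hm.ne' hn.ne'
    have e4 : ((Nat.chineseRemainder hmn (a % m) (a % n) : ℕ)) ≡ a [MOD m * n] := by
      rw [← Nat.modEq_and_modEq_iff_modEq_mul hmn]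
      exact ⟨e1.trans (Nat.mod_modEq a m), e2.trans (Nat.mod_modEq a n)⟩
    exact Nat.ModEq.eq_of_lt_of_lt e4 e3 ha.1
  · intro q hq
    simp only [Finset.coe_product, Finset.coe_filter, Finset.mem_range, Set.mem_prod,
      Set.mem_ofPred_eq] at hq
    obtain ⟨⟨h1, h2⟩, ⟨h3, h4⟩⟩ := hq
    have e1 := (Nat.chineseRemainder hmn q.1 q.2).2.1
    have e2 := (Nat.chineseRemainder hmn q.1 q.2).2.2
    ext
    · simp only
      rw [e1, Nat.mod_eq_of_lt h1]
    · simp only
      rw [e2, Nat.mod_eq_of_lt h3]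

theorem dvd_mod (f : ℤ[X]) (p m : ℕ) (hpm : p ∣ m) (b : ℤ) (a : ℕ) :
    (p:ℤ) ∣ f.eval (((a % m : ℕ) : ℤ) + b) ↔ (p:ℤ) ∣ f.eval ((a:ℤ) + b) := by
  apply eval_dvd_congr
  have h1 : ((a % m : ℕ) : ℤ) + b - ((a:ℤ) + b) = -((m:ℤ) * ((a / m : ℕ) : ℤ)) := by
    have := Nat.mod_add_div a m
    have h2 : ((a % m : ℕ) : ℤ) + (m:ℤ) * ((a / m : ℕ) : ℤ) = a := by exact_mod_cast this
    linarith
  rw [h1, dvd_neg]
  exact (Int.natCast_dvd_natCast.2 hpm).mul_right _

theorem count_surv (f : ℤ[X]) (b : ℤ) (S : Finset ℕ) (hS : ∀ p ∈ S, p.Prime) :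
    (((Finset.range (∏ p ∈ S, p)).filter
      (fun a : ℕ => ∀ p ∈ S, ¬ (p:ℤ) ∣ f.eval ((a:ℤ) + b))).card : ℝ) =
      ∏ p ∈ S, ((p:ℝ) - rho f p) := by
  induction S using Finset.induction_on with
  | empty => simp
  | insert q S hq ih =>
    have hqp := hS q (Finset.mem_insert_self q S)
    have hS' : ∀ p ∈ S, p.Prime := fun p hp => hS p (Finset.mem_insert_of_mem hp)
    have ih := ih hS'
    rw [Finset.prod_insert hq, Finset.prod_insert hq, ← ih]
    have hW0 : 0 < ∏ p ∈ S, p := Finset.prod_pos fun p hp => (hS' p hp).pos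
    have hcop : q.Coprime (∏ p ∈ S, p) := by
      apply Nat.Coprime.prod_right
      intro p hp
      exact (Nat.coprime_primes hqp (hS' p hp)).2 (fun h => hq (h ▸ hp))
    have h1 : (Finset.range (q * ∏ p ∈ S, p)).filter
        (fun a : ℕ => ∀ p ∈ insert q S, ¬ (p:ℤ) ∣ f.eval ((a:ℤ) + b)) =
        (Finset.range (q * ∏ p ∈ S, p)).filter
        (fun a : ℕ => (¬ (q:ℤ) ∣ f.eval ((a:ℤ) + b)) ∧
          ∀ p ∈ S, ¬ (p:ℤ) ∣ f.eval ((a:ℤ) + b)) := by
      apply Finset.filter_congr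
      intro a _
      rw [Finset.forall_mem_insert]
    have h2 := crt_count q (∏ p ∈ S, p) hqp.pos hW0 hcop
      (fun a : ℕ => ¬ (q:ℤ) ∣ f.eval ((a:ℤ) + b))
      (fun a : ℕ => ∀ p ∈ S, ¬ (p:ℤ) ∣ f.eval ((a:ℤ) + b))
      (fun a => not_congr (dvd_mod f q q dvd_rfl b a))
      (fun a => forall₂_congr fun p hp => not_congr
        (dvd_mod f p _ (Finset.dvd_prod_of_mem _ hp) b a))
    have h2' : ((Finset.range (q * ∏ p ∈ S, p)).filter
        (fun a : ℕ => ∀ p ∈ insert q S, ¬ (p:ℤ) ∣ f.eval ((a:ℤ) + b))).card =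
        ((Finset.range q).filter (fun a : ℕ => ¬ (q:ℤ) ∣ f.eval ((a:ℤ) + b))).card *
        ((Finset.range (∏ p ∈ S, p)).filter
          (fun a : ℕ => ∀ p ∈ S, ¬ (p:ℤ) ∣ f.eval ((a:ℤ) + b))).card := by
      rw [h1]
      convert h2
    rw [h2']
    push_cast
    congr 1
    have h3 := Finset.card_filter_add_card_filter_not (s := Finset.range q)
      (fun a : ℕ => (q : ℤ) ∣ f.eval ((a : ℤ) + b))
    have h4 := rho_shift f q hqp b
    rw [Finset.card_range] at h3
    have h5 : (((Finset.range q).filter (fun a : ℕ => (q : ℤ) ∣ f.eval ((a : ℤ) + b))).card : ℝ) =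
        rho f q := by
      rw [← h4]
    have h6 : (((Finset.range q).filter (fun a : ℕ => (q : ℤ) ∣ f.eval ((a : ℤ) + b))).card : ℝ) +
        (((Finset.range q).filter
          (fun a : ℕ => ¬ (q : ℤ) ∣ f.eval ((a : ℤ) + b))).card : ℝ) = q := by
      exact_mod_cast h3
    linarith

/-- the shifts of `B` that survive in the class `a` -/
noncomputable def surv (f : ℤ[X]) (x : ℝ) (B : Finset ℤ) (a : ℕ) : Finset ℤ :=
  B.filter (fun b => ∀ p ∈ PR x, ¬ (p:ℤ) ∣ f.eval ((a:ℤ) + b))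

theorem sum_surv (f : ℤ[X]) (x : ℝ) (B : Finset ℤ) :
    ∑ a ∈ Finset.range (PW x), ((surv f x B a).card : ℝ) ≤
      B.card * (PW x * Real.exp (-(Sg (rho f) x))) := by
  have h1 : ∀ a ∈ Finset.range (PW x), ((surv f x B a).card : ℝ) =
      ∑ b ∈ B, if (∀ p ∈ PR x, ¬ (p:ℤ) ∣ f.eval ((a:ℤ) + b)) then (1:ℝ) else 0 := by
    intro a _
    unfold surv
    rw [Finset.card_filter]
    push_cast
    rfl
  rw [Finset.sum_congr rfl h1, Finset.sum_comm]
  have h2 : ∀ b ∈ B, ∑ a ∈ Finset.range (PW x),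
      (if (∀ p ∈ PR x, ¬ (p:ℤ) ∣ f.eval ((a:ℤ) + b)) then (1:ℝ) else 0) ≤
      PW x * Real.exp (-(Sg (rho f) x)) := by
    intro b _
    have h3 : ∑ a ∈ Finset.range (PW x),
        (if (∀ p ∈ PR x, ¬ (p:ℤ) ∣ f.eval ((a:ℤ) + b)) then (1:ℝ) else 0) =
        (((Finset.range (PW x)).filter
          (fun a : ℕ => ∀ p ∈ PR x, ¬ (p:ℤ) ∣ f.eval ((a:ℤ) + b))).card : ℝ) := by
      rw [Finset.card_filter]
      push_cast
      rfl
    rw [h3]
    have h4 := count_surv f b (PR x) (fun p hp => PR_prime hp)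
    unfold PW
    rw [h4]
    have h5 : ∏ p ∈ PR x, ((p:ℝ) - rho f p) =
        ((∏ p ∈ PR x, p : ℕ) : ℝ) * ∏ p ∈ PR x, (1 - (rho f p : ℝ) / (p:ℝ)) := by
      push_cast
      rw [← Finset.prod_mul_distrib]
      apply Finset.prod_congr rfl
      intro p hp
      have : (p:ℝ) ≠ 0 := by exact_mod_cast (PR_prime hp).ne_zero
      field_simp
    rw [h5]
    exact mul_le_mul_of_nonneg_left (prod_le_exp f x) (Nat.cast_nonneg _)
  calc ∑ b ∈ B, ∑ a ∈ Finset.range (PW x),
        (if (∀ p ∈ PR x, ¬ (p:ℤ) ∣ f.eval ((a:ℤ) + b)) then (1:ℝ) else 0) ≤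
        ∑ b ∈ B, PW x * Real.exp (-(Sg (rho f) x)) := Finset.sum_le_sum h2
    _ = _ := by rw [Finset.sum_const, nsmul_eq_mul]

/-- at least half of the classes are good -/
theorem good_classes (f : ℤ[X]) (x : ℝ) (B : Finset ℤ) :
    (PW x : ℝ) / 2 ≤ (((Finset.range (PW x)).filter (fun a =>
      ((surv f x B a).card : ℝ) ≤ 2 * (B.card * Real.exp (-(Sg (rho f) x))))).card : ℝ) := by
  have h0 := sum_surv f x B
  set θ : ℝ := Real.exp (-(Sg (rho f) x)) with hθ
  have hθ0 : 0 < θ := Real.exp_pos _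
  have hsplit := Finset.card_filter_add_card_filter_not (s := Finset.range (PW x))
    (fun a => ((surv f x B a).card : ℝ) ≤ 2 * (B.card * θ))
  rw [Finset.card_range] at hsplit
  have hsplit' : (((Finset.range (PW x)).filter (fun a =>
      ((surv f x B a).card : ℝ) ≤ 2 * (B.card * θ))).card : ℝ) +
      (((Finset.range (PW x)).filter (fun a =>
      ¬ ((surv f x B a).card : ℝ) ≤ 2 * (B.card * θ))).card : ℝ) = PW x := by
    exact_mod_cast hsplit
  suffices h : (((Finset.range (PW x)).filter (fun a =>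
      ¬ ((surv f x B a).card : ℝ) ≤ 2 * (B.card * θ))).card : ℝ) ≤ (PW x : ℝ) / 2 by linarith
  rcases Nat.eq_zero_or_pos B.card with hB | hB
  · have h1 : (Finset.range (PW x)).filter (fun a =>
      ¬ ((surv f x B a).card : ℝ) ≤ 2 * (B.card * θ)) = ∅ := by
      apply Finset.filter_false_of_mem
      intro a _
      rw [not_not]
      have h2 : (surv f x B a).card = 0 := by
        have : (surv f x B a).card ≤ B.card := Finset.card_filter_le _ _
        omega
      rw [h2, hB]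
      simp
    rw [h1]
    simp only [Finset.card_empty, Nat.cast_zero]
    positivity
  · have hBR : (0:ℝ) < B.card := by exact_mod_cast hB
    have h1 : (((Finset.range (PW x)).filter (fun a =>
        ¬ ((surv f x B a).card : ℝ) ≤ 2 * (B.card * θ))).card : ℝ) * (2 * (B.card * θ)) ≤
        B.card * (PW x * θ) := by
      refine le_trans ?_ h0
      calc (((Finset.range (PW x)).filter (fun a =>
          ¬ ((surv f x B a).card : ℝ) ≤ 2 * (B.card * θ))).card : ℝ) * (2 * (B.card * θ)) =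
          ∑ a ∈ (Finset.range (PW x)).filter (fun a =>
          ¬ ((surv f x B a).card : ℝ) ≤ 2 * (B.card * θ)), 2 * (B.card * θ) := by
            rw [Finset.sum_const, nsmul_eq_mul]
        _ ≤ ∑ a ∈ (Finset.range (PW x)).filter (fun a =>
          ¬ ((surv f x B a).card : ℝ) ≤ 2 * (B.card * θ)), ((surv f x B a).card : ℝ) := by
            apply Finset.sum_le_sum
            intro a ha
            exact (not_le.1 (Finset.mem_filter.1 ha).2).le
        _ ≤ _ := by
            apply Finset.sum_le_sum_of_subset_of_nonneg (Finset.filter_subset _ _)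
            intro a _ _
            exact Nat.cast_nonneg _
    have h2 : (B.card:ℝ) * θ * (((Finset.range (PW x)).filter (fun a =>
        ¬ ((surv f x B a).card : ℝ) ≤ 2 * (B.card * θ))).card : ℝ) * 2 ≤
        (B.card:ℝ) * θ * PW x := by linarith
    have h3 : 0 < (B.card:ℝ) * θ := by positivity
    have h4 := le_of_mul_le_mul_left (by
      calc (B.card:ℝ) * θ * ((((Finset.range (PW x)).filter (fun a =>
        ¬ ((surv f x B a).card : ℝ) ≤ 2 * (B.card * θ))).card : ℝ) * 2) ≤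
        (B.card:ℝ) * θ * PW x := by linarith) h3
    linarith

/-- the points of different classes are different -/
theorem sum_classes (M M' : ℤ) (W : ℕ) (P : ℤ → Prop) (G : Finset ℕ) (hG : ∀ a ∈ G, a < W) :
    ∑ a ∈ G, (((Finset.Ioc M M').filter (fun n : ℤ => (W:ℤ) ∣ n - a ∧ P n)).card : ℝ) ≤
      (((Finset.Ioc M M').filter P).card : ℝ) := by
  have h1 : (G.biUnion (fun a =>
      (Finset.Ioc M M').filter (fun n : ℤ => (W:ℤ) ∣ n - a ∧ P n))).card =
      ∑ a ∈ G, ((Finset.Ioc M M').filter (fun n : ℤ => (W:ℤ) ∣ n - a ∧ P n)).card := by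
    apply Finset.card_biUnion
    intro a ha b hb hab
    change Disjoint _ _
    rw [Finset.disjoint_left]
    intro n hn hn'
    rw [Finset.mem_filter] at hn hn'
    apply hab
    have h2 : (W:ℤ) ∣ (b:ℤ) - a := by
      have := dvd_sub hn.2.1 hn'.2.1
      have e : n - (a:ℤ) - (n - b) = b - a := by ring
      rwa [e] at this
    have h3 : (a:ℕ) ≡ b [MOD W] := (Nat.modEq_iff_dvd).2 h2
    exact Nat.ModEq.eq_of_lt_of_lt h3 (hG a ha) (hG b hb)
  have h2 : (G.biUnion (fun a =>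
      (Finset.Ioc M M').filter (fun n : ℤ => (W:ℤ) ∣ n - a ∧ P n))) ⊆
      (Finset.Ioc M M').filter P := by
    intro n hn
    rw [Finset.mem_biUnion] at hn
    obtain ⟨a, _, hn⟩ := hn
    rw [Finset.mem_filter] at hn ⊢
    exact ⟨hn.1, hn.2.2⟩
  have h3 := Finset.card_le_card h2
  rw [h1] at h3
  exact_mod_cast h3

end Pool.Agent.L5helper45.PT
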