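import Pool.Agent.H474R2.GE.HomsUpper
import Pool.Agent.H474R2.GE.RhoHoms
import Pool.Agent.H474R2.PG.MertensF
import Pool.Agent.H474R2.PG.Rough
import Pool.Agent.H474R2.PG.Class
import Pool.Agent.H474R2.PG.CovA

set_option autoImplicit false

/-! # Number theoretic input (versions of library lemmas whose files cannot be imported together) -/

namespace Pool.Agent.L5helper45.PT

open Polynomial Finset NumberField
open Pool.Agent.H474R2.PG Pool.Agent.H474R2.GE

/-- the number of the integers of an interval in a residue class -/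
theorem count_ap (A B : ℤ) (hAB : A ≤ B) (q : ℕ) (hq : 1 ≤ q) (r : ℤ) :
    |(((Finset.Ioc A B).filter (fun x => (q : ℤ) ∣ x - r)).card : ℝ) - ((B : ℝ) - A) / q| ≤ 1 := by
  have hq' : (0 : ℤ) < q := by exact_mod_cast hq
  have h1 := Int.Ioc_filter_modEq_card A B hq' r
  have h2 : (Finset.Ioc A B).filter (fun x => (q : ℤ) ∣ x - r) =
      (Finset.Ioc A B).filter (fun x => x ≡ r [ZMOD (q : ℤ)]) := by
    apply Finset.filter_congr
    intro x _
    rw [Int.modEq_iff_dvd, dvd_sub_comm]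
  rw [h2]
  set a : ℚ := ((A : ℚ) - r) / ((q : ℤ) : ℚ) with ha
  set b : ℚ := ((B : ℚ) - r) / ((q : ℤ) : ℚ) with hb
  have hab : a ≤ b := by
    rw [ha, hb]
    apply div_le_div_of_nonneg_right
    · have : (A : ℚ) ≤ B := by exact_mod_cast hAB
      linarith
    · positivity
  have h3 : ⌊a⌋ ≤ ⌊b⌋ := Int.floor_mono hab
  have h4 : (((Finset.Ioc A B).filter (fun x => x ≡ r [ZMOD (q : ℤ)])).card : ℤ) = ⌊b⌋ - ⌊a⌋ := by
    rw [h1, max_eq_left (by omega)]
  have h5 : (((Finset.Ioc A B).filter (fun x => x ≡ r [ZMOD (q : ℤ)])).card : ℝ) =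
      (⌊b⌋ : ℝ) - (⌊a⌋ : ℝ) := by exact_mod_cast h4
  rw [h5]
  have h6 : ((B : ℝ) - A) / q = (b : ℝ) - (a : ℝ) := by
    rw [ha, hb]
    push_cast
    rw [← sub_div]
    ring
  rw [h6]
  have a1 : ((⌊a⌋ : ℤ) : ℝ) ≤ (a : ℝ) := by exact_mod_cast Int.floor_le a
  have a2 : (a : ℝ) < (⌊a⌋ : ℝ) + 1 := by exact_mod_cast Int.lt_floor_add_one a
  have b1 : ((⌊b⌋ : ℤ) : ℝ) ≤ (b : ℝ) := by exact_mod_cast Int.floor_le b
  have b2 : (b : ℝ) < (⌊b⌋ : ℝ) + 1 := by exact_mod_cast Int.lt_floor_add_one b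
  rw [abs_le]
  constructor <;> linarith

lemma eval_dvd_congr (f : ℤ[X]) (p : ℕ) (x y : ℤ) (h : (p : ℤ) ∣ x - y) :
    (p : ℤ) ∣ f.eval x ↔ (p : ℤ) ∣ f.eval y :=
  dvd_iff_dvd_of_dvd_sub (h.trans (Polynomial.sub_dvd_eval_sub x y f))

/-- counting in residue classes -/
theorem count_class (f : ℤ[X]) (A B : ℤ) (hAB : A ≤ B) (W : ℕ) (hW : 1 ≤ W) (r : ℤ)
    (T : Finset ℕ) (hT : ∀ p ∈ T, p.Prime ∧ ¬ p ∣ W) (s : ℕ → ℤ) :
    |(((Finset.Ioc A B).filter (fun a : ℤ => (W : ℤ) ∣ a - r ∧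
        ∀ p ∈ T, (p : ℤ) ∣ f.eval (a + s p))).card : ℝ) -
      ((B : ℝ) - A) / W * ∏ p ∈ T, (rho f p : ℝ) / (p : ℝ)| ≤ ∏ p ∈ T, (rho f p : ℝ) := by
  classical
  induction T using Finset.induction_on generalizing W r with
  | empty =>
    have h := count_ap A B hAB W hW r
    simpa using h
  | insert p T hpT ih =>
    obtain ⟨hp, hpW⟩ := hT p (Finset.mem_insert_self p T)
    have hp0 : (0 : ℤ) < (p : ℤ) := by exact_mod_cast hp.pos
    have hpR : (0 : ℝ) < (p : ℝ) := by exact_mod_cast hp.pos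
    have hWR : (0 : ℝ) < (W : ℝ) := by exact_mod_cast hW
    obtain ⟨Z, hZ⟩ : ∃ Z, Z = (Finset.range p).filter (fun a : ℕ => (p : ℤ) ∣ f.eval (a : ℤ)) :=
      ⟨_, rfl⟩
    have hZc : Z.card = rho f p := by rw [hZ]; rfl
    have hcop : IsCoprime (W : ℤ) (p : ℤ) := by
      rw [Nat.isCoprime_iff_coprime]
      exact (Nat.Coprime.symm ((Nat.Prime.coprime_iff_not_dvd hp).2 hpW))
    -- the classes
    have hcrt : ∀ c : ℕ, ∃ rc : ℤ, (W : ℤ) ∣ rc - r ∧ (p : ℤ) ∣ rc - ((c : ℤ) - s p) := by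
      intro c
      obtain ⟨u, v, huv⟩ := hcop
      refine ⟨r * (v * p) + ((c : ℤ) - s p) * (u * W), ?_, ?_⟩
      · refine ⟨u * (((c : ℤ) - s p) - r), ?_⟩
        have : v * (p : ℤ) = 1 - u * W := by linarith
        rw [this]; ring
      · refine ⟨v * (r - ((c : ℤ) - s p)), ?_⟩
        have : u * (W : ℤ) = 1 - v * p := by linarith
        rw [this]; ring
    choose rc hrc1 hrc2 using hcrt
    obtain ⟨F, hF⟩ : ∃ F, F = (Finset.Ioc A B).filter (fun a : ℤ => (W : ℤ) ∣ a - r ∧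
        ∀ q ∈ insert p T, (q : ℤ) ∣ f.eval (a + s q)) := ⟨_, rfl⟩
    have hfib : F.card = ∑ c ∈ Z, ((Finset.Ioc A B).filter (fun a : ℤ =>
        ((W * p : ℕ) : ℤ) ∣ a - rc c ∧ ∀ q ∈ T, (q : ℤ) ∣ f.eval (a + s q))).card := by
      have hmod : ∀ a : ℤ, ((((a + s p) % (p : ℤ)).toNat : ℕ) : ℤ) = (a + s p) % (p : ℤ) :=
        fun a => Int.toNat_of_nonneg (Int.emod_nonneg _ hp0.ne')
      have hdvd : ∀ a : ℤ, (p : ℤ) ∣ (a + s p) - (((a + s p) % (p : ℤ)).toNat : ℕ) := by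
        intro a
        rw [hmod]
        exact Int.dvd_self_sub_emod
      have hmaps : Set.MapsTo (fun a : ℤ => ((a + s p) % (p : ℤ)).toNat) (F : Set ℤ)
          (Z : Set ℕ) := by
        intro a ha
        rw [Finset.mem_coe, hF, Finset.mem_filter] at ha
        rw [Finset.mem_coe, hZ, Finset.mem_filter, Finset.mem_range]
        constructor
        · have h1 := Int.emod_lt_of_pos (a + s p) hp0
          have h2 := hmod a
          show ((a + s p) % (p : ℤ)).toNat < p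
          omega
        · have h3 := ha.2.2 p (Finset.mem_insert_self p T)
          exact (eval_dvd_congr f p _ _ (hdvd a)).1 h3
      rw [Finset.card_eq_sum_card_fiberwise hmaps]
      refine Finset.sum_congr rfl (fun c hc => ?_)
      congr 1
      rw [hZ, Finset.mem_filter, Finset.mem_range] at hc
      ext a
      rw [hF, Finset.mem_filter, Finset.mem_filter, Finset.mem_filter]
      constructor
      · rintro ⟨⟨h1, h2, h3⟩, h4⟩
        refine ⟨h1, ?_, fun q hq => h3 q (Finset.mem_insert_of_mem hq)⟩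
        have h5 := hdvd a
        rw [h4] at h5
        have h6 : (p : ℤ) ∣ a - rc c := by
          have := dvd_sub h5 (hrc2 c)
          have e : (a + s p) - (c : ℤ) - (rc c - ((c : ℤ) - s p)) = a - rc c := by ring
          rwa [e] at this
        have h7 : (W : ℤ) ∣ a - rc c := by
          have := dvd_sub h2 (hrc1 c)
          have e : a - r - (rc c - r) = a - rc c := by ring
          rwa [e] at this
        push_cast
        exact hcop.mul_dvd h7 h6
      · rintro ⟨h1, h2, h3⟩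
        push_cast at h2
        have h7 : (W : ℤ) ∣ a - rc c := (Dvd.intro _ rfl).trans h2
        have h6 : (p : ℤ) ∣ a - rc c := (Dvd.intro_left _ rfl).trans h2
        have h5 : (p : ℤ) ∣ (a + s p) - (c : ℤ) := by
          have := dvd_add h6 (hrc2 c)
          have e : a - rc c + (rc c - ((c : ℤ) - s p)) = (a + s p) - (c : ℤ) := by ring
          rwa [e] at this
        refine ⟨⟨h1, ?_, ?_⟩, ?_⟩
        · have := dvd_add h7 (hrc1 c)
          have e : a - rc c + (rc c - r) = a - r := by ring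
          rwa [e] at this
        · intro q hq
          rcases Finset.mem_insert.1 hq with rfl | hq
          · exact (eval_dvd_congr f q _ _ h5).2 hc.2
          · exact h3 q hq
        · have h8 : (a + s p) % (p : ℤ) = c := by
            have h10 : (a + s p) % (p : ℤ) = (c : ℤ) % (p : ℤ) :=
              ((Int.modEq_iff_dvd.2 h5).symm)
            rw [h10]
            exact Int.emod_eq_of_lt (by omega) (by exact_mod_cast hc.1)
          show ((a + s p) % (p : ℤ)).toNat = c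
          rw [h8]
          simp
    rw [← hF, hfib]
    have hWp : 1 ≤ W * p := Nat.mul_pos hW hp.pos
    have hT' : ∀ q ∈ T, q.Prime ∧ ¬ q ∣ W * p := by
      intro q hq
      obtain ⟨h1, h2⟩ := hT q (Finset.mem_insert_of_mem hq)
      refine ⟨h1, fun h => ?_⟩
      rcases (Nat.Prime.dvd_mul h1).1 h with h | h
      · exact h2 h
      · have := (Nat.prime_dvd_prime_iff_eq h1 hp).1 h
        exact hpT (this ▸ hq)
    have hbd := fun c => ih (W * p) hWp (rc c) hT'
    rw [Finset.prod_insert hpT, Finset.prod_insert hpT]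
    push_cast
    have e1 : ∑ c ∈ Z, (((Finset.Ioc A B).filter (fun a : ℤ =>
        ((W : ℤ) * p) ∣ a - rc c ∧ ∀ q ∈ T, (q : ℤ) ∣ f.eval (a + s q))).card : ℝ) -
        ((B : ℝ) - A) / W * ((rho f p : ℝ) / p * ∏ q ∈ T, (rho f q : ℝ) / (q : ℝ)) =
        ∑ c ∈ Z, ((((Finset.Ioc A B).filter (fun a : ℤ =>
        ((W * p : ℕ) : ℤ) ∣ a - rc c ∧ ∀ q ∈ T, (q : ℤ) ∣ f.eval (a + s q))).card : ℝ) -
        ((B : ℝ) - A) / (W * p : ℕ) * ∏ q ∈ T, (rho f q : ℝ) / (q : ℝ)) := by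
      rw [Finset.sum_sub_distrib, Finset.sum_const, hZc, nsmul_eq_mul]
      push_cast
      congr 1
      field_simp
    rw [e1]
    calc _ ≤ ∑ c ∈ Z, |((((Finset.Ioc A B).filter (fun a : ℤ =>
        ((W * p : ℕ) : ℤ) ∣ a - rc c ∧ ∀ q ∈ T, (q : ℤ) ∣ f.eval (a + s q))).card : ℝ) -
        ((B : ℝ) - A) / (W * p : ℕ) * ∏ q ∈ T, (rho f q : ℝ) / (q : ℝ))| :=
          Finset.abs_sum_le_sum_abs _ _
      _ ≤ ∑ c ∈ Z, ∏ q ∈ T, (rho f q : ℝ) := Finset.sum_le_sum (fun c _ => hbd c)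
      _ = (rho f p : ℝ) * ∏ q ∈ T, (rho f q : ℝ) := by
          rw [Finset.sum_const, hZc, nsmul_eq_mul]

/-- two-sided Mertens theorem for the roots of a polynomial -/
theorem mertens_two (f : ℤ[X]) (hf : Irreducible f) (hd : 0 < f.natDegree) :
    ∃ C : ℝ, 0 ≤ C ∧ ∀ w : ℝ, 3 ≤ w → |Sg (rho f) w - Real.log (Real.log w)| ≤ C := by
  obtain ⟨C1, hC1⟩ := mertens_lower f hf hd
  obtain ⟨K, iF, iN, B, hB⟩ := rho_le_homs f hf hd
  obtain ⟨C2, hC2⟩ := homs_upper K
  set S0 : ℝ := ∑ p ∈ PR B, (rho f p : ℝ) / (p : ℝ) with hS0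
  have hS00 : 0 ≤ S0 := Finset.sum_nonneg fun p _ => by positivity
  refine ⟨max C1 0 + max C2 0 + S0, by positivity, fun w hw => ?_⟩
  have h1 := hC1 w hw
  have h2 := hC2 w hw
  have h3 : Sg (rho f) w ≤ S0 + ∑ p ∈ PR w, (Nat.card (𝓞 K →+* ZMod p) : ℝ) / (p : ℝ) := by
    unfold Sg
    rw [← Finset.sum_filter_add_sum_filter_not (PR w) (fun p => p ≤ B)]
    apply add_le_add
    · rw [hS0]
      apply Finset.sum_le_sum_of_subset_of_nonneg
      · intro p hp
        rw [Finset.mem_filter, PR, Finset.mem_filter, Finset.mem_Icc] at hp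
        rw [PR, Finset.mem_filter, Finset.mem_Icc, Nat.floor_natCast]
        exact ⟨⟨hp.1.1.1, hp.2⟩, hp.1.2⟩
      · intro p _ _
        positivity
    · calc ∑ p ∈ (PR w).filter (fun p => ¬ p ≤ B), (rho f p : ℝ) / (p : ℝ)
          ≤ ∑ p ∈ (PR w).filter (fun p => ¬ p ≤ B),
              (Nat.card (𝓞 K →+* ZMod p) : ℝ) / (p : ℝ) := by
            apply Finset.sum_le_sum
            intro p hp
            rw [Finset.mem_filter] at hp
            have hpp : p.Prime := (Finset.mem_filter.1 hp.1).2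
            have h3 : (rho f p : ℝ) ≤ (Nat.card (𝓞 K →+* ZMod p) : ℝ) := by
              exact_mod_cast hB p hpp (not_le.1 hp.2)
            exact div_le_div_of_nonneg_right h3 (by positivity)
        _ ≤ ∑ p ∈ PR w, (Nat.card (𝓞 K →+* ZMod p) : ℝ) / (p : ℝ) := by
            apply Finset.sum_le_sum_of_subset_of_nonneg (Finset.filter_subset _ _)
            intro p _ _
            positivity
  have h4 := le_max_left C1 0
  have h5 := le_max_left C2 0
  have h6 := le_max_right C1 0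
  have h7 := le_max_right C2 0
  rw [abs_le]
  constructor <;> linarith

/-- product of the primes up to `w` -/
noncomputable def PW (w : ℝ) : ℕ := ∏ p ∈ PR w, p

lemma PW_eq (w : ℝ) : PW w = primorial ⌊w⌋₊ := by
  unfold PW PR primorial
  apply Finset.prod_congr _ (fun _ _ => rfl)
  ext p
  rw [Finset.mem_filter, Finset.mem_filter, Finset.mem_Icc, Finset.mem_range]
  constructor
  · rintro ⟨⟨h1, h2⟩, h3⟩
    exact ⟨by omega, h3⟩
  · rintro ⟨h1, h3⟩
    exact ⟨⟨h3.one_lt.le, by omega⟩, h3⟩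

lemma PR_prime {w : ℝ} {p : ℕ} (hp : p ∈ PR w) : p.Prime := (Finset.mem_filter.mp hp).2

lemma PR_le {w : ℝ} (hw : 0 ≤ w) {p : ℕ} (hp : p ∈ PR w) : (p : ℝ) ≤ w := by
  unfold PR at hp
  rw [Finset.mem_filter, Finset.mem_Icc] at hp
  calc (p:ℝ) ≤ (⌊w⌋₊ : ℝ) := by exact_mod_cast hp.1.2
    _ ≤ w := Nat.floor_le hw

lemma PW_pos (w : ℝ) : 1 ≤ PW w := by
  unfold PW
  exact Finset.prod_pos fun p hp => (PR_prime hp).pos

lemma PW_le {L : ℝ} (hL : 0 ≤ L) : (PW (L / 100) : ℝ) ≤ Real.exp (L / 50) := by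
  rw [PW_eq]
  have h1 : (primorial ⌊L / 100⌋₊ : ℝ) ≤ (4 : ℝ) ^ ⌊L / 100⌋₊ := by
    exact_mod_cast primorial_le_four_pow _
  refine h1.trans ?_
  rw [← Real.rpow_natCast]
  have h2 : (4 : ℝ) ^ ((⌊L / 100⌋₊ : ℕ) : ℝ) ≤ (4 : ℝ) ^ (L / 100) :=
    Real.rpow_le_rpow_of_exponent_le (by norm_num) (Nat.floor_le (by positivity))
  refine h2.trans ?_
  rw [Real.rpow_def_of_pos (by norm_num : (0 : ℝ) < 4)]
  apply Real.exp_le_exp.2
  have h3 : Real.log 4 ≤ 3 / 2 := by
    have : Real.log 4 = 2 * Real.log 2 := by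
      rw [show (4 : ℝ) = 2 ^ (2 : ℕ) by norm_num, Real.log_pow]; norm_num
    have := Real.log_two_lt_d9
    linarith
  nlinarith

lemma prod_le_exp (f : ℤ[X]) (w : ℝ) :
    ∏ p ∈ PR w, (1 - (rho f p : ℝ) / (p : ℝ)) ≤ Real.exp (-(Sg (rho f) w)) := by
  unfold Sg
  rw [← Finset.sum_neg_distrib, Real.exp_sum]
  apply Finset.prod_le_prod
  · intro p hp
    have hp0 : (0:ℝ) < p := by exact_mod_cast (PR_prime hp).pos
    have : (rho f p : ℝ) / p ≤ 1 := by
      rw [div_le_one hp0]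
      exact_mod_cast rho_le_self f p
    linarith
  · intro p _
    have := Real.add_one_le_exp (-((rho f p : ℝ) / (p : ℝ)))
    linarith

lemma PR_not_dvd {w : ℝ} (hw : 0 ≤ w) {p : ℕ} (hp : p.Prime) (h : w < p) : ¬ p ∣ PW w := by
  intro hdvd
  unfold PW at hdvd
  obtain ⟨q, hq, hq2⟩ := (Prime.dvd_finsetProd_iff hp.prime _).mp hdvd
  have h1 : p = q := (Nat.prime_dvd_prime_iff_eq hp (PR_prime hq)).mp hq2
  have h2 := PR_le hw hq
  rw [← h1] at h2
  linarith


end Pool.Agent.L5helper45.PT
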