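import Pool.Agent.L5helper45.PT.ProfP
import Pool.Agent.L5helper45.PT.Cnt
import Pool.Agent.Y831.RC5.Blk5

set_option autoImplicit false
set_option linter.unusedSectionVars false
set_option linter.unusedVariables false
set_option maxHeartbeats 4000000

/-! # The Brun-Hooley majorants for the roots of a polynomial -/

namespace Pool.Agent.L5helper45.PT

open Finset Filter Pool.Agent.H256R2.SC Pool.Agent.Y831.RC

open scoped Classical

theorem PE_sub {r : ℕ → ℕ} {y z : ℝ} (hz : 0 ≤ z) {E : Finset ℕ} : PE r y z E ⊆ PS y z ∅ := by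
  intro p hp
  obtain ⟨h1, h2, h3, -, -⟩ := PE_mem hz hp
  unfold PS
  rw [Finset.mem_filter, Finset.mem_Icc]
  exact ⟨⟨h1.one_le, Nat.le_floor h3⟩, h1, h2, Finset.notMem_empty p⟩

theorem Sg_diff {r : ℕ → ℕ} {C : ℝ} (hM : ∀ w : ℝ, 3 ≤ w →
    |Pool.Agent.H474R2.PG.Sg r w - Real.log (Real.log w)| ≤ C) {a b : ℝ} (ha : 3 ≤ a)
    (hab : a ≤ b) : |(Pool.Agent.H474R2.PG.Sg r b - Pool.Agent.H474R2.PG.Sg r a) -
      Real.log (Real.log b / Real.log a)| ≤ 2 * C := by
  have h1 := abs_le.1 (hM a ha)
  have h2 := abs_le.1 (hM b (ha.trans hab))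
  have h3 : 0 < Real.log a := Real.log_pos (by linarith)
  have h4 : 0 < Real.log b := Real.log_pos (by linarith)
  rw [Real.log_div h4.ne' h3.ne', abs_le]
  constructor <;> linarith [h1.1, h1.2, h2.1, h2.2]

theorem mass_PE {r : ℕ → ℕ} {y z : ℝ} (hy : 0 ≤ y) (hyz : y ≤ z) (E : Finset ℕ) :
    ∑ i, (r (emb (PE r y z E) i) : ℝ) / ((emb (PE r y z E) i : ℕ) : ℝ) ≤
      Pool.Agent.H474R2.PG.Sg r z - Pool.Agent.H474R2.PG.Sg r y := by
  rw [← Pool.Agent.H474R2.PG.RoughAux.sum_PS r hy hyz]
  have h1 : ∑ i, (r (emb (PE r y z E) i) : ℝ) / ((emb (PE r y z E) i : ℕ) : ℝ) =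
      ∑ p ∈ (univ : Finset (Fin (PE r y z E).card)).map (emb (PE r y z E)),
        (r p : ℝ) / (p : ℝ) := by
    rw [Finset.sum_map]
  rw [h1]
  apply Finset.sum_le_sum_of_subset_of_nonneg
  · intro p hp
    rw [Finset.mem_map] at hp
    obtain ⟨i, -, rfl⟩ := hp
    exact (Finset.mem_sdiff.1 (emb_mem (PE r y z E) i)).1
  · intro p _ _
    positivity

theorem BHyp_PE (r : ℕ → ℕ) (C : ℝ) (hC : 0 ≤ C) (hM : ∀ w : ℝ, 3 ≤ w →
    |Pool.Agent.H474R2.PG.Sg r w - Real.log (Real.log w)| ≤ C) (dd : ℝ) (hd : 1 ≤ dd)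
    (E : Finset ℕ) (w y : ℝ) (hrd : ∀ p : ℕ, p.Prime → w < (p:ℝ) → (r p : ℝ) ≤ dd)
    (b₀ : ℕ) (m τ : ℝ) (κ : Type) [Fintype κ]
    [DecidableEq κ] (hw3 : 3 ≤ w) (hwy : w ≤ y) (hb₀ : Even b₀)
    (huw : 2 * (dd * (Fintype.card κ : ℝ)) ≤ w) (hm0 : 0 ≤ m) (hτ1 : τ ≤ 1)
    (hmτ : m * (1 / 3) ^ b₀ ≤ Real.exp (-(128 * (1 + 2 * C) + 2)) * τ) :
    ∃ R : κ → Col (PE r w y E).card κ → ℝ,
      BHyp (fun i => (r (emb (PE r w y E) i) : ℝ) / ((emb (PE r w y E) i : ℕ) : ℝ)) R m τ ∧
      ∀ k, Lc dd (∏ j ∈ range (Nat.log 2 ⌊Real.log y / Real.log w⌋₊ + 1), dd ^ (b₀ + 2 * j))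
        (Real.exp (Real.log y * (2 * b₀ + 4))) (R k) := by
  have hw2 : 2 ≤ w := by linarith
  have hy0 : 0 < y := by linarith
  have hlw : 0 < Real.log w := Real.log_pos (by linarith)
  have hlwy : Real.log w ≤ Real.log y := Real.log_le_log (by linarith) hwy
  have hly : 0 < Real.log y := by linarith
  set PP : Finset ℕ := PE r w y E with hPP
  set g : Fin PP.card → ℝ := fun i => (r (emb PP i) : ℝ) / ((emb PP i : ℕ) : ℝ) with hg
  have hmem : ∀ i, emb PP i ∈ PS w y ∅ := fun i => PE_sub hy0.le (emb_mem PP i)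
  have hPm : ∀ i, (emb PP i).Prime ∧ w < ((emb PP i : ℕ):ℝ) ∧ ((emb PP i : ℕ):ℝ) ≤ y :=
    fun i => PS_mem hy0.le (hmem i)
  have hP0 : ∀ i, 0 < ((emb PP i : ℕ):ℝ) := fun i => by linarith [(hPm i).2.1]
  have hg0 : ∀ i, 0 ≤ g i := fun i => by have := hP0 i; simp only [hg]; positivity
  have hgu : ∀ i, (Fintype.card κ : ℝ) * g i ≤ 1 / 2 := fun i => by
    simp only [hg]
    rw [← mul_div_assoc, div_le_div_iff₀ (hP0 i) (by norm_num)]
    have h1 := (hPm i).2.1.le
    have h2 := hrd _ (hPm i).1 (hPm i).2.1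
    have h3 : (Fintype.card κ : ℝ) * (r (emb PP i) : ℝ) ≤ (Fintype.card κ : ℝ) * dd :=
      mul_le_mul_of_nonneg_left h2 (Nat.cast_nonneg _)
    linarith
  have hwt : ∀ i (c : Option κ), 0 ≤ wt (g i) c := fun i c =>
    wt_nonneg (hg0 i) (by linarith [hgu i]) c
  set bl : Fin PP.card → ℕ := fun i => blk y (emb PP i) with hbl
  set B : ℕ := Nat.log 2 ⌊Real.log y / Real.log w⌋₊ + 1 with hB
  have hblB : ∀ i, bl i < B := by
    intro i
    simp only [hbl, hB]
    unfold blk
    apply Nat.lt_succ_of_le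
    apply Nat.log_mono_right
    apply Nat.floor_le_floor
    apply div_le_div_of_nonneg_left hly.le hlw
    exact Real.log_le_log (by linarith) (hPm i).2.1.le
  set M : ℕ → ℕ := fun j => b₀ + 2 * j with hMM
  have hMe : ∀ j, Even (M j) := fun j => hb₀.add (even_two_mul j)
  -- the masses of the sub-blocks
  have hmass : ∀ j, ∑ i with bl i = j, g i ≤ 1 + 2 * C := by
    intro j
    rcases (univ.filter (fun i => bl i = j)).eq_empty_or_nonempty with he | ⟨i₀, hi₀⟩
    · rw [he]
      simp
      positivity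
    · rw [Finset.mem_filter] at hi₀
      set a : ℝ := max w (Real.exp (Real.log y / 2 ^ (j + 1))) with ha
      set b : ℝ := Real.exp (Real.log y / 2 ^ j) with hb
      have hspec : ∀ i, bl i = j → a ≤ ((emb PP i : ℕ):ℝ) ∧ (a < ((emb PP i : ℕ):ℝ)) ∧
          ((emb PP i : ℕ):ℝ) ≤ b := by
        intro i hi
        obtain ⟨e1, e2, e3⟩ := blk_spec hw2 (hmem i)
        have hi' : blk y (emb PP i) = j := hi
        rw [hi'] at e1 e2
        have e4 : a < ((emb PP i : ℕ):ℝ) := by
          rw [ha]
          apply max_lt (hPm i).2.1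
          rw [← Real.lt_log_iff_exp_lt (hP0 i)]
          exact e2
        refine ⟨e4.le, e4, ?_⟩
        rw [hb, ← Real.log_le_iff_le_exp (hP0 i)]
        exact e1
      have ha2 : 3 ≤ a := hw3.trans (le_max_left _ _)
      have hab : a ≤ b := (hspec i₀ hi₀.2).1.trans (hspec i₀ hi₀.2).2.2
      have h1 := (abs_le.1 (Sg_diff hM ha2 hab)).2
      have h2 : ∑ i with bl i = j, g i ≤
          Pool.Agent.H474R2.PG.Sg r b - Pool.Agent.H474R2.PG.Sg r a := by
        rw [← Pool.Agent.H474R2.PG.RoughAux.sum_PS r (by linarith : 0 ≤ a) hab]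
        have e1 : ∑ i with bl i = j, g i =
            ∑ p ∈ (univ.filter (fun i => bl i = j)).map (emb PP), (r p : ℝ) / p := by
          rw [Finset.sum_map]
        rw [e1]
        apply Finset.sum_le_sum_of_subset_of_nonneg
        · intro p hp
          rw [Finset.mem_map] at hp
          obtain ⟨i, hi, rfl⟩ := hp
          rw [Finset.mem_filter] at hi
          obtain ⟨_, e3, e4⟩ := hspec i hi.2
          unfold Pool.Agent.H474R2.PG.PS
          rw [Finset.mem_filter]
          refine ⟨?_, e3, (PE_mem hy0.le (emb_mem PP i)).2.2.2.1⟩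
          unfold Pool.Agent.H474R2.PG.PR
          rw [Finset.mem_filter, Finset.mem_Icc]
          exact ⟨⟨(hPm i).1.one_le, Nat.le_floor e4⟩, (hPm i).1⟩
        · intro p _ _
          positivity
      have hla : Real.log w ≤ Real.log a := Real.log_le_log (by linarith) (le_max_left _ _)
      have hla0 : 0 < Real.log a := by linarith
      have hla2 : Real.log y / 2 ^ (j + 1) ≤ Real.log a := by
        rw [← Real.log_exp (Real.log y / 2 ^ (j + 1))]
        exact Real.log_le_log (Real.exp_pos _) (le_max_right _ _)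
      have hlb : Real.log b = Real.log y / 2 ^ j := Real.log_exp _
      have h3 : Real.log (Real.log b / Real.log a) ≤ 1 := by
        have e1 : Real.log b / Real.log a ≤ 2 := by
          rw [div_le_iff₀ hla0, hlb]
          rw [pow_succ] at hla2
          have e2 : Real.log y / (2 ^ j * 2) = Real.log y / 2 ^ j / 2 := by field_simp
          rw [e2] at hla2
          linarith
        have e2 : 0 < Real.log b / Real.log a := by
          rw [hlb]; positivity
        refine (Real.log_le_log e2 e1).trans ?_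
        have := Real.log_two_lt_d9
        linarith
      linarith
  refine ⟨fun k => BHk bl B M k, ⟨fun k x => BHk_nonneg bl B M hMe k x,
    fun k x hx => BHk_one bl B M k x hx, ?_⟩, ?_⟩
  · intro K hK a ha
    have h1 := BH_up hg0 hwt hgu bl B hblB M hMe K a ha
    refine h1.trans ?_
    have hρ : 0 ≤ rho g K.card := rho_nonneg hg0 hgu (Finset.card_le_univ K)
    rw [mul_comm]
    apply mul_le_mul_of_nonneg_right _ hρ
    set μ : ℝ := 128 * (1 + 2 * C) with hμ
    have hμ0 : 0 ≤ μ := by positivity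
    set q : ℝ := (1 / 3) ^ b₀ * Real.exp μ with hq
    have hq0 : 0 ≤ q := by positivity
    have h2 : ∏ j ∈ range B, (1 + (1 / 3 : ℝ) ^ (M j) *
        Real.exp (128 * ∑ i with bl i = j, g i)) ≤ Real.exp (2 * q) := by
      calc ∏ j ∈ range B, (1 + (1 / 3 : ℝ) ^ (M j) * Real.exp (128 * ∑ i with bl i = j, g i))
          ≤ ∏ j ∈ range B, Real.exp (q * (1 / 9) ^ j) := by
            apply Finset.prod_le_prod
            · intro j _
              positivity
            · intro j _
              have e1 : Real.exp (128 * ∑ i with bl i = j, g i) ≤ Real.exp μ := by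
                apply Real.exp_le_exp.2
                rw [hμ]
                linarith [hmass j]
              have e2 : (1 / 3 : ℝ) ^ (M j) = (1 / 3) ^ b₀ * (1 / 9) ^ j := by
                simp only [hMM]
                rw [pow_add, pow_mul]
                norm_num
              have e3 : (1 / 3 : ℝ) ^ (M j) * Real.exp (128 * ∑ i with bl i = j, g i) ≤
                  q * (1 / 9) ^ j := by
                rw [e2, hq]
                calc (1 / 3 : ℝ) ^ b₀ * (1 / 9) ^ j * Real.exp (128 * ∑ i with bl i = j, g i)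
                    ≤ (1 / 3 : ℝ) ^ b₀ * (1 / 9) ^ j * Real.exp μ :=
                      mul_le_mul_of_nonneg_left e1 (by positivity)
                  _ = _ := by ring
              have e4 := Real.add_one_le_exp (q * (1 / 9 : ℝ) ^ j)
              linarith
        _ = Real.exp (q * ∑ j ∈ range B, (1 / 9 : ℝ) ^ j) := by
            rw [← Real.exp_sum, ← Finset.mul_sum]
        _ ≤ Real.exp (2 * q) := by
            apply Real.exp_le_exp.2
            have := geo_b B
            nlinarith
    have h3 : (∏ j ∈ range B, (1 + (1 / 3 : ℝ) ^ (M j) *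
        Real.exp (128 * ∑ i with bl i = j, g i))) ^ K.card ≤ Real.exp (2 * q * m) := by
      calc (∏ j ∈ range B, (1 + (1 / 3 : ℝ) ^ (M j) *
          Real.exp (128 * ∑ i with bl i = j, g i))) ^ K.card ≤ (Real.exp (2 * q)) ^ K.card := by
            apply pow_le_pow_left₀ _ h2
            apply Finset.prod_nonneg
            intro j _
            positivity
        _ = Real.exp (K.card * (2 * q)) := by rw [← Real.exp_nat_mul]
        _ ≤ Real.exp (2 * q * m) := by
            apply Real.exp_le_exp.2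
            nlinarith
    refine h3.trans ?_
    have h5 : 2 * q * m ≤ τ / 2 := by
      have e1 : q * m = Real.exp μ * (m * (1 / 3) ^ b₀) := by rw [hq]; ring
      have e2 : Real.exp μ * (m * (1 / 3) ^ b₀) ≤ Real.exp μ * (Real.exp (-(μ + 2)) * τ) :=
        mul_le_mul_of_nonneg_left hmτ (Real.exp_pos _).le
      have e3 : Real.exp μ * (Real.exp (-(μ + 2)) * τ) = Real.exp (-2) * τ := by
        rw [← mul_assoc, ← Real.exp_add]
        congr 2
        ring
      have hτ0 : 0 ≤ τ := by
        have : 0 ≤ Real.exp (-(μ + 2)) * τ := le_trans (by positivity) hmτ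
        by_contra hc
        push Not at hc
        have := Real.exp_pos (-(μ + 2))
        nlinarith
      have e4 : Real.exp (-2) ≤ 1 / 4 := by
        have h1 := Real.add_one_le_exp (1:ℝ)
        have h2 : Real.exp (-2) * Real.exp 2 = 1 := by rw [← Real.exp_add]; norm_num
        have h3 : Real.exp 2 = Real.exp 1 * Real.exp 1 := by rw [← Real.exp_add]; norm_num
        have h4 := Real.exp_pos (-2)
        have h5 : 4 ≤ Real.exp 2 := by
          rw [h3]
          nlinarith
        have h6 : Real.exp (-2) * 4 ≤ Real.exp (-2) * Real.exp 2 :=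
          mul_le_mul_of_nonneg_left h5 h4.le
        linarith
      nlinarith
    have h6 : 0 ≤ 2 * q * m := by positivity
    have h7 : Real.exp (2 * q * m) ≤ 1 + 2 * (2 * q * m) := by
      have hx1 : |2 * q * m| ≤ 1 := by
        rw [abs_of_nonneg h6]
        linarith
      have e1 := Real.abs_exp_sub_one_le hx1
      have e2 := (abs_le.1 e1).2
      rw [abs_of_nonneg h6] at e2
      linarith
    linarith
  · intro k
    refine Lc_mono le_rfl ?_ (Lc_BHk hd bl B M k)
    calc ∏ j ∈ range B, (((univ.filter (fun i => bl i = j)).card : ℝ) + 1) ^ (M j)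
        ≤ ∏ j ∈ range B, Real.exp (Real.log y * ((b₀ + 2 * j) / 2 ^ j)) := by
          apply Finset.prod_le_prod
          · intro j _
            positivity
          · intro j _
            set b : ℝ := Real.exp (Real.log y / 2 ^ j) with hb
            have hb1 : 1 ≤ b := Real.one_le_exp (by positivity)
            have e1 : ((univ.filter (fun i => bl i = j)).card : ℝ) + 1 ≤ b := by
              have e2 : (univ.filter (fun i => bl i = j)).card ≤ (PS w b ∅).card := by
                rw [← Finset.card_map (emb PP)]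
                apply Finset.card_le_card
                intro p hp
                rw [Finset.mem_map] at hp
                obtain ⟨i, hi, rfl⟩ := hp
                rw [Finset.mem_filter] at hi
                obtain ⟨e3, e4, e5⟩ := blk_spec hw2 (hmem i)
                have hi' : blk y (emb PP i) = j := hi.2
                rw [hi'] at e3
                have e6 : ((emb PP i : ℕ):ℝ) ≤ b := by
                  rw [hb, ← Real.log_le_iff_le_exp (hP0 i)]
                  exact e3
                unfold PS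
                rw [Finset.mem_filter, Finset.mem_Icc]
                exact ⟨⟨(hPm i).1.one_le, Nat.le_floor e6⟩, (hPm i).1, (hPm i).2.1, by simp⟩
              have e7 := card_PS w b hb1
              have e8 : ((univ.filter (fun i => bl i = j)).card : ℝ) ≤ (PS w b ∅).card := by
                exact_mod_cast e2
              linarith
            calc (((univ.filter (fun i => bl i = j)).card : ℝ) + 1) ^ (M j) ≤ b ^ (M j) :=
                  pow_le_pow_left₀ (by positivity) e1 _
              _ = Real.exp (Real.log y * ((b₀ + 2 * j) / 2 ^ j)) := by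
                  rw [hb, ← Real.exp_nat_mul]
                  congr 1
                  simp only [hMM]
                  push_cast
                  ring
      _ = Real.exp (Real.log y * ∑ j ∈ range B, ((b₀ : ℝ) + 2 * j) / 2 ^ j) := by
          rw [← Real.exp_sum, ← Finset.mul_sum]
      _ ≤ Real.exp (Real.log y * (2 * b₀ + 4)) := by
          apply Real.exp_le_exp.2
          apply mul_le_mul_of_nonneg_left _ hly.le
          rw [geo_a]
          have : (0:ℝ) ≤ (2 * (b₀:ℝ) + 4 * B + 4) / 2 ^ B := by positivity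
          linarith

/-- the density of the first block -/
theorem rho_PE (r : ℕ → ℕ) (dd : ℝ) (E : Finset ℕ) (w y : ℝ) (hw : 3 ≤ w) (hwy : w ≤ y)
    (hrd : ∀ p : ℕ, p.Prime → w < (p:ℝ) → (r p : ℝ) ≤ dd) (hdw : 2 * dd ≤ w)
    (hE : dd * ∑ p ∈ E.filter (fun p : ℕ => w < (p:ℝ)), 1 / (p:ℝ) ≤ 1 / 2) :
    rho (fun i => (r (emb (PE r w y E) i) : ℝ) / ((emb (PE r w y E) i : ℕ) : ℝ)) 1 ≤
      2 * Real.exp (-(Pool.Agent.H474R2.PG.Sg r y - Pool.Agent.H474R2.PG.Sg r w)) := by
  have hy0 : 0 ≤ y := by linarith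
  have hsplit : ∑ p ∈ PE r w y E, (r p : ℝ) / (p : ℝ) +
      ∑ p ∈ (Pool.Agent.H474R2.PG.PS r w y).filter (fun p => p ∈ E), (r p : ℝ) / (p : ℝ) =
      Pool.Agent.H474R2.PG.Sg r y - Pool.Agent.H474R2.PG.Sg r w := by
    rw [← Pool.Agent.H474R2.PG.RoughAux.sum_PS r (by linarith : 0 ≤ w) hwy,
      ← Finset.sum_filter_add_sum_filter_not (Pool.Agent.H474R2.PG.PS r w y) (fun p => p ∈ E),
      add_comm]
    congr 1
    unfold PE
    rw [Finset.sdiff_eq_filter]
  have hexc : ∑ p ∈ (Pool.Agent.H474R2.PG.PS r w y).filter (fun p => p ∈ E),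
      (r p : ℝ) / (p : ℝ) ≤ 1 / 2 := by
    refine le_trans ?_ hE
    rw [Finset.mul_sum]
    calc ∑ p ∈ (Pool.Agent.H474R2.PG.PS r w y).filter (fun p => p ∈ E), (r p : ℝ) / (p : ℝ)
        ≤ ∑ p ∈ (Pool.Agent.H474R2.PG.PS r w y).filter (fun p => p ∈ E), dd * (1 / (p : ℝ)) := by
          apply Finset.sum_le_sum
          intro p hp
          rw [Finset.mem_filter] at hp
          unfold Pool.Agent.H474R2.PG.PS at hp
          rw [Finset.mem_filter] at hp
          rw [mul_one_div]
          exact div_le_div_of_nonneg_right (hrd p (PR_prime hp.1.1) hp.1.2.1) (Nat.cast_nonneg _)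
      _ ≤ ∑ p ∈ E.filter (fun p : ℕ => w < (p:ℝ)), dd * (1 / (p : ℝ)) := by
          apply Finset.sum_le_sum_of_subset_of_nonneg
          · intro p hp
            rw [Finset.mem_filter] at hp
            unfold Pool.Agent.H474R2.PG.PS at hp
            rw [Finset.mem_filter] at hp
            exact Finset.mem_filter.2 ⟨hp.2, hp.1.2.1⟩
          · intro p hp _
            have h1 : 0 ≤ dd := by
              have := hrd
              obtain ⟨q, hq1, hq2⟩ := Nat.exists_infinite_primes (⌊w⌋₊ + 1)
              have h2 : w < (q:ℝ) := by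
                have h3 := Nat.lt_floor_add_one w
                have h4 : ((⌊w⌋₊ + 1 : ℕ) : ℝ) ≤ q := by exact_mod_cast hq1
                push_cast at h4
                linarith
              exact (Nat.cast_nonneg _).trans (hrd q hq2 h2)
            positivity
  have h1 : rho (fun i => (r (emb (PE r w y E) i) : ℝ) / ((emb (PE r w y E) i : ℕ) : ℝ)) 1 ≤
      Real.exp (-∑ p ∈ PE r w y E, (r p : ℝ) / (p : ℝ)) := by
    have h2 : ∑ p ∈ PE r w y E, (r p : ℝ) / (p : ℝ) =
        ∑ i, (r (emb (PE r w y E) i) : ℝ) / ((emb (PE r w y E) i : ℕ) : ℝ) := by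
      have e : PE r w y E = univ.map (emb (PE r w y E)) := by
        ext p
        rw [Finset.mem_map]
        constructor
        · intro hp
          obtain ⟨i, hi⟩ := emb_surj (PE r w y E) hp
          exact ⟨i, Finset.mem_univ _, hi⟩
        · rintro ⟨i, _, rfl⟩
          exact emb_mem _ i
      conv_lhs => rw [e]
      rw [Finset.sum_map]
    rw [h2, ← Finset.sum_neg_distrib, Real.exp_sum]
    unfold rho
    apply Finset.prod_le_prod
    · intro i _
      obtain ⟨e1, e2, e3, -, -⟩ := PE_mem hy0 (emb_mem (PE r w y E) i)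
      have e4 : (0:ℝ) < ((emb (PE r w y E) i : ℕ) : ℝ) := by linarith
      have e5 := hrd _ e1 e2
      have e6 : (r (emb (PE r w y E) i) : ℝ) / ((emb (PE r w y E) i : ℕ) : ℝ) ≤ 1 := by
        rw [div_le_one e4]
        have : 0 ≤ dd := (Nat.cast_nonneg _).trans e5
        linarith
      push_cast
      linarith
    · intro i _
      have := Real.add_one_le_exp (-((r (emb (PE r w y E) i) : ℝ) /
        ((emb (PE r w y E) i : ℕ) : ℝ)))
      push_cast
      linarith
  refine h1.trans ?_
  have h3 : -∑ p ∈ PE r w y E, (r p : ℝ) / (p : ℝ) ≤ 1 / 2 +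
      -(Pool.Agent.H474R2.PG.Sg r y - Pool.Agent.H474R2.PG.Sg r w) := by linarith
  refine (Real.exp_le_exp.2 h3).trans ?_
  rw [Real.exp_add]
  apply mul_le_mul_of_nonneg_right _ (Real.exp_pos _).le
  have h4 : Real.exp (1 / 2) ^ 2 = Real.exp 1 := by
    rw [← Real.exp_nat_mul]
    norm_num
  have h5 := Real.exp_one_lt_d9
  have h6 := Real.exp_pos (1 / 2)
  nlinarith

end Pool.Agent.L5helper45.PT
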