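import Pool.Agent.L5helper45.PT.Fin

set_option autoImplicit false
set_option linter.unusedVariables false
set_option maxHeartbeats 4000000

/-! # Strings of composite values -/

namespace Pool.Agent.L5helper45.PT

open Polynomial Finset Filter

/-- small values are rare -/
lemma few_small (f : ℤ[X]) (hd : 0 < f.natDegree) (V : ℝ) (hV : 0 ≤ V) (I : Finset ℤ) (b : ℤ) :
    ((I.filter (fun n : ℤ => |((f.eval (n + b) : ℤ) : ℝ)| ≤ V)).card : ℝ) ≤
      f.natDegree * (2 * V + 1) := by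
  classical
  have h1 : (I.filter (fun n : ℤ => |((f.eval (n + b) : ℤ) : ℝ)| ≤ V)) ⊆
      (Finset.Icc (-⌊V⌋) ⌊V⌋).biUnion (fun v => I.filter (fun n : ℤ => f.eval (n + b) = v)) := by
    intro n hn
    rw [Finset.mem_filter] at hn
    rw [Finset.mem_biUnion]
    refine ⟨f.eval (n + b), ?_, Finset.mem_filter.2 ⟨hn.1, rfl⟩⟩
    have h := abs_le.1 hn.2
    rw [Finset.mem_Icc]
    constructor
    · have : -(f.eval (n + b)) ≤ ⌊V⌋ := by
        rw [Int.le_floor]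
        push_cast
        linarith [h.1]
      linarith
    · rw [Int.le_floor]
      exact h.2
  have h2 : ∀ v ∈ Finset.Icc (-⌊V⌋) ⌊V⌋,
      (I.filter (fun n : ℤ => f.eval (n + b) = v)).card ≤ f.natDegree := by
    intro v _
    have hne : f - C v ≠ 0 := by
      intro h
      have h3 : f = C v := sub_eq_zero.1 h
      rw [h3, natDegree_C] at hd
      exact lt_irrefl _ hd
    calc (I.filter (fun n : ℤ => f.eval (n + b) = v)).card ≤ ((f - C v).roots.toFinset).card := by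
          apply Finset.card_le_card_of_injOn (fun n => n + b)
          · intro n hn
            rw [Finset.mem_coe, Finset.mem_filter] at hn
            rw [Finset.mem_coe, Multiset.mem_toFinset, mem_roots hne, IsRoot.def, eval_sub,
              eval_C, hn.2, sub_self]
          · intro n _ m _ h
            exact add_right_cancel h
      _ ≤ (f - C v).roots.card := Multiset.toFinset_card_le _
      _ ≤ (f - C v).natDegree := card_roots' _
      _ = f.natDegree := natDegree_sub_C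
  have h3 := Finset.card_le_card h1
  have h4 := Finset.card_biUnion_le_card_mul (Finset.Icc (-⌊V⌋) ⌊V⌋)
    (fun v => I.filter (fun n : ℤ => f.eval (n + b) = v)) f.natDegree h2
  have h5 : ((I.filter (fun n : ℤ => |((f.eval (n + b) : ℤ) : ℝ)| ≤ V)).card : ℝ) ≤
      ((Finset.Icc (-⌊V⌋) ⌊V⌋).card : ℝ) * f.natDegree := by
    exact_mod_cast h3.trans h4
  refine h5.trans ?_
  rw [Int.card_Icc, mul_comm]
  apply mul_le_mul_of_nonneg_left _ (Nat.cast_nonneg _)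
  have h6 : (0:ℤ) ≤ ⌊V⌋ := Int.floor_nonneg.2 hV
  have h7 : (((⌊V⌋ + 1 - -⌊V⌋).toNat : ℕ) : ℝ) = 2 * (⌊V⌋ : ℝ) + 1 := by
    have h8 : (((⌊V⌋ + 1 - -⌊V⌋).toNat : ℕ) : ℤ) = ⌊V⌋ + 1 - -⌊V⌋ := Int.toNat_of_nonneg (by omega)
    have h9 : (((⌊V⌋ + 1 - -⌊V⌋).toNat : ℕ) : ℝ) = ((⌊V⌋ + 1 - -⌊V⌋ : ℤ) : ℝ) := by
      exact_mod_cast h8
    rw [h9]
    push_cast
    ring
  rw [h7]
  have := Int.floor_le V
  linarith

theorem parC (c d : ℝ) : ∃ L₀ : ℝ, ∀ L : ℝ, L₀ ≤ L →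
    1 ≤ L ∧ c * Real.log L ≤ L ∧ 3 * d * L ^ 2 * Real.exp (L / 4) ≤ Real.exp (L / 2) := by
  obtain ⟨L₁, hL₁⟩ := parL c 1
  have h2 : ∀ᶠ L : ℝ in atTop, 3 * d * L ^ 2 ≤ Real.exp (L / 4) := by
    have h := (isLittleO_pow_exp_pos_mul_atTop 2 (show (0:ℝ) < 1 / 4 by norm_num)).bound
      (c := 1 / (3 * |d| + 1)) (by positivity)
    filter_upwards [h, eventually_ge_atTop 1] with L hL hL1
    rw [Real.norm_eq_abs, abs_of_nonneg (show (0:ℝ) ≤ L ^ 2 by positivity), Real.norm_eq_abs,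
      abs_of_pos (Real.exp_pos _)] at hL
    have hc : 0 < 3 * |d| + 1 := by positivity
    have h4 : (3 * |d| + 1) * L ^ 2 ≤ Real.exp (1 / 4 * L) := by
      have := mul_le_mul_of_nonneg_left hL hc.le
      rw [← mul_assoc, mul_one_div_cancel hc.ne', one_mul] at this
      exact this
    have h5 := le_abs_self d
    have h6 : (1:ℝ) / 4 * L = L / 4 := by ring
    rw [h6] at h4
    have h7 : 3 * d * L ^ 2 ≤ (3 * |d| + 1) * L ^ 2 := by
      apply mul_le_mul_of_nonneg_right _ (by positivity)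
      linarith
    linarith
  obtain ⟨L₂, hL₂⟩ := eventually_atTop.1 h2
  refine ⟨max 1 (max L₁ L₂), fun L hL => ?_⟩
  have a1 : 1 ≤ L := (le_max_left _ _).trans hL
  have a2 : L₁ ≤ L := ((le_max_left _ _).trans (le_max_right _ _)).trans hL
  have a3 : L₂ ≤ L := ((le_max_right _ _).trans (le_max_right _ _)).trans hL
  refine ⟨a1, (hL₁ L a2).2.1, ?_⟩
  have h3 := hL₂ L a3
  have h4 : Real.exp (L / 2) = Real.exp (L / 4) * Real.exp (L / 4) := by
    rw [← Real.exp_add]; congr 1; ring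
  rw [h4]
  exact mul_le_mul_of_nonneg_right h3 (Real.exp_pos _).le

open scoped Classical in
/-- the main theorem: proper prime divisors -/
theorem mainT (f : ℤ[X]) (hf : Irreducible f) (hd : 0 < f.natDegree) (D : ℕ) :
    ∃ c : ℝ, 0 < c ∧ ∃ T₀ X₀ : ℝ, ∀ X T : ℝ, X₀ ≤ X → T₀ ≤ T → T ≤ Real.log X / 2 →
      ∀ B : Finset ℤ, (B.card : ℝ) ≤ c * Real.log X * Real.log T →
      (∀ b ∈ B, |(b:ℝ)| ≤ Real.exp ((Real.log X) ^ D)) → ∀ M : ℤ,
      X * Real.exp (-T) ≤ (((Finset.Ioc M (M + ⌊X⌋)).filter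
        (fun n : ℤ => ∀ b ∈ B, ∃ p : ℕ, p.Prime ∧ (p:ℝ) ≤ X ^ (1 / Real.log T) ∧
          (p:ℤ) ∣ f.eval (n + b) ∧ (p:ℤ) < |f.eval (n + b)|)).card : ℝ) := by
  classical
  obtain ⟨c, hc, T₀, X₀, h⟩ := finT f hf hd D
  obtain ⟨L₁, hL₁⟩ := parC c f.natDegree
  refine ⟨c / 2, by positivity, max (Real.exp 4 + 1) (T₀ + 1), max X₀ (Real.exp L₁), ?_⟩
  intro X T hX hT hTX B hB hBH M
  have hX0 : 0 < X := lt_of_lt_of_le (Real.exp_pos _) ((le_max_right _ _).trans hX)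
  have hT5 : Real.exp 4 ≤ T - 1 := by have := (le_max_left _ _).trans hT; linarith
  have hT4 : 4 ≤ T := by have := Real.add_one_le_exp 4; linarith
  have hlT4 : 4 ≤ Real.log (T - 1) := (Real.le_log_iff_exp_le (by linarith)).2 hT5
  have hlT5 : 4 ≤ Real.log T := by
    have := Real.log_le_log (show 0 < T - 1 by linarith) (show T - 1 ≤ T by linarith)
    linarith
  have hTT : T₀ ≤ T - 1 := by have := (le_max_right _ _).trans hT; linarith
  obtain ⟨L, hL⟩ : ∃ L, L = Real.log X := ⟨_, rfl⟩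
  have hLL : L₁ ≤ L := by rw [hL]; exact (Real.le_log_iff_exp_le hX0).2 ((le_max_right _ _).trans hX)
  obtain ⟨l1, l2, l3⟩ := hL₁ L hLL
  have hLX : Real.exp L = X := by rw [hL]; exact Real.exp_log hX0
  have hL0 : 0 < L := by linarith
  have hX1 : 1 ≤ X := by
    rw [← hLX]
    exact Real.one_le_exp hL0.le
  have hlogT : Real.log T ≤ 2 * Real.log (T - 1) := by
    have h1 : Real.log T ≤ Real.log ((T - 1) ^ 2) := by
      apply Real.log_le_log (by linarith)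
      nlinarith
    rw [Real.log_pow] at h1
    exact_mod_cast h1
  have hB' : (B.card : ℝ) ≤ c * Real.log X * Real.log (T - 1) := by
    rw [← hL] at hB ⊢
    calc (B.card : ℝ) ≤ c / 2 * L * Real.log T := hB
      _ ≤ c / 2 * L * (2 * Real.log (T - 1)) := mul_le_mul_of_nonneg_left hlogT (by positivity)
      _ = c * L * Real.log (T - 1) := by ring
  have h1 := h X (T - 1) ((le_max_left _ _).trans hX) hTT (by rw [← hL] at hTX ⊢; linarith) B hB'
    hBH M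
  -- the exceptions
  obtain ⟨I, hI⟩ : ∃ I, I = Finset.Ioc M (M + ⌊X⌋) := ⟨_, rfl⟩
  rw [← hI] at h1 ⊢
  have hsub : I.filter (fun n : ℤ => ∀ b ∈ B, ∃ p : ℕ, p.Prime ∧ (p:ℝ) ≤ X ^ (1 / (2 * Real.log (T - 1))) ∧
        (p:ℤ) ∣ f.eval (n + b)) ⊆
      I.filter (fun n : ℤ => ∀ b ∈ B, ∃ p : ℕ, p.Prime ∧ (p:ℝ) ≤ X ^ (1 / Real.log T) ∧
        (p:ℤ) ∣ f.eval (n + b) ∧ (p:ℤ) < |f.eval (n + b)|) ∪
      B.biUnion (fun b => I.filter (fun n : ℤ => |((f.eval (n + b) : ℤ) : ℝ)| ≤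
        X ^ (1 / 4 : ℝ))) := by
    intro n hn
    rw [Finset.mem_filter] at hn
    rw [Finset.mem_union, Finset.mem_biUnion]
    by_cases hex : ∃ b ∈ B, |((f.eval (n + b) : ℤ) : ℝ)| ≤ X ^ (1 / 4 : ℝ)
    · obtain ⟨b, hb, hb2⟩ := hex
      exact Or.inr ⟨b, hb, Finset.mem_filter.2 ⟨hn.1, hb2⟩⟩
    · push Not at hex
      refine Or.inl (Finset.mem_filter.2 ⟨hn.1, fun b hb => ?_⟩)
      obtain ⟨p, hp1, hp2, hp3⟩ := hn.2 b hb
      refine ⟨p, hp1, hp2.trans (Real.rpow_le_rpow_of_exponent_le hX1 ?_), hp3, ?_⟩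
      · exact one_div_le_one_div_of_le (by linarith) hlogT
      have h2 := hex b hb
      have h3 : (p:ℝ) ≤ X ^ (1 / 4 : ℝ) :=
        hp2.trans (Real.rpow_le_rpow_of_exponent_le hX1
          (one_div_le_one_div_of_le (by norm_num) (by linarith)))
      have h4 : (p:ℝ) < |((f.eval (n + b) : ℤ) : ℝ)| := lt_of_le_of_lt h3 h2
      exact_mod_cast h4
  have hcard := Finset.card_le_card hsub
  have hcard2 := hcard.trans (Finset.card_union_le _ _)
  have hex : ((B.biUnion (fun b => I.filter (fun n : ℤ => |((f.eval (n + b) : ℤ) : ℝ)| ≤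
        X ^ (1 / 4 : ℝ)))).card : ℝ) ≤ Real.exp (L / 2) := by
    have e1 : ((B.biUnion (fun b => I.filter (fun n : ℤ => |((f.eval (n + b) : ℤ) : ℝ)| ≤
        X ^ (1 / 4 : ℝ)))).card : ℝ) ≤ ∑ b ∈ B, ((I.filter (fun n : ℤ =>
        |((f.eval (n + b) : ℤ) : ℝ)| ≤ X ^ (1 / 4 : ℝ))).card : ℝ) := by
      exact_mod_cast Finset.card_biUnion_le
    have hX4 : X ^ (1 / 4 : ℝ) = Real.exp (L / 4) := by
      rw [← hLX, ← Real.exp_mul]
      congr 1
      ring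
    have e2 : ∑ b ∈ B, ((I.filter (fun n : ℤ =>
        |((f.eval (n + b) : ℤ) : ℝ)| ≤ X ^ (1 / 4 : ℝ))).card : ℝ) ≤
        ∑ b ∈ B, (f.natDegree * (2 * Real.exp (L / 4) + 1) : ℝ) := by
      apply Finset.sum_le_sum
      intro b _
      have := few_small f hd (X ^ (1 / 4 : ℝ)) (by positivity) I b
      rwa [hX4] at this ⊢
    refine (e1.trans e2).trans ?_
    rw [Finset.sum_const, nsmul_eq_mul]
    have hT0 : 0 < T := by linarith
    have hBL : (B.card : ℝ) ≤ L ^ 2 := by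
      rw [← hL] at hB hTX
      have hlTL : Real.log T ≤ Real.log L := Real.log_le_log hT0 (by linarith)
      have hlL : 0 ≤ Real.log L := Real.log_nonneg l1
      calc (B.card : ℝ) ≤ c / 2 * L * Real.log T := hB
        _ ≤ c / 2 * L * Real.log L := mul_le_mul_of_nonneg_left hlTL (by positivity)
        _ = L * (c * Real.log L) / 2 := by ring
        _ ≤ L * (c * Real.log L) := by
            have : 0 ≤ L * (c * Real.log L) := by positivity
            linarith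
        _ ≤ L * L := mul_le_mul_of_nonneg_left l2 hL0.le
        _ = L ^ 2 := by ring
    have hexp1 : 1 ≤ Real.exp (L / 4) := Real.one_le_exp (by positivity)
    calc (B.card : ℝ) * (f.natDegree * (2 * Real.exp (L / 4) + 1)) ≤
          L ^ 2 * (f.natDegree * (3 * Real.exp (L / 4))) := by
          apply mul_le_mul hBL _ (by positivity) (by positivity)
          apply mul_le_mul_of_nonneg_left _ (Nat.cast_nonneg _)
          linarith
      _ = 3 * f.natDegree * L ^ 2 * Real.exp (L / 4) := by ring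
      _ ≤ Real.exp (L / 2) := l3
  have hfin : ((I.filter (fun n : ℤ => ∀ b ∈ B, ∃ p : ℕ, p.Prime ∧ (p:ℝ) ≤ X ^ (1 / (2 * Real.log (T - 1))) ∧
        (p:ℤ) ∣ f.eval (n + b))).card : ℝ) ≤
      ((I.filter (fun n : ℤ => ∀ b ∈ B, ∃ p : ℕ, p.Prime ∧ (p:ℝ) ≤ X ^ (1 / Real.log T) ∧
        (p:ℤ) ∣ f.eval (n + b) ∧ (p:ℤ) < |f.eval (n + b)|)).card : ℝ) +
      ((B.biUnion (fun b => I.filter (fun n : ℤ => |((f.eval (n + b) : ℤ) : ℝ)| ≤
        X ^ (1 / 4 : ℝ)))).card : ℝ) := by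
    exact_mod_cast hcard2
  have hh : X * Real.exp (-(T - 1)) ≤ ((I.filter (fun n : ℤ => ∀ b ∈ B, ∃ p : ℕ, p.Prime ∧
      (p:ℝ) ≤ X ^ (1 / (2 * Real.log (T - 1))) ∧ (p:ℤ) ∣ f.eval (n + b))).card : ℝ) := by
    refine h1.trans (le_of_eq ?_)
    congr!
  have hfin2 : X * Real.exp (-T) + Real.exp (L / 2) ≤ X * Real.exp (-(T - 1)) := by
    have g1 : Real.exp (-(T - 1)) = Real.exp (-T) * Real.exp 1 := by
      rw [← Real.exp_add]; congr 1; ring
    have g2 : Real.exp (L / 2) ≤ X * Real.exp (-T) := by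
      rw [← hLX, ← Real.exp_add]
      apply Real.exp_le_exp.2
      rw [← hL] at hTX
      linarith
    have g3 := Real.exp_one_gt_d9
    have g4 : 0 < X * Real.exp (-T) := by positivity
    rw [g1]
    nlinarith
  linarith

theorem sq_irr : Irreducible (X ^ 2 + 1 : ℤ[X]) := by
  have h : cyclotomic (2 ^ (1 + 1)) ℤ = X ^ 2 + 1 := by
    rw [cyclotomic_prime_pow_eq_geom_sum Nat.prime_two, Finset.sum_range_succ,
      Finset.sum_range_one]
    ring
  rw [← h]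
  exact cyclotomic.irreducible (by norm_num)

theorem sq_deg : (X ^ 2 + 1 : ℤ[X]).natDegree = 2 := by
  have : (X ^ 2 + 1 : ℤ[X]) = X ^ 2 + C 1 := by simp
  rw [this]
  exact natDegree_X_pow_add_C

lemma not_prime_of (v : ℤ) (p : ℕ) (hp : p.Prime) (h1 : (p:ℤ) ∣ v) (h2 : (p:ℤ) < |v|) :
    ¬ v.natAbs.Prime := by
  intro hv
  have h3 : p ∣ v.natAbs := Int.natCast_dvd.1 h1
  rcases (Nat.dvd_prime hv).1 h3 with h4 | h4
  · exact hp.one_lt.ne' h4
  · rw [Int.abs_eq_natAbs, ← h4] at h2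
    exact lt_irrefl _ h2

/-- the number of composite strings -/
theorem sqT (D : ℕ) : ∃ c : ℝ, 0 < c ∧ ∃ T₀ X₀ : ℝ, ∀ X T : ℝ, X₀ ≤ X → T₀ ≤ T →
    T ≤ Real.log X / 2 → ∀ B : Finset ℤ, (B.card : ℝ) ≤ c * Real.log X * Real.log T →
      (∀ b ∈ B, |(b:ℝ)| ≤ Real.exp ((Real.log X) ^ D)) → ∀ M : ℤ,
      X * Real.exp (-T) ≤ (((Finset.Ioc M (M + ⌊X⌋)).filter
        (fun n : ℤ => ∀ b ∈ B, ¬ Nat.Prime ((n + b) ^ 2 + 1).natAbs)).card : ℝ) := by
  classical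
  obtain ⟨c, hc, T₀, X₀, h⟩ := mainT (X ^ 2 + 1 : ℤ[X]) sq_irr (by rw [sq_deg]; norm_num) D
  refine ⟨c, hc, T₀, X₀, fun Y T hY hT hTY B hB hBH M => ?_⟩
  refine (h Y T hY hT hTY B hB hBH M).trans ?_
  have : ((Finset.Ioc M (M + ⌊Y⌋)).filter (fun n : ℤ => ∀ b ∈ B, ∃ p : ℕ, p.Prime ∧
      (p:ℝ) ≤ Y ^ (1 / Real.log T) ∧ (p:ℤ) ∣ (X ^ 2 + 1 : ℤ[X]).eval (n + b) ∧
      (p:ℤ) < |(X ^ 2 + 1 : ℤ[X]).eval (n + b)|)) ⊆
      ((Finset.Ioc M (M + ⌊Y⌋)).filter
        (fun n : ℤ => ∀ b ∈ B, ¬ Nat.Prime ((n + b) ^ 2 + 1).natAbs)) := by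
    intro n hn
    rw [Finset.mem_filter] at hn ⊢
    refine ⟨hn.1, fun b hb => ?_⟩
    obtain ⟨p, hp1, _, hp3, hp4⟩ := hn.2 b hb
    have he : (X ^ 2 + 1 : ℤ[X]).eval (n + b) = (n + b) ^ 2 + 1 := by simp
    rw [he] at hp3 hp4
    exact not_prime_of _ p hp1 hp3 hp4
  have h2 := Finset.card_le_card this
  refine le_trans (le_of_eq ?_) (Nat.cast_le.2 h2)
  congr!

/-- a positive proportion of the translates -/
theorem sq_pos (D : ℕ) (lam : ℝ) : ∃ ε : ℝ, 0 < ε ∧ ∃ X₀ : ℝ, ∀ X : ℝ, X₀ ≤ X →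
    ∀ B : Finset ℤ, (B.card : ℝ) ≤ lam * Real.log X →
      (∀ b ∈ B, |(b:ℝ)| ≤ Real.exp ((Real.log X) ^ D)) → ∀ M : ℤ,
      ε * X ≤ (((Finset.Ioc M (M + ⌊X⌋)).filter
        (fun n : ℤ => ∀ b ∈ B, ¬ Nat.Prime ((n + b) ^ 2 + 1).natAbs)).card : ℝ) := by
  obtain ⟨c, hc, T₀, X₀, h⟩ := sqT D
  set T : ℝ := max T₀ (Real.exp (lam / c)) with hT
  have hT0 : 0 < T := lt_of_lt_of_le (Real.exp_pos _) (le_max_right _ _)
  refine ⟨Real.exp (-T), Real.exp_pos _, max X₀ (Real.exp (2 * T)), ?_⟩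
  intro X hX B hB hBH M
  have hX0 : 0 < X := lt_of_lt_of_le (Real.exp_pos _) ((le_max_right _ _).trans hX)
  have hL : 2 * T ≤ Real.log X := (Real.le_log_iff_exp_le hX0).2 ((le_max_right _ _).trans hX)
  rw [mul_comm]
  refine h X T ((le_max_left _ _).trans hX) (le_max_left _ _) (by linarith) B ?_ hBH M
  have h1 : lam / c ≤ Real.log T := (Real.le_log_iff_exp_le hT0).2 (le_max_right _ _)
  have h2 : lam ≤ c * Real.log T := by
    rw [div_le_iff₀ hc] at h1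
    linarith
  have hL0 : 0 ≤ Real.log X := by linarith
  calc (B.card : ℝ) ≤ lam * Real.log X := hB
    _ ≤ c * Real.log T * Real.log X := mul_le_mul_of_nonneg_right h2 hL0
    _ = c * Real.log X * Real.log T := by ring

/-- long strings -/
theorem sq_long (D : ℕ) : ∃ c : ℝ, 0 < c ∧ ∀ η : ℝ, 0 < η → ∃ X₀ : ℝ, ∀ X : ℝ, X₀ ≤ X →
    ∀ B : Finset ℤ, (B.card : ℝ) ≤ c * Real.log X * Real.log (Real.log X) →
      (∀ b ∈ B, |(b:ℝ)| ≤ Real.exp ((Real.log X) ^ D)) → ∀ M : ℤ,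
      X ^ (1 - η) ≤ (((Finset.Ioc M (M + ⌊X⌋)).filter
        (fun n : ℤ => ∀ b ∈ B, ¬ Nat.Prime ((n + b) ^ 2 + 1).natAbs)).card : ℝ) := by
  obtain ⟨c, hc, T₀, X₀, h⟩ := sqT D
  refine ⟨c / 2, by positivity, fun η hη => ?_⟩
  set θ : ℝ := min η (1 / 2) with hθ
  have hθ0 : 0 < θ := lt_min hη (by norm_num)
  have hθ1 : θ ≤ η := min_le_left _ _
  have hθ2 : θ ≤ 1 / 2 := min_le_right _ _
  refine ⟨max X₀ (Real.exp (max (T₀ / θ) (max 1 (1 / θ ^ 2)))), ?_⟩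
  intro X hX B hB hBH M
  have hX0 : 0 < X := lt_of_lt_of_le (Real.exp_pos _) ((le_max_right _ _).trans hX)
  have hL : max (T₀ / θ) (max 1 (1 / θ ^ 2)) ≤ Real.log X :=
    (Real.le_log_iff_exp_le hX0).2 ((le_max_right _ _).trans hX)
  obtain ⟨L, hLL⟩ : ∃ L, L = Real.log X := ⟨_, rfl⟩
  rw [← hLL] at hL
  have a1 : T₀ / θ ≤ L := (le_max_left _ _).trans hL
  have a2 : 1 ≤ L := ((le_max_left _ _).trans (le_max_right _ _)).trans hL
  have a3 : 1 / θ ^ 2 ≤ L := ((le_max_right _ _).trans (le_max_right _ _)).trans hL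
  have hLX : Real.exp L = X := by rw [hLL]; exact Real.exp_log hX0
  have hX1 : 1 ≤ X := by
    rw [← hLX]
    exact Real.one_le_exp (by linarith)
  have b1 : T₀ ≤ θ * L := by
    rw [div_le_iff₀ hθ0] at a1
    linarith
  have b3 : L ≤ (θ * L) ^ 2 := by
    rw [div_le_iff₀ (by positivity)] at a3
    nlinarith
  have b4 : Real.log L ≤ 2 * Real.log (θ * L) := by
    have := Real.log_le_log (by linarith) b3
    rw [Real.log_pow] at this
    exact_mod_cast this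
  have h1 := h X (θ * L) ((le_max_left _ _).trans hX) b1 (by rw [← hLL]; nlinarith) B
    (by
      rw [← hLL] at hB ⊢
      calc (B.card : ℝ) ≤ c / 2 * L * Real.log L := hB
        _ ≤ c / 2 * L * (2 * Real.log (θ * L)) := mul_le_mul_of_nonneg_left b4 (by positivity)
        _ = c * L * Real.log (θ * L) := by ring) hBH M
  refine le_trans ?_ h1
  calc X ^ (1 - η) ≤ X ^ (1 - θ) := Real.rpow_le_rpow_of_exponent_le hX1 (by linarith)
    _ = X * Real.exp (-(θ * L)) := by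
        rw [← hLX, ← Real.exp_mul, ← Real.exp_add]
        congr 1
        ring

end Pool.Agent.L5helper45.PT
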