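import Pool.Agent.L5helper45.PT.Blk

set_option autoImplicit false
set_option linter.unusedSectionVars false
set_option linter.unusedVariables false
set_option maxHeartbeats 4000000

/-! # The covering theorem for the roots of a polynomial, with an exceptional set -/

namespace Pool.Agent.L5helper45.PT

open Finset Filter Pool.Agent.H256R2.SC Pool.Agent.Y831.RC

open scoped Classical

theorem qqc_split {n₁ n₂ : ℕ} {κ : Type} [Fintype κ] [DecidableEq κ] (dd : ℝ)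
    (D : Col (n₁ + n₂) κ) :
    qq (fun _ => dd) D = qq (fun _ => dd) (fstc D) * qq (fun _ => dd) (sndc D) := by
  unfold qq
  rw [Fin.prod_univ_add]
  rfl

theorem qqc_eq {n : ℕ} {κ : Type} [Fintype κ] [DecidableEq κ] (dd : ℝ) (D : Col n κ) :
    qq (fun _ => dd) D = dd ^ (Pool.Agent.H256R2.SC.supp D).card := by
  unfold qq
  rw [prod_nu1, Finset.prod_const]

/-- the events of the two blocks -/
theorem event_hit {κ : Type} [Fintype κ] [DecidableEq κ] [Nonempty κ] {PP₁ PP₂ : Finset ℕ}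
    (hd : Disjoint PP₁ PP₂) {hit : ℕ → ℤ → κ → Prop}
    (hu₁ : ∀ p ∈ PP₁, ∀ a k l, hit p a k → hit p a l → k = l)
    (hu₂ : ∀ p ∈ PP₂, ∀ a k l, hit p a k → hit p a l → k = l)
    (r : ℕ → ℕ) (dd : ℝ)
    (D : Col (PP₁.card + PP₂.card) κ) :
    ∃ (T : Finset ℕ) (s : ℕ → κ), (∀ p ∈ T, p ∈ PP₁ ∨ p ∈ PP₂) ∧
      dd ^ T.card = qq (fun _ => dd) D ∧
      ∏ p ∈ T, (r p : ℝ) / (p : ℝ) = nu (Fin.append
        (fun i => (r (emb PP₁ i) : ℝ) / ((emb PP₁ i : ℕ) : ℝ))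
        (fun i => (r (emb PP₂ i) : ℝ) / ((emb PP₂ i : ℕ) : ℝ))) D ∧
      ∀ a : ℤ, (∀ i, D i ≠ none →
        (Fin.append (Pool.Agent.H474R2.PG.colh PP₁ hit a) (Pool.Agent.H474R2.PG.colh PP₂ hit a) :
          Col (PP₁.card + PP₂.card) κ) i = D i) ↔ ∀ p ∈ T, hit p a (s p) := by
  set T₁ := Pool.Agent.H474R2.PG.TT PP₁ (fstc D) with hT₁
  set T₂ := Pool.Agent.H474R2.PG.TT PP₂ (sndc D) with hT₂
  have hm₁ : ∀ p ∈ T₁, p ∈ PP₁ := fun p hp => Pool.Agent.H474R2.PG.TT_mem hp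
  have hm₂ : ∀ p ∈ T₂, p ∈ PP₂ := fun p hp => Pool.Agent.H474R2.PG.TT_mem hp
  have hdT : Disjoint T₁ T₂ := by
    rw [Finset.disjoint_left] at hd ⊢
    intro p h1 h2
    exact hd (hm₁ p h1) (hm₂ p h2)
  refine ⟨T₁ ∪ T₂, fun p => if p ∈ PP₁ then Pool.Agent.H474R2.PG.sT PP₁ (fstc D) p
    else Pool.Agent.H474R2.PG.sT PP₂ (sndc D) p, ?_, ?_, ?_, ?_⟩
  · intro p hp
    rw [Finset.mem_union] at hp
    rcases hp with hp | hp
    · exact Or.inl (hm₁ p hp)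
    · exact Or.inr (hm₂ p hp)
  · rw [Finset.card_union_of_disjoint hdT, pow_add, qqc_split, qqc_eq, qqc_eq]
    have e1 : T₁.card = (Pool.Agent.H256R2.SC.supp (fstc D)).card := by
      rw [hT₁]
      unfold Pool.Agent.H474R2.PG.TT
      rw [Finset.card_map]
    have e2 : T₂.card = (Pool.Agent.H256R2.SC.supp (sndc D)).card := by
      rw [hT₂]
      unfold Pool.Agent.H474R2.PG.TT
      rw [Finset.card_map]
    rw [e1, e2]
  · rw [Finset.prod_union hdT, nu_append]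
    congr 1
    · exact Pool.Agent.H474R2.PG.TT_nu PP₁ (fun p => (r p : ℝ) / (p : ℝ)) (fstc D)
    · exact Pool.Agent.H474R2.PG.TT_nu PP₂ (fun p => (r p : ℝ) / (p : ℝ)) (sndc D)
  · intro a
    have h1 := Pool.Agent.H474R2.PG.event_iff' hu₁ (fstc D) a
    have h2 := Pool.Agent.H474R2.PG.event_iff' hu₂ (sndc D) a
    constructor
    · intro h p hp
      rw [Finset.mem_union] at hp
      rcases hp with hp | hp
      · beta_reduce
        rw [if_pos (hm₁ p hp)]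
        refine h1.1 ?_ p hp
        intro i hi
        have := h (Fin.castAdd _ i) hi
        rw [Fin.append_left] at this
        exact this
      · have hne : p ∉ PP₁ := fun h' => (Finset.disjoint_left.1 hd) h' (hm₂ p hp)
        beta_reduce
        rw [if_neg hne]
        refine h2.1 ?_ p hp
        intro i hi
        have := h (Fin.natAdd _ i) hi
        rw [Fin.append_right] at this
        exact this
    · intro h i
      have h3 : ∀ i, (fstc D) i ≠ none → Pool.Agent.H474R2.PG.colh PP₁ hit a i = (fstc D) i := by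
        apply h1.2
        intro p hp
        have := h p (Finset.mem_union_left _ hp)
        beta_reduce at this
        rwa [if_pos (hm₁ p hp)] at this
      have h4 : ∀ i, (sndc D) i ≠ none → Pool.Agent.H474R2.PG.colh PP₂ hit a i = (sndc D) i := by
        apply h2.2
        intro p hp
        have := h p (Finset.mem_union_right _ hp)
        have hne : p ∉ PP₁ := fun h' => (Finset.disjoint_left.1 hd) h' (hm₂ p hp)
        beta_reduce at this
        rwa [if_neg hne] at this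
      refine Fin.addCases (fun j hj => ?_) (fun j hj => ?_) i
      · rw [Fin.append_left]
        exact h3 j hj
      · rw [Fin.append_right]
        exact h4 j hj

theorem coverP (r : ℕ → ℕ) (dd : ℝ) (hdd : 1 ≤ dd) (E : Finset ℕ)
    (w y z K Q δ η s CB G₂ v₀ m τ Λ S₁ S₂ R₂ ρ₁ N Err : ℝ) (J m₀ rr : ℕ) (hJ : Even J)
    (hm₀ : m₀ ≤ J)
    (hrd : ∀ p : ℕ, p.Prime → w < (p:ℝ) → (r p : ℝ) ≤ dd)
    (hw2 : 2 ≤ w) (hwy : w ≤ y) (hyz : y ≤ z)
    (hy9 : 9 * dd ≤ y) (hz1 : 1 < z) (hQ : 1 ≤ Q) (hη0 : 0 < η) (hη1 : η ≤ 1) (hs : 1 ≤ s)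
    (hG₂ : ∑ i, (r (emb (PE r y z E) i) : ℝ) / ((emb (PE r y z E) i : ℕ) : ℝ) ≤ G₂)
    (hH : ∃ h, HypS (fun i => ((emb (PE r y z E) i : ℕ) : ℝ))
      (fun i => (r (emb (PE r y z E) i) : ℝ) / ((emb (PE r y z E) i : ℕ) : ℝ)) h z K v₀ ∧
      ∀ s, h s ≠ 0 → s.card ≤ m₀)
    (hδ : 2 * (dd * (Real.log Q / Real.log y)) / y ≤ δ)
    (κ : Type) [Fintype κ] [DecidableEq κ] [Nonempty κ] (u : ℝ) (hu : (Fintype.card κ : ℝ) = u)
    (hτ0 : 0 ≤ τ) (hτ1 : τ ≤ 1) (hΛ : 1 ≤ Λ) (hS₁ : 1 ≤ S₁) (hS₂ : 1 ≤ S₂)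
    (hρ : rho (fun i => (r (emb (PE r w y E) i) : ℝ) / ((emb (PE r w y E) i : ℕ) : ℝ)) 1 ≤ ρ₁)
    (hK0 : 0 ≤ K)
    (hR : ∃ R : κ → Col (PE r w y E).card κ → ℝ,
      BHyp (fun i => (r (emb (PE r w y E) i) : ℝ) / ((emb (PE r w y E) i : ℕ) : ℝ)) R m τ ∧
      ∀ k, Lc dd S₁ Λ (R k))
    (hS₂b : Real.exp (Real.log dd * (Real.log Q / Real.log y)) ≤ S₂)
    (hr : Real.log Q / v₀ ≤ rr) (hrm : (rr:ℝ) + 1 ≤ m) (hR₂ : 1 ≤ R₂)
    (huw : 2 * (dd * u) ≤ w) (huy : dd * u ≤ y) (huδ : u * δ ≤ 1 / 4) (hv₀ : 0 < v₀)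
    (hCB : Q ^ s * Real.exp (2 * u * (y ^ (1 - s) * G₂)) ≤ CB)
    (hE8 : Real.exp (η * ((1 + η) * u * (ρ₁ * K) / Real.log z -
      Real.log (Q / z) / Real.log z)) ≤ 1 / 8)
    (htail : 4 * (u * ρ₁) * (τ + (δ ^ 2 +
      Real.exp (η * ((1 + η) * u * (ρ₁ * K) / Real.log z -
      Real.log (Q / z) / Real.log z)))) ≤ 1 / 12)
    (hmom : 2 * (u * ρ₁) * ((1 / 3) ^ J * Real.exp (20 * G₂)) ≤ 1 / 12)
    (hpen : 2 * (u * ρ₁) * Real.exp (20 * G₂) ≤ R₂ / 12)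
    (hit : ℕ → ℤ → κ → Prop)
    (huniq : ∀ p : ℕ, p.Prime → w < (p:ℝ) → (p : ℝ) ≤ z → p ∉ E → ∀ a k l,
      hit p a k → hit p a l → k = l)
    (𝒜 : Finset ℤ) (hN : 0 < N) (hErr : 0 ≤ Err)
    (hcnt : ∀ (T : Finset ℕ) (t : ℕ → κ), (∀ p ∈ T, p.Prime ∧ w < (p:ℝ) ∧ (p:ℝ) ≤ z ∧ p ∉ E) →
      dd ^ T.card ≤ (S₁ ^ rr * S₂) ^ 2 * (S₁ * dd ^ J) →
      |((𝒜.filter (fun a => ∀ p ∈ T, hit p a (t p))).card : ℝ) -
        N * ∏ p ∈ T, (r p : ℝ) / (p : ℝ)| ≤ Err)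
    (hfin : Err * ((Λ ^ rr * CB) ^ 2 * (1 + u * (Λ * (z ^ J + 1)))) < N / 8) :
    3 / 8 * N ≤ ((𝒜.filter (fun x : ℤ => ∀ k : κ, ∃ p : ℕ, p.Prime ∧ w < p ∧
      (p : ℝ) ≤ z ∧ hit p x k)).card : ℝ) *
      (3 * (1 + 3 * Real.exp G₂ * ((J : ℝ) + 2) ^ (2 * J) * (R₂ + 1)) ^ rr) ^ 2 := by
  obtain ⟨h, H, hcard⟩ := hH
  have hzpos : 0 < z := zero_lt_one.trans hz1
  have hu0 : 0 ≤ u := by rw [← hu]; positivity
  have hy0 : 0 < y := by linarith
  have hw0 : 0 < w := by linarith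
  have hlogy : 0 < Real.log y := Real.log_pos (by linarith)
  set PP₁ : Finset ℕ := PE r w y E with hPP₁
  set PP₂ : Finset ℕ := PE r y z E with hPP₂
  set g₁ : Fin PP₁.card → ℝ := fun i => (r (emb PP₁ i) : ℝ) / ((emb PP₁ i : ℕ) : ℝ) with hg₁
  set g₂ : Fin PP₂.card → ℝ := fun i => (r (emb PP₂ i) : ℝ) / ((emb PP₂ i : ℕ) : ℝ) with hg₂
  obtain ⟨R, HR, hRL⟩ := hR
  have hm₁ : ∀ p ∈ PP₁, p.Prime ∧ w < (p:ℝ) ∧ (p:ℝ) ≤ y ∧ r p ≠ 0 ∧ p ∉ E :=
    fun p hp => PE_mem hy0.le hp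
  have hm₂ : ∀ p ∈ PP₂, p.Prime ∧ y < (p:ℝ) ∧ (p:ℝ) ≤ z ∧ r p ≠ 0 ∧ p ∉ E :=
    fun p hp => PE_mem hzpos.le hp
  have hd : Disjoint PP₁ PP₂ := by
    rw [Finset.disjoint_left]
    intro p hp hp'
    have h1 := (hm₁ p hp).2.2.1
    have h2 := (hm₂ p hp').2.1
    linarith
  have hinj₁ : ∀ p ∈ PP₁, ∀ a k l, hit p a k → hit p a l → k = l := by
    intro p hp
    obtain ⟨h1, h2, h3, -, h5⟩ := hm₁ p hp
    exact huniq p h1 h2 (h3.trans hyz) h5
  have hinj₂ : ∀ p ∈ PP₂, ∀ a k l, hit p a k → hit p a l → k = l := by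
    intro p hp
    obtain ⟨h1, h2, h3, -, h5⟩ := hm₂ p hp
    exact huniq p h1 (lt_of_le_of_lt hwy h2) h3 h5
  have hPw : ∀ i, w < ((emb PP₁ i : ℕ) : ℝ) := fun i => (hm₁ _ (emb_mem PP₁ i)).2.1
  have hP₁0 : ∀ i, 0 < ((emb PP₁ i : ℕ) : ℝ) := fun i => hw0.trans (hPw i)
  have hPy : ∀ i, y < ((emb PP₂ i : ℕ) : ℝ) := fun i => (hm₂ _ (emb_mem PP₂ i)).2.1
  have hP0 : ∀ i, 0 < ((emb PP₂ i : ℕ) : ℝ) := fun i => hy0.trans (hPy i)
  have hr₁ : ∀ i, (r (emb PP₁ i) : ℝ) ≤ dd := fun i =>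
    hrd _ (hm₁ _ (emb_mem PP₁ i)).1 (hPw i)
  have hr₂ : ∀ i, (r (emb PP₂ i) : ℝ) ≤ dd := fun i =>
    hrd _ (hm₂ _ (emb_mem PP₂ i)).1 (lt_of_le_of_lt hwy (hPy i))
  have hr₂1 : ∀ i, (1:ℝ) ≤ (r (emb PP₂ i) : ℝ) := fun i => by
    exact_mod_cast Nat.one_le_iff_ne_zero.2 (hm₂ _ (emb_mem PP₂ i)).2.2.2.1
  have hg₁0 : ∀ i, 0 ≤ g₁ i := fun i => div_nonneg (Nat.cast_nonneg _) (hP₁0 i).le
  have hg₂0 : ∀ i, 0 ≤ g₂ i := fun i => div_nonneg (Nat.cast_nonneg _) (hP0 i).le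
  have hgy : ∀ i, g₂ i ≤ dd * (1 / y) := fun i => by
    simp only [hg₂]
    rw [mul_one_div]
    exact div_le_div₀ (by linarith) (hr₂ i) hy0 (hPy i).le
  have h9 : dd * (1 / y) ≤ 1 / 9 := by
    rw [mul_one_div, div_le_div_iff₀ hy0 (by norm_num)]
    linarith
  have hG0 : 0 ≤ ∑ i, g₂ i := Finset.sum_nonneg fun i _ => hg₂0 i
  have hG₂0 : 0 ≤ G₂ := hG0.trans hG₂
  -- sizes of supports
  have hsuppc : ∀ D : Col PP₂.card κ, qq (fun i => ((emb PP₂ i : ℕ) : ℝ)) D ≤ Q →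
      ((Pool.Agent.H256R2.SC.supp D).card : ℝ) ≤ Real.log Q / Real.log y := by
    intro D hD
    have h1 : Real.exp (((Pool.Agent.H256R2.SC.supp D).card : ℝ) * Real.log y) ≤
        qq (fun i => ((emb PP₂ i : ℕ) : ℝ)) D := by
      unfold qq
      rw [prod_nu1]
      have : Real.exp (((Pool.Agent.H256R2.SC.supp D).card : ℝ) * Real.log y) =
          ∏ i ∈ Pool.Agent.H256R2.SC.supp D, Real.exp (Real.log y) := by
        rw [Finset.prod_const, ← Real.exp_nat_mul]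
      rw [this]
      apply Finset.prod_le_prod
      · intro i _; exact (Real.exp_pos _).le
      · intro i _
        rw [Real.exp_log hy0]
        exact (hPy i).le
    have h2 := h1.trans hD
    have h3 : ((Pool.Agent.H256R2.SC.supp D).card : ℝ) * Real.log y ≤ Real.log Q := by
      rw [Real.le_log_iff_exp_le (by linarith)]
      exact h2
    rw [le_div_iff₀ hlogy]
    exact h3
  have hsupp : ∀ D : Col PP₂.card κ, qq (fun i => ((emb PP₂ i : ℕ) : ℝ)) D ≤ Q →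
      2 * ∑ i with D i ≠ none, g₂ i ≤ δ := by
    intro D hD
    have h4 := hsuppc D hD
    have h5 : ∑ i with D i ≠ none, g₂ i ≤
        (Pool.Agent.H256R2.SC.supp D).card * (dd * (1 / y)) := by
      have : ∑ i ∈ Pool.Agent.H256R2.SC.supp D, g₂ i ≤
          ∑ i ∈ Pool.Agent.H256R2.SC.supp D, (dd * (1 / y)) :=
        Finset.sum_le_sum (fun i _ => hgy i)
      rw [Finset.sum_const, nsmul_eq_mul] at this
      exact this
    refine le_trans ?_ hδ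
    calc 2 * ∑ i with D i ≠ none, g₂ i ≤
          2 * ((Pool.Agent.H256R2.SC.supp D).card * (dd * (1 / y))) :=
          mul_le_mul_of_nonneg_left h5 (by norm_num)
      _ ≤ 2 * (Real.log Q / Real.log y * (dd * (1 / y))) := by
          apply mul_le_mul_of_nonneg_left _ (by norm_num)
          exact mul_le_mul_of_nonneg_right h4 (by positivity)
      _ = 2 * (dd * (Real.log Q / Real.log y)) / y := by ring
  have hS₂c : ∀ D : Col PP₂.card κ, qq (fun i => ((emb PP₂ i : ℕ) : ℝ)) D ≤ Q →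
      qq (fun _ => dd) D ≤ S₂ := by
    intro D hD
    refine le_trans ?_ hS₂b
    rw [qqc_eq]
    have h4 := hsuppc D hD
    have h5 : dd ^ (Pool.Agent.H256R2.SC.supp D).card =
        Real.exp (Real.log dd * ((Pool.Agent.H256R2.SC.supp D).card : ℝ)) := by
      rw [mul_comm, Real.exp_nat_mul, Real.exp_log (by linarith)]
    rw [h5]
    apply Real.exp_le_exp.2
    exact mul_le_mul_of_nonneg_left h4 (Real.log_nonneg hdd)
  -- the count
  have hz0 : (1:ℝ) ≤ z ^ J := one_le_pow₀ hz1.le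
  have hevent : ∀ D : Col (PP₁.card + PP₂.card) κ,
      qq (fun _ => dd) D ≤ (S₁ ^ rr * S₂) ^ 2 * (S₁ * dd ^ J) →
      |(((𝒜.filter (fun a => ∀ i, D i ≠ none →
        (Fin.append (Pool.Agent.H474R2.PG.colh PP₁ hit a) (Pool.Agent.H474R2.PG.colh PP₂ hit a) :
          Col (PP₁.card + PP₂.card) κ) i = D i)).card : ℕ) : ℝ) -
        N * nu (Fin.append g₁ g₂) D| ≤ Err := by
    intro D hD
    obtain ⟨T, t, h1, h2, h3, h4⟩ := event_hit hd hinj₁ hinj₂ r dd D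
    have h5 := hcnt T t (by
      intro p hp
      rcases h1 p hp with h | h
      · obtain ⟨e1, e2, e3, -, e5⟩ := hm₁ p h
        exact ⟨e1, e2, e3.trans hyz, e5⟩
      · obtain ⟨e1, e2, e3, -, e5⟩ := hm₂ p h
        exact ⟨e1, lt_of_le_of_lt hwy e2, e3, e5⟩) (by rw [h2]; exact hD)
    rw [h3] at h5
    have h6 : (𝒜.filter (fun a => ∀ i, D i ≠ none →
        (Fin.append (Pool.Agent.H474R2.PG.colh PP₁ hit a) (Pool.Agent.H474R2.PG.colh PP₂ hit a) :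
          Col (PP₁.card + PP₂.card) κ) i = D i)) =
        𝒜.filter (fun a => ∀ p ∈ T, hit p a (t p)) := by
      apply Finset.filter_congr
      intro a _
      exact h4 a
    rw [h6]
    exact h5
  have hn2 : (PP₂.card:ℝ) + 1 ≤ z := by
    have h1 : PP₂.card ≤ (PS y z ∅).card := Finset.card_le_card (PE_sub hzpos.le)
    have h2 := card_PS y z hz1.le
    have h3 : (PP₂.card : ℝ) ≤ (PS y z ∅).card := by exact_mod_cast h1
    linarith
  have c1 : ∀ i, g₂ i ≤ 1 := fun i => (hgy i).trans (by linarith)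
  have c2 : ∀ i, 3 * 3 * g₂ i ≤ 1 := fun i => by
    have := hgy i
    linarith
  have c3 : ∀ i, (Fintype.card κ : ℝ) * g₂ i ≤ 1 := fun i => by
    rw [hu]
    simp only [hg₂]
    rw [← mul_div_assoc, div_le_one (hP0 i)]
    have e1 : u * (r (emb PP₂ i) : ℝ) ≤ u * dd := mul_le_mul_of_nonneg_left (hr₂ i) hu0
    have := (hPy i).le
    linarith
  have c3' : ∀ i, (Fintype.card κ : ℝ) * g₁ i ≤ 1 / 2 := fun i => by
    rw [hu]
    simp only [hg₁]
    rw [← mul_div_assoc, div_le_div_iff₀ (hP₁0 i) (by norm_num)]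
    have e1 : u * (r (emb PP₁ i) : ℝ) ≤ u * dd := mul_le_mul_of_nonneg_left (hr₁ i) hu0
    have := (hPw i).le
    linarith
  have c4 : Q ^ s * Real.exp (2 * (Fintype.card κ : ℝ) *
      ∑ i, 1 / ((emb PP₂ i : ℕ) : ℝ) ^ s) ≤ CB := by
    refine le_trans ?_ hCB
    apply mul_le_mul_of_nonneg_left _ (Real.rpow_nonneg (by linarith) _)
    apply Real.exp_le_exp.2
    rw [hu]
    apply mul_le_mul_of_nonneg_left _ (by positivity)
    calc ∑ i, 1 / ((emb PP₂ i : ℕ) : ℝ) ^ s ≤ ∑ i, y ^ (1 - s) * g₂ i := by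
          apply Finset.sum_le_sum
          intro i _
          have e1 : 1 / ((emb PP₂ i : ℕ) : ℝ) ^ s = ((emb PP₂ i : ℕ) : ℝ) ^ (1 - s) *
              (1 / ((emb PP₂ i : ℕ) : ℝ)) := by
            rw [Real.rpow_sub (hP0 i), Real.rpow_one]
            have := (hP0 i).ne'
            field_simp
          rw [e1]
          have e2 : 1 / ((emb PP₂ i : ℕ) : ℝ) ≤ g₂ i := by
            simp only [hg₂]
            exact div_le_div_of_nonneg_right (hr₂1 i) (hP0 i).le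
          apply mul_le_mul _ e2 (by positivity) (Real.rpow_nonneg hy0.le _)
          exact Real.rpow_le_rpow_of_nonpos hy0 (hPy i).le (by linarith)
      _ = y ^ (1 - s) * ∑ i, g₂ i := by rw [Finset.mul_sum]
      _ ≤ y ^ (1 - s) * G₂ := mul_le_mul_of_nonneg_left hG₂ (Real.rpow_nonneg hy0.le _)
  have c9 : 0 ≤ rho g₁ 1 := by
    unfold rho
    apply Finset.prod_nonneg
    intro i _
    have h1 := c3' i
    have h2 : (1:ℝ) ≤ (Fintype.card κ : ℝ) := by exact_mod_cast Fintype.card_pos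
    have h3 := hg₁0 i
    push_cast
    nlinarith
  have hρ₁0 : 0 ≤ ρ₁ := c9.trans hρ
  have hρ0 : 0 ≤ u * ρ₁ := by positivity
  have huρ : u * rho g₁ 1 ≤ u * ρ₁ := mul_le_mul_of_nonneg_left hρ hu0
  have hG20 : Real.exp (20 * ∑ i, g₂ i) ≤ Real.exp (20 * G₂) := by
    apply Real.exp_le_exp.2
    linarith
  have c5 : 2 * ((Fintype.card κ : ℝ) * rho g₁ 1) *
      ((1 / 3) ^ J * Real.exp (20 * ∑ i, g₂ i)) ≤ 1 / 12 := by
    refine le_trans ?_ hmom
    rw [hu]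
    apply mul_le_mul (by linarith) _ (by positivity) (by positivity)
    exact mul_le_mul_of_nonneg_left hG20 (by positivity)
  have c5' : 2 * ((Fintype.card κ : ℝ) * rho g₁ 1) *
      Real.exp (20 * ∑ i, g₂ i) ≤ R₂ / 12 := by
    refine le_trans ?_ hpen
    rw [hu]
    exact mul_le_mul (by linarith) hG20 (by positivity) (by positivity)
  have hlogQ : 0 ≤ Real.log Q := Real.log_nonneg hQ
  have hn0 : (0:ℝ) ≤ (PP₂.card:ℝ) + 1 := by positivity
  have hCB0 : 0 ≤ CB := le_trans (by positivity) c4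
  have c6 : Err * ((Λ ^ rr * CB) ^ 2 *
      (1 + Fintype.card κ * (Λ * (((PP₂.card:ℝ) + 1) ^ J + 1)))) < N / 8 := by
    refine lt_of_le_of_lt ?_ hfin
    rw [hu]
    have e3 := pow_le_pow_left₀ hn0 hn2 J
    have e4 : Λ * (((PP₂.card:ℝ) + 1) ^ J + 1) ≤ Λ * (z ^ J + 1) :=
      mul_le_mul_of_nonneg_left (by linarith) (by linarith)
    have e5 := mul_le_mul_of_nonneg_left e4 hu0
    apply mul_le_mul_of_nonneg_left _ hErr
    apply mul_le_mul_of_nonneg_left (by linarith) (by positivity)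
  have hlogz : 0 < Real.log z := Real.log_pos hz1
  have hexp : Real.exp (η * ((1 + η) * (Fintype.card κ : ℝ) *
      (rho g₁ 1 * K) / Real.log z -
        Real.log (Q / z) / Real.log z)) ≤
      Real.exp (η * ((1 + η) * u * (ρ₁ * K) / Real.log z - Real.log (Q / z) / Real.log z)) := by
    rw [hu]
    apply Real.exp_le_exp.2
    apply mul_le_mul_of_nonneg_left _ hη0.le
    apply sub_le_sub_right
    apply div_le_div_of_nonneg_right _ hlogz.le
    have e1 : rho g₁ 1 * K ≤ ρ₁ * K :=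
      mul_le_mul_of_nonneg_right hρ hK0
    exact mul_le_mul_of_nonneg_left e1 (by positivity)
  have c7 : 4 * ((Fintype.card κ : ℝ) * rho g₁ 1) * (τ + (δ ^ 2 +
      Real.exp (η * ((1 + η) * (Fintype.card κ : ℝ) *
      (rho g₁ 1 * K) / Real.log z -
        Real.log (Q / z) / Real.log z)))) ≤ 1 / 12 := by
    refine le_trans ?_ htail
    have e1 : 0 ≤ (Fintype.card κ : ℝ) * rho g₁ 1 :=
      mul_nonneg (Nat.cast_nonneg _) c9
    apply mul_le_mul _ (by linarith) (by positivity) (by positivity)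
    rw [hu]
    linarith
  have c7' : Real.exp (η * ((1 + η) * (Fintype.card κ : ℝ) *
      (rho g₁ 1 * K) / Real.log z -
        Real.log (Q / z) / Real.log z)) ≤ 1 / 8 := hexp.trans hE8
  have c8 : (Fintype.card κ : ℝ) * δ ≤ 1 / 4 := by rw [hu]; exact huδ
  have hmain := coreP (κ := κ) 𝒜
    (fun a => (Fin.append (Pool.Agent.H474R2.PG.colh PP₁ hit a)
      (Pool.Agent.H474R2.PG.colh PP₂ hit a) : Col (PP₁.card + PP₂.card) κ))
    H g₁ R m τ HR hτ0 hτ1 dd S₁ S₂ Λ hdd hS₁ hS₂ hΛ hRL Q δ N Err η s CB R₂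
    J m₀ rr hJ hm₀ hN hErr
    hQ hη0 hη1 (by linarith) hg₁0 c3' c9 c1 c2 c3 hsupp c8
    hr hrm hR₂ hcard c4 c7' c7 c5 c5' hS₂c hevent c6
  refine hmain.trans ?_
  have hA1 : ((𝒜.filter (fun a => ∀ k, ∃ i,
      (Fin.append (Pool.Agent.H474R2.PG.colh PP₁ hit a)
        (Pool.Agent.H474R2.PG.colh PP₂ hit a) : Col (PP₁.card + PP₂.card) κ) i =
        some k)).card : ℝ) ≤
      ((𝒜.filter (fun x : ℤ => ∀ k : κ, ∃ p : ℕ, p.Prime ∧ w < p ∧
      (p : ℝ) ≤ z ∧ hit p x k)).card : ℝ) := by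
    have : (𝒜.filter (fun a => ∀ k, ∃ i,
      (Fin.append (Pool.Agent.H474R2.PG.colh PP₁ hit a)
        (Pool.Agent.H474R2.PG.colh PP₂ hit a) : Col (PP₁.card + PP₂.card) κ) i =
        some k)).card ≤
      (𝒜.filter (fun x : ℤ => ∀ k : κ, ∃ p : ℕ, p.Prime ∧ w < p ∧
      (p : ℝ) ≤ z ∧ hit p x k)).card := by
      apply Finset.card_le_card
      intro a ha
      rw [Finset.mem_filter] at ha ⊢
      refine ⟨ha.1, fun k => ?_⟩
      obtain ⟨i, hi⟩ := ha.2 k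
      revert hi
      refine Fin.addCases (fun j hj => ?_) (fun j hj => ?_) i
      · rw [Fin.append_left] at hj
        have h1 := (Pool.Agent.H474R2.PG.colh_eq hinj₁ a j k).mp hj
        have h2 := hm₁ _ (emb_mem PP₁ j)
        exact ⟨emb PP₁ j, h2.1, h2.2.1, h2.2.2.1.trans hyz, h1⟩
      · rw [Fin.append_right] at hj
        have h1 := (Pool.Agent.H474R2.PG.colh_eq hinj₂ a j k).mp hj
        have h2 := hm₂ _ (emb_mem PP₂ j)
        exact ⟨emb PP₂ j, h2.1, lt_of_le_of_lt hwy h2.2.1, h2.2.2.1, h1⟩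
    exact_mod_cast this
  apply mul_le_mul hA1 _ (by positivity) (Nat.cast_nonneg _)
  have hR20 : 0 ≤ R₂ + 1 := by linarith
  apply pow_le_pow_left₀ (by positivity)
  apply mul_le_mul_of_nonneg_left _ (by norm_num)
  apply pow_le_pow_left₀ (by positivity)
  have h5 : Real.exp (∑ i, g₂ i) ≤ Real.exp G₂ := Real.exp_le_exp.2 hG₂
  have h6 : 0 ≤ ((J : ℝ) + 2) ^ (2 * J) * (R₂ + 1) := by positivity
  have h7 := mul_le_mul_of_nonneg_right h5 h6
  linarith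

end Pool.Agent.L5helper45.PT
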