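import Pool.Agent.L5helper45.PT.CovT

set_option autoImplicit false
set_option linter.unusedSectionVars false
set_option linter.unusedVariables false
set_option maxHeartbeats 4000000

/-! # The covering theorem with the parameters inserted -/

namespace Pool.Agent.L5helper45.PT

open Finset Filter Pool.Agent.H256R2.SC Pool.Agent.Y831.RC
open Pool.Agent.H474R2.PG (Sg)

open scoped Classical

theorem coverT (r : ℕ → ℕ) (d Bd : ℕ) (hd : 1 ≤ d) (hr : ∀ p : ℕ, p.Prime → Bd < p → r p ≤ d)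
    (C : ℝ) (hC : 0 ≤ C) (hM : ∀ w : ℝ, 3 ≤ w → |Sg r w - Real.log (Real.log w)| ≤ C)
    (c₂ Z₀ : ℝ) (hc₂ : 0 < c₂)
    (hRL : ∀ y z x : ℝ, Z₀ ≤ y → y ≤ x → x ≤ z →
      c₂ * Real.log x * Real.exp (-(Sg r y)) - 1 ≤
        ∑ s ∈ ((Pool.Agent.H474R2.PG.PS r y z).powerset.filter
            (fun s : Finset ℕ => s.Nonempty ∧ ∏ p ∈ s, (p : ℝ) ≤ x)),
          ∏ p ∈ s, (r p : ℝ) / (p : ℝ))
    (A : ℕ) (hA : 3 ≤ A) :
    ∃ c : ℝ, 0 < c ∧ ∃ e₀ L₀ : ℝ, ∀ e L : ℝ, e₀ ≤ e → L₀ ≤ L → 3 * e ≤ Real.log L →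
      ∀ E : Finset ℕ, (E.card : ℝ) * L ≤ L ^ A →
      ∀ (κ : Type) [Fintype κ] [DecidableEq κ] [Nonempty κ],
        (Fintype.card κ : ℝ) ≤ c * L * e * Real.exp (-(Sg r (L / 100))) →
        (Fintype.card κ : ℝ) ≤ L ^ 2 →
      ∀ hit : ℕ → ℤ → κ → Prop, (∀ p : ℕ, p.Prime → L ^ A < (p:ℝ) →
        (p:ℝ) ≤ Real.exp (L / (2000 * e)) → p ∉ E → ∀ a k l, hit p a k → hit p a l → k = l) →
      ∀ (𝒜 : Finset ℤ) (N : ℝ), Real.exp (9 / 10 * L) ≤ N →
        (∀ (T : Finset ℕ) (t : ℕ → κ), (∀ p ∈ T, p.Prime ∧ L ^ A < (p:ℝ)) →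
          |((𝒜.filter (fun a => ∀ p ∈ T, hit p a (t p))).card : ℝ) -
            N * ∏ p ∈ T, (r p : ℝ) / (p : ℝ)| ≤ (d:ℝ) ^ T.card) →
        3 / 8 * N ≤ ((𝒜.filter (fun x : ℤ => ∀ k : κ, ∃ p : ℕ, p.Prime ∧ L ^ A < (p:ℝ) ∧
          (p : ℝ) ≤ Real.exp (L / (2000 * e)) ∧ hit p x k)).card : ℝ) *
          Real.exp (e ^ 2 * Real.exp e) := by
  have hdR : (1:ℝ) ≤ d := by exact_mod_cast hd
  have hAR : (3:ℝ) ≤ A := by exact_mod_cast hA
  have hA0 : (0:ℝ) < A := by linarith
  set c : ℝ := c₂ * Real.exp (-(2 * C)) / (2560 * A) with hc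
  have hc0 : 0 < c := by positivity
  set K₁ : ℝ := 4 * c * A * Real.exp (3 * C) with hK₁
  obtain ⟨e₀, hE⟩ := evE C c₂ K₁ hc₂
  set KK : ℝ := 2 * d * Real.exp C / c₂ + 9 * d + 4 with hKK
  obtain ⟨L₀, hLL⟩ := evL A d Bd KK Z₀
  refine ⟨c, hc0, e₀, L₀, ?_⟩
  intro e L he hL heL E hEc κ _ _ _ hu1 hu2 hit huniq 𝒜 N hN hcnt
  obtain ⟨a1, a2, a3, a4, a5, a6, a7, a8⟩ := hE e he
  obtain ⟨b1, b2, b3, b4, b5, b6, b7⟩ := hLL L hL
  have hL0 : 0 < L := by linarith
  have he0 : 0 < e := by linarith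
  set l : ℝ := Real.log L with hl
  set ld : ℝ := Real.log d with hld
  have hld0 : 0 ≤ ld := Real.log_nonneg hdR
  have hl300 : 300 ≤ l := by linarith
  have hl0 : 0 < l := by linarith
  set T : ℝ := Real.exp e with hT
  have hT0 : 0 < T := Real.exp_pos e
  have hT2 : 200000 ≤ T := by linarith
  set sq : ℝ := Real.sqrt L with hsq
  have hsq0 : 0 ≤ sq := Real.sqrt_nonneg L
  have hsq2 : sq * sq = L := Real.mul_self_sqrt hL0.le
  have hsq100 : 100 ≤ sq := by
    rw [hsq]
    apply Real.le_sqrt_of_sq_le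
    linarith
  have hsqL : sq ≤ L / 100 := by nlinarith only [hsq2, hsq100]
  have b4' : 10 ^ 4 * l ^ 2 ≤ L ^ (1 / 6 : ℝ) := by
    refine le_trans ?_ b4
    have := sq_nonneg l
    nlinarith only [mul_nonneg hld0 this]
  obtain ⟨s1, s2, s3, s4⟩ := sizes e L a1 b1 heL b4'
  have he2 : (1:ℝ) ≤ e ^ 2 := one_le_pow₀ (by linarith)
  have hTe0 : 0 < T * e ^ 2 := by positivity
  have hu0 : (0:ℝ) ≤ (Fintype.card κ : ℝ) := Nat.cast_nonneg _
  set u : ℝ := (Fintype.card κ : ℝ) with hu
  -- the parameters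
  set w : ℝ := L ^ A with hw
  set y : ℝ := Real.exp (L / (T * e ^ 2)) with hy
  set z : ℝ := Real.exp (L / (2000 * e)) with hz
  have hlogy : Real.log y = L / (T * e ^ 2) := Real.log_exp _
  have hlogz : Real.log z = L / (2000 * e) := Real.log_exp _
  have hy0 : 0 < y := Real.exp_pos _
  have hz0 : 0 < z := Real.exp_pos _
  have hesq : Real.exp sq ≤ y := Real.exp_le_exp.2 s3
  have hlogw : Real.log w = A * l := by rw [hw, Real.log_pow]
  have hw0 : 0 < w := by positivity
  have hwy : w ≤ y := by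
    refine le_trans ?_ hesq
    rw [← Real.log_le_iff_le_exp hw0, hlogw]
    exact b7
  have hL3w : L ^ 3 ≤ w := pow_le_pow_right₀ (by linarith) hA
  have hLw : L ≤ w := (le_self_pow₀ (by linarith) (by norm_num)).trans hL3w
  have hw3 : 3 ≤ w := by linarith
  have hyz : y ≤ z := by
    apply Real.exp_le_exp.2
    apply div_le_div_of_nonneg_left hL0.le (by positivity)
    calc 2000 * e ≤ T * e := mul_le_mul_of_nonneg_right (by linarith only [hT2]) he0.le
      _ ≤ T * (e * e) := by
          apply mul_le_mul_of_nonneg_left _ hT0.le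
          nlinarith only [he0, a1]
      _ = T * e ^ 2 := by ring
  have hy3 : 3 ≤ y := hw3.trans hwy
  have hyZ : Z₀ ≤ y := b6.trans hesq
  have hlogy0 : 0 < Real.log y := Real.log_pos (by linarith)
  have hlogz0 : 0 < Real.log z := Real.log_pos (by linarith)
  have hrd : ∀ p : ℕ, p.Prime → w < (p:ℝ) → (r p : ℝ) ≤ d := by
    intro p hp hpw
    have h1 : Bd < p := by
      have : (Bd:ℝ) < p := by linarith
      exact_mod_cast this
    exact_mod_cast hr p hp h1
  -- powers of `L` against `y`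
  have hLp : (1:ℝ) ≤ L := by linarith
  have hbig : ∀ (k : ℕ) (M : ℝ), k ≤ A + 3 → 0 ≤ M → M ≤ KK → M * L ^ k ≤ y := by
    intro k M hk hM0 hM
    refine le_trans ?_ (b5.trans hesq)
    exact mul_le_mul hM (pow_le_pow_right₀ hLp hk) (by positivity) (hM0.trans hM)
  have hKK1 : 2 * d * Real.exp C / c₂ ≤ KK := by rw [hKK]; linarith
  have hKK2 : 9 * (d:ℝ) + 4 ≤ KK := by
    rw [hKK]
    have : 0 ≤ 2 * d * Real.exp C / c₂ := by positivity
    linarith
  -- sums over primes
  have hx3 : (3:ℝ) ≤ L / 100 := by linarith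
  have hxw : L / 100 ≤ w := by linarith
  have hSwx : Real.exp (Sg r w - Sg r (L / 100)) ≤ 2 * A * Real.exp (2 * C) := by
    have h1 := (abs_le.1 (Sg_diff hM hx3 hxw)).2
    have h2 : l / 2 ≤ Real.log (L / 100) := by
      rw [Real.log_div hL0.ne' (by norm_num)]
      have h3 : Real.log ((10:ℝ) ^ 4) ≤ l := Real.log_le_log (by norm_num) b1
      have h4 : Real.log ((10:ℝ) ^ 4) = 2 * Real.log 100 := by
        rw [show (10:ℝ) ^ 4 = 100 ^ 2 by norm_num, Real.log_pow]
        norm_num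
      linarith
    have h3 : Real.log w / Real.log (L / 100) ≤ 2 * A := by
      rw [hlogw, div_le_iff₀ (by linarith)]
      nlinarith only [h2, hA0]
    have h4 : 0 < Real.log w / Real.log (L / 100) := by
      rw [hlogw]
      have : 0 < Real.log (L / 100) := by linarith
      positivity
    calc Real.exp (Sg r w - Sg r (L / 100)) ≤
          Real.exp (Real.log (Real.log w / Real.log (L / 100)) + 2 * C) :=
          Real.exp_le_exp.2 (by linarith)
      _ = Real.log w / Real.log (L / 100) * Real.exp (2 * C) := by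
          rw [Real.exp_add, Real.exp_log h4]
      _ ≤ _ := mul_le_mul_of_nonneg_right h3 (Real.exp_pos _).le
  have hSy : Real.exp (-(Sg r y)) ≤ Real.exp C / Real.log y := by
    have h1 := (abs_le.1 (hM y hy3)).1
    calc Real.exp (-(Sg r y)) ≤ Real.exp (C - Real.log (Real.log y)) :=
          Real.exp_le_exp.2 (by linarith)
      _ = _ := by rw [Real.exp_sub, Real.exp_log hlogy0]
  set ρ₁ : ℝ := 2 * Real.exp (-(Sg r y - Sg r w)) with hρ₁
  have hρ₁0 : 0 < ρ₁ := by positivity
  have hρw : u * ρ₁ ≤ c * L * e * (4 * A * Real.exp (2 * C)) * Real.exp (-(Sg r y)) := by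
    have h1 : u * ρ₁ ≤ (c * L * e * Real.exp (-(Sg r (L / 100)))) * ρ₁ :=
      mul_le_mul_of_nonneg_right hu1 hρ₁0.le
    refine h1.trans ?_
    have h2 : (c * L * e * Real.exp (-(Sg r (L / 100)))) * ρ₁ =
        c * L * e * (2 * Real.exp (Sg r w - Sg r (L / 100))) * Real.exp (-(Sg r y)) := by
      rw [hρ₁]
      have e1 : Real.exp (-(Sg r (L / 100))) * Real.exp (-(Sg r y - Sg r w)) =
          Real.exp (Sg r w - Sg r (L / 100)) * Real.exp (-(Sg r y)) := by
        rw [← Real.exp_add, ← Real.exp_add]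
        congr 1
        ring
      calc (c * L * e * Real.exp (-(Sg r (L / 100)))) * (2 * Real.exp (-(Sg r y - Sg r w))) =
            c * L * e * 2 * (Real.exp (-(Sg r (L / 100))) *
              Real.exp (-(Sg r y - Sg r w))) := by ring
        _ = _ := by rw [e1]; ring
    rw [h2]
    apply mul_le_mul_of_nonneg_right _ (Real.exp_pos _).le
    apply mul_le_mul_of_nonneg_left _ (by positivity)
    linarith
  have hlam : u * ρ₁ ≤ Real.exp (2 * e) := by
    refine hρw.trans ?_
    have h1 : c * L * e * (4 * A * Real.exp (2 * C)) * Real.exp (-(Sg r y)) ≤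
        c * L * e * (4 * A * Real.exp (2 * C)) * (Real.exp C / Real.log y) :=
      mul_le_mul_of_nonneg_left hSy (by positivity)
    refine h1.trans ?_
    have h2 : c * L * e * (4 * A * Real.exp (2 * C)) * (Real.exp C / Real.log y) =
        (K₁ * e ^ 3) * T := by
      rw [hlogy, hK₁]
      have e1 : Real.exp (3 * C) = Real.exp (2 * C) * Real.exp C := by
        rw [← Real.exp_add]; congr 1; ring
      rw [e1]
      field_simp
    rw [h2]
    have h3 : Real.exp (2 * e) = T * T := by rw [hT, ← Real.exp_add]; congr 1; ring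
    rw [h3]
    exact mul_le_mul_of_nonneg_right a5 hT0.le
  set K : ℝ := 8 * Real.exp (Sg r y) / (c₂ * e) with hK
  have hK0 : 0 ≤ K := by positivity
  have huρK : u * (ρ₁ * K) ≤ L / 80 := by
    have h1 : u * (ρ₁ * K) = (u * ρ₁) * K := by ring
    rw [h1]
    have h2 := mul_le_mul_of_nonneg_right hρw hK0
    refine h2.trans (le_of_eq ?_)
    rw [hK, hc]
    have e1 : Real.exp (-(Sg r y)) * Real.exp (Sg r y) = 1 := by rw [← Real.exp_add]; simp
    have e2 : Real.exp (-(2 * C)) * Real.exp (2 * C) = 1 := by rw [← Real.exp_add]; simp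
    calc c₂ * Real.exp (-(2 * C)) / (2560 * A) * L * e * (4 * A * Real.exp (2 * C)) *
          Real.exp (-(Sg r y)) * (8 * Real.exp (Sg r y) / (c₂ * e)) =
          (Real.exp (-(2 * C)) * Real.exp (2 * C)) * (Real.exp (-(Sg r y)) * Real.exp (Sg r y)) *
          (c₂ / (2560 * A) * L * e * (4 * A) * 8 / (c₂ * e)) := by ring
      _ = _ := by
          rw [e1, e2]
          field_simp
          norm_num
  -- natural numbers
  set J : ℕ := 2 * ⌈25 * e⌉₊ with hJ
  have hJ1 : 50 * e ≤ J := by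
    rw [hJ]; push_cast
    linarith [Nat.le_ceil (25 * e)]
  have hJ2 : (J:ℝ) ≤ 50 * e + 2 := by
    rw [hJ]; push_cast
    linarith [(Nat.ceil_lt_add_one (show 0 ≤ 25 * e by linarith)).le]
  set m₀ : ℕ := ⌈6 * e⌉₊ with hm₀
  have hm₀1 : 6 * e ≤ m₀ := Nat.le_ceil _
  have hm₀2 : (m₀:ℝ) ≤ 6 * e + 1 := (Nat.ceil_lt_add_one (show 0 ≤ 6 * e by linarith)).le
  have hm₀J : m₀ ≤ J := by
    have : (m₀:ℝ) ≤ J := by linarith
    exact_mod_cast this
  set rr : ℕ := ⌈T / 20⌉₊ with hrr
  have hrr1 : T / 20 ≤ rr := Nat.le_ceil _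
  have hrr2 : (rr:ℝ) ≤ T / 20 + 1 := (Nat.ceil_lt_add_one (show 0 ≤ T / 20 by positivity)).le
  set b₀ : ℕ := 2 * ⌈3 * e⌉₊ with hb₀
  have hb₀1 : 6 * e ≤ b₀ := by
    rw [hb₀]; push_cast
    linarith [Nat.le_ceil (3 * e)]
  have hb₀2 : (b₀:ℝ) ≤ 6 * e + 2 := by
    rw [hb₀]; push_cast
    linarith [(Nat.ceil_lt_add_one (show 0 ≤ 3 * e by linarith)).le]
  have hthird : ∀ n : ℕ, ((1:ℝ) / 3) ^ n ≤ Real.exp (-(n:ℝ)) := by
    intro n
    have h1 : (1:ℝ) / 3 ≤ Real.exp (-1) := by
      rw [Real.exp_neg, one_div]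
      apply inv_anti₀ (Real.exp_pos _)
      have := Real.exp_one_lt_d9
      linarith
    have h2 : Real.exp (-(n:ℝ)) = Real.exp (-1) ^ n := by
      rw [← Real.exp_nat_mul]; congr 1; ring
    rw [h2]
    exact pow_le_pow_left₀ (by norm_num) h1 n
  -- the first block
  have huw : 2 * ((d:ℝ) * u) ≤ w := by
    have h1 : (d:ℝ) * u ≤ d * L ^ 2 := mul_le_mul_of_nonneg_left hu2 (by linarith)
    have h2 : 2 * (d * L ^ 2) ≤ L ^ 3 := by
      have := mul_le_mul_of_nonneg_right b2 (show 0 ≤ L ^ 2 by positivity)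
      linarith only [this]
    linarith
  set τ : ℝ := Real.exp (-(3 * e)) with hτ
  have hτ1 : τ ≤ 1 := by
    rw [hτ, ← Real.exp_zero]
    exact Real.exp_le_exp.2 (by linarith)
  obtain hR := BHyp_PE r C hC hM (d:ℝ) hdR E w y hrd b₀ T τ κ hw3 hwy ⟨⌈3 * e⌉₊, by omega⟩
    (by rw [← hu]; exact huw) hT0.le hτ1 (by
      calc T * (1 / 3) ^ b₀ ≤ T * Real.exp (-(b₀:ℝ)) :=
            mul_le_mul_of_nonneg_left (hthird b₀) hT0.le
        _ = Real.exp (e - b₀) := by rw [hT, ← Real.exp_add]; congr 1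
        _ ≤ Real.exp (-(128 * (1 + 2 * C) + 2) + -(3 * e)) := Real.exp_le_exp.2 (by linarith)
        _ = _ := by rw [Real.exp_add])
  have hρ := rho_PE r (d:ℝ) E w y hw3 hwy hrd (by linarith) (by
    have h1 : ∑ p ∈ E.filter (fun p : ℕ => w < (p:ℝ)), 1 / (p:ℝ) ≤ E.card * (1 / w) := by
      calc ∑ p ∈ E.filter (fun p : ℕ => w < (p:ℝ)), 1 / (p:ℝ) ≤
            ∑ p ∈ E.filter (fun p : ℕ => w < (p:ℝ)), 1 / w := by
            apply Finset.sum_le_sum
            intro p hp
            exact one_div_le_one_div_of_le hw0 (Finset.mem_filter.1 hp).2.le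
        _ = (E.filter (fun p : ℕ => w < (p:ℝ))).card * (1 / w) := by
            rw [Finset.sum_const, nsmul_eq_mul]
        _ ≤ _ := by
            apply mul_le_mul_of_nonneg_right _ (by positivity)
            exact_mod_cast Finset.card_filter_le _ _
    have h2 : (d:ℝ) * (E.card * (1 / w)) ≤ 1 / 2 := by
      rw [mul_one_div, ← mul_div_assoc, div_le_div_iff₀ hw0 (by norm_num)]
      have h3 : 2 * (d:ℝ) * E.card ≤ L * E.card :=
        mul_le_mul_of_nonneg_right b2 (Nat.cast_nonneg _)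
      linarith
    exact (mul_le_mul_of_nonneg_left h1 (by linarith)).trans h2)
  -- the second block
  set v₀ : ℝ := L / T with hv₀
  have hv₀0 : 0 < v₀ := by positivity
  have hGsg : Sg r z - Sg r y ≤ 2 * e := by
    have h1 := (abs_le.1 (Sg_diff hM hy3 hyz)).2
    have h2 : Real.log (Real.log z / Real.log y) ≤ e + Real.log e := by
      rw [hlogz, hlogy]
      have h3 : L / (2000 * e) / (L / (T * e ^ 2)) = T * e / 2000 := by
        field_simp
      rw [h3, Real.log_div (by positivity) (by norm_num), Real.log_mul (by positivity) he0.ne',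
        hT, Real.log_exp]
      have : 0 ≤ Real.log (2000:ℝ) := Real.log_nonneg (by norm_num)
      linarith
    linarith
  have hH := profE r C hC hM c₂ Z₀ hc₂ hRL E y z v₀ e m₀ hy3 hyZ hyz
    (by rw [hv₀, hlogy]; field_simp)
    (by
      rw [hlogz, hv₀]
      exact div_le_div_of_nonneg_left hL0.le (by positivity) a8)
    (by
      rw [hlogz, hv₀]
      have h3 : L / (2000 * e) / (L / T) = T / (2000 * e) := by field_simp
      rw [h3, Real.log_div (by positivity) (by positivity), hT, Real.log_exp]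
      linarith) (by linarith) hGsg hm₀1 a4 (by
      have h1 : ∑ p ∈ (Pool.Agent.H474R2.PG.PS r y z).filter (fun p => p ∈ E),
          (r p : ℝ) / (p : ℝ) ≤ E.card * (d / y) := by
        calc ∑ p ∈ (Pool.Agent.H474R2.PG.PS r y z).filter (fun p => p ∈ E), (r p : ℝ) / (p : ℝ) ≤
              ∑ p ∈ (Pool.Agent.H474R2.PG.PS r y z).filter (fun p => p ∈ E), (d:ℝ) / y := by
              apply Finset.sum_le_sum
              intro p hp
              rw [Finset.mem_filter] at hp
              have h2 := hp.1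
              unfold Pool.Agent.H474R2.PG.PS at h2
              rw [Finset.mem_filter] at h2
              exact div_le_div₀ (by linarith) (hrd p (PR_prime h2.1) (by linarith [h2.2.1]))
                hy0 h2.2.1.le
          _ = ((Pool.Agent.H474R2.PG.PS r y z).filter (fun p => p ∈ E)).card * (d / y) := by
              rw [Finset.sum_const, nsmul_eq_mul]
          _ ≤ _ := by
              apply mul_le_mul_of_nonneg_right _ (by positivity)
              have h3 : (Pool.Agent.H474R2.PG.PS r y z).filter (fun p => p ∈ E) ⊆ E := by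
                intro p hp
                exact (Finset.mem_filter.1 hp).2
              exact_mod_cast Finset.card_le_card h3
      have h2 : Real.exp (2 * e) ≤ L := by
        rw [← Real.le_log_iff_exp_le hL0]
        linarith
      have h3 : (E.card:ℝ) ≤ L ^ A := by
        have : (E.card:ℝ) * 1 ≤ E.card * L := mul_le_mul_of_nonneg_left hLp (Nat.cast_nonneg _)
        linarith
      have h4 := hbig (A + 1) (2 * d * Real.exp C / c₂) (by omega) (by positivity) hKK1
      calc (∑ p ∈ (Pool.Agent.H474R2.PG.PS r y z).filter (fun p => p ∈ E),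
            (r p : ℝ) / (p : ℝ)) * Real.exp (2 * e) ≤ (L ^ A * (d / y)) * L := by
            apply mul_le_mul _ h2 (Real.exp_pos _).le (by positivity)
            exact h1.trans (mul_le_mul_of_nonneg_right h3 (by positivity))
        _ = (2 * d * Real.exp C / c₂ * L ^ (A + 1)) * (c₂ / 2 * Real.exp (-C)) / y := by
            have e1 : Real.exp C * Real.exp (-C) = 1 := by rw [← Real.exp_add]; simp
            have e2 : (2 * d * Real.exp C / c₂ * L ^ (A + 1)) * (c₂ / 2 * Real.exp (-C)) / y =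
                (Real.exp C * Real.exp (-C)) * (d * L ^ (A + 1) / y) * (c₂ / c₂) := by ring
            rw [e2, e1, div_self hc₂.ne']
            ring
        _ ≤ y * (c₂ / 2 * Real.exp (-C)) / y := by
            apply div_le_div_of_nonneg_right _ hy0.le
            exact mul_le_mul_of_nonneg_right h4 (by positivity)
        _ = c₂ / 2 * Real.exp (-C) := by field_simp
        _ ≤ c₂ / 2 * Real.exp (-C) * e ^ 2 := by
            have : 0 ≤ c₂ / 2 * Real.exp (-C) := by positivity
            nlinarith only [this, he2])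
  -- further parameters
  set Q : ℝ := Real.exp (L / 20) with hQ
  have hlogQ : Real.log Q = L / 20 := Real.log_exp _
  have hQy : Real.log Q / Real.log y = T * e ^ 2 / 20 := by
    rw [hlogQ, hlogy]
    field_simp
  set S₁ : ℝ := ∏ j ∈ range (Nat.log 2 ⌊Real.log y / Real.log w⌋₊ + 1), (d:ℝ) ^ (b₀ + 2 * j)
    with hS₁
  have hlw1 : 1 ≤ Real.log w := by rw [hlogw]; nlinarith only [hAR, hl300]
  have hlogyL : Real.log y ≤ L := by
    rw [hlogy]
    apply div_le_self hL0.le
    nlinarith only [he2, hT2]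
  obtain ⟨hS₁a, hS₁b⟩ := S₁_le d hd e L (Real.log y) (Real.log w) a1 b1 heL hlogyL hlw1
    hlogy0.le b₀ hb₀2
  rw [← hS₁] at hS₁a hS₁b
  set S₂ : ℝ := Real.exp (ld * (Real.log Q / Real.log y)) with hS₂
  have hS₂1 : 1 ≤ S₂ := by
    apply Real.one_le_exp
    rw [hQy]
    positivity
  set Λ : ℝ := Real.exp (Real.log y * (2 * b₀ + 4)) with hΛ
  have hΛ1 : 1 ≤ Λ := Real.one_le_exp (by positivity)
  set Stot : ℝ := (S₁ ^ rr * S₂) ^ 2 * (S₁ * (d:ℝ) ^ J) with hStot
  have hStot0 : 0 ≤ Stot := by positivity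
  have hS₂' : S₂ = Real.exp (ld * (T * e ^ 2 / 20)) := by rw [hS₂, hQy]
  have hStot1 : Stot ≤ Real.exp (L / 100) := by
    rw [hStot, hS₂']
    exact stot_le d hd e L a1 b1 heL b4 S₁ (by linarith only [hS₁b]) hS₁a rr J hrr2 hJ2
  have hLsq : L ^ 2 ≤ Real.exp (L / 100) := by
    have h1 : 1 * L ^ 2 ≤ KK * L ^ (A + 3) := by
      apply mul_le_mul _ (pow_le_pow_right₀ hLp (by omega)) (by positivity)
        (by linarith only [hKK2, hdR])
      linarith only [hKK2, hdR]
    rw [one_mul] at h1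
    exact (h1.trans b5).trans (Real.exp_le_exp.2 hsqL)
  have hexp3 : Real.exp (3 * e) ≤ L := by
    rw [← Real.le_log_iff_exp_le hL0]
    exact heL
  obtain ⟨n1, n2, n3, n4⟩ := num_le e L (u * ρ₁) a1 hexp3 (by positivity) hlam J hJ1
  have hexpo : Real.exp (1 * ((1 + 1) * u * (ρ₁ * K) / Real.log z -
      Real.log (Q / z) / Real.log z)) ≤ Real.exp (-50 * e + 1) := by
    apply Real.exp_le_exp.2
    have h1 : Real.log (Q / z) = L / 20 - L / (2000 * e) := by
      rw [Real.log_div (Real.exp_pos _).ne' hz0.ne', hlogQ, hlogz]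
    have h2 : Real.log (Q / z) / Real.log z = 100 * e - 1 := by
      rw [h1, hlogz]
      field_simp
      ring
    have h3 : (1 + 1) * u * (ρ₁ * K) / Real.log z ≤ 50 * e := by
      rw [div_le_iff₀ hlogz0, hlogz]
      have h4 : 50 * e * (L / (2000 * e)) = L / 40 := by
        field_simp
        norm_num
      rw [h4]
      linarith only [huρK]
    rw [h2]
    linarith only [h3]
  have hfinal := coverP r (d:ℝ) hdR E w y z K Q (1 / L ^ 3) 1 2 (Real.exp (L / 10 + 1)) (2 * e) v₀ T
    τ Λ S₁ S₂ (Real.exp (50 * e)) ρ₁ N Stot J m₀ rr ⟨⌈25 * e⌉₊, by omega⟩ hm₀J hrd (by linarith)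
    hwy hyz
    (by
      have := hbig 0 (9 * d) (by omega) (by positivity) (by linarith)
      simpa using this) (by linarith) (Real.one_le_exp (by positivity)) one_pos le_rfl
    (by norm_num) ((mass_PE hy0.le hyz E).trans hGsg) hH
    (by
      rw [hQy, div_le_div_iff₀ hy0 (by positivity), one_mul]
      have h1 := hbig 4 (2 * d) (by omega) (by positivity) (by linarith)
      have h2 : T * e ^ 2 / 20 ≤ L := by linarith
      calc 2 * ((d:ℝ) * (T * e ^ 2 / 20)) * L ^ 3 ≤ 2 * (d * L) * L ^ 3 := by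
            apply mul_le_mul_of_nonneg_right _ (by positivity)
            apply mul_le_mul_of_nonneg_left _ (by norm_num)
            exact mul_le_mul_of_nonneg_left h2 (by linarith)
        _ = 2 * d * L ^ 4 := by ring
        _ ≤ y := h1)
    κ u hu.symm (Real.exp_pos _).le hτ1 hΛ1 hS₁b hS₂1 hρ hK0 hR le_rfl
    (by rw [hlogQ, hv₀]
        have : L / 20 / (L / T) = T / 20 := by field_simp
        rw [this]
        exact hrr1)
    (by linarith) (Real.one_le_exp (by positivity)) huw (by linarith)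
    (by
      have h1 : u * (1 / L ^ 3) ≤ L ^ 2 * (1 / L ^ 3) :=
        mul_le_mul_of_nonneg_right hu2 (by positivity)
      have h2 : L ^ 2 * (1 / L ^ 3) = 1 / L := by field_simp
      rw [h2] at h1
      refine h1.trans ?_
      apply one_div_le_one_div_of_le (by norm_num)
      linarith) hv₀0
    (by
      have h1 : y ^ ((1:ℝ) - 2) = 1 / y := by
        rw [show (1:ℝ) - 2 = -1 by norm_num, Real.rpow_neg_one, one_div]
      have h2 : Q ^ (2:ℝ) = Real.exp (L / 10) := by
        rw [hQ, ← Real.exp_mul]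
        congr 1
        ring
      rw [h1, h2, Real.exp_add (L / 10)]
      apply mul_le_mul_of_nonneg_left _ (Real.exp_pos _).le
      apply Real.exp_le_exp.2
      have h3 := hbig 3 4 (by omega) (by norm_num) (by linarith)
      have h4 : e ≤ L := by
        have := Real.log_le_sub_one_of_pos hL0
        linarith
      have h5 : u * e ≤ L ^ 2 * L := mul_le_mul hu2 h4 he0.le (by positivity)
      have h6 : 2 * u * (1 / y * (2 * e)) = 4 * (u * e) / y := by ring
      rw [h6, div_le_one hy0]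
      calc 4 * (u * e) ≤ 4 * (L ^ 2 * L) := by linarith
        _ = 4 * L ^ 3 := by ring
        _ ≤ y := h3)
    (hexpo.trans n4)
    (by
      refine le_trans ?_ n1
      apply mul_le_mul_of_nonneg_left _ (by positivity)
      linarith only [hexpo])
    n2
    n3
    hit (fun p hp hpw hpz hpE => huniq p hp hpw hpz hpE) 𝒜
    (lt_of_lt_of_le (Real.exp_pos _) hN) hStot0
    (fun T' t h1 h2 => (hcnt T' t (fun p hp => ⟨(h1 p hp).1, (h1 p hp).2.1⟩)).trans h2)
    (by
      have h1 := fin_le e L a1 b1 a8 hLsq Stot u N hStot0 hStot1 hu0 hu2 hN rr J b₀ hrr2 hJ2 hb₀2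
      rw [← hlogy] at h1
      exact h1)
  refine hfinal.trans ?_
  apply mul_le_mul_of_nonneg_left _ (Nat.cast_nonneg _)
  exact loss_fin e a1 a7 a8 J rr hJ2 hrr2

end Pool.Agent.L5helper45.PT
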