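import Mathlib

set_option autoImplicit false

/-! # Largeness conditions -/

namespace Pool.Agent.L5helper45.PT

open Filter Finset

theorem ev_pow_exp (K : ℝ) (n : ℕ) : ∀ᶠ e : ℝ in atTop, K * e ^ n ≤ Real.exp e := by
  have h1 : (fun x : ℝ => x ^ n) =o[atTop] Real.exp := Real.isLittleO_pow_exp_atTop
  have h2 := h1.def (show (0:ℝ) < 1 / (|K| + 1) by positivity)
  filter_upwards [h2, eventually_ge_atTop (0:ℝ)] with e he he0
  rw [Real.norm_eq_abs, Real.norm_eq_abs, abs_of_nonneg (pow_nonneg he0 n),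
    abs_of_pos (Real.exp_pos e), div_mul_eq_mul_div, one_mul, le_div_iff₀ (by positivity)] at he
  have h3 : K * e ^ n ≤ (|K| + 1) * e ^ n :=
    mul_le_mul_of_nonneg_right (by linarith [le_abs_self K]) (pow_nonneg he0 n)
  linarith

theorem ev_log (K : ℝ) : ∀ᶠ e : ℝ in atTop, K * Real.log e ≤ e := by
  have h2 := Real.isLittleO_log_id_atTop.def (show (0:ℝ) < 1 / (|K| + 1) by positivity)
  filter_upwards [h2, eventually_ge_atTop (1:ℝ)] with e he he1
  have hl := Real.log_nonneg he1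
  simp only [id] at he
  rw [Real.norm_eq_abs, Real.norm_eq_abs, abs_of_nonneg hl,
    abs_of_nonneg (show (0:ℝ) ≤ e by linarith),
    div_mul_eq_mul_div, one_mul, le_div_iff₀ (by positivity)] at he
  have h3 : K * Real.log e ≤ (|K| + 1) * Real.log e :=
    mul_le_mul_of_nonneg_right (by linarith [le_abs_self K]) hl
  linarith

theorem evE (C c₂ K₁ : ℝ) (hc₂ : 0 < c₂) : ∃ e₀ : ℝ, ∀ e : ℝ, e₀ ≤ e →
    100 ≤ e ∧ Real.log (2000 * e) ≤ e / 2 ∧ Real.log e + 2 * C ≤ e ∧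
    Real.exp (2 * C) * e ^ 2 + 1 ≤ c₂ * Real.exp (-C) / 8 * e ^ 3 ∧
    K₁ * e ^ 3 ≤ Real.exp e ∧ 128 * (1 + 2 * C) + 2 ≤ 2 * e ∧
    480 + 104 * Real.log e ≤ e ∧ 2000 * e ≤ Real.exp e := by
  have h1 : ∀ᶠ e : ℝ in atTop, Real.log (2000 * e) ≤ e / 2 := by
    filter_upwards [ev_log 4, eventually_ge_atTop (4 * Real.log 2000),
      eventually_ge_atTop (1:ℝ)] with e h1 h2 h3
    rw [Real.log_mul (by norm_num) (by linarith)]
    linarith
  have h2 : ∀ᶠ e : ℝ in atTop, Real.log e + 2 * C ≤ e := by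
    filter_upwards [ev_log 2, eventually_ge_atTop (4 * C)] with e h1 h2
    linarith
  have h3 : ∀ᶠ e : ℝ in atTop, Real.exp (2 * C) * e ^ 2 + 1 ≤ c₂ * Real.exp (-C) / 8 * e ^ 3 := by
    filter_upwards [eventually_ge_atTop ((Real.exp (2 * C) + 1) / (c₂ * Real.exp (-C) / 8)),
      eventually_ge_atTop (1:ℝ)] with e h1 h2
    rw [div_le_iff₀ (by positivity)] at h1
    have h3 : (1:ℝ) ≤ e ^ 2 := one_le_pow₀ h2
    have h4 : (Real.exp (2 * C) + 1) * e ^ 2 ≤ e * (c₂ * Real.exp (-C) / 8) * e ^ 2 :=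
      mul_le_mul_of_nonneg_right h1 (by positivity)
    nlinarith
  have h4 : ∀ᶠ e : ℝ in atTop, 480 + 104 * Real.log e ≤ e := by
    filter_upwards [ev_log 208, eventually_ge_atTop (960:ℝ)] with e h1 h2
    linarith
  have h5 : ∀ᶠ e : ℝ in atTop, 2000 * e ≤ Real.exp e := by
    filter_upwards [ev_pow_exp 2000 1] with e h1
    simpa using h1
  obtain ⟨e₀, h⟩ := eventually_atTop.1 ((((((((eventually_ge_atTop (100:ℝ)).and h1).and h2).and
    h3).and (ev_pow_exp K₁ 3)).and (eventually_ge_atTop ((128 * (1 + 2 * C) + 2) / 2))).and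
    h4).and h5)
  refine ⟨e₀, fun e he => ?_⟩
  obtain ⟨⟨⟨⟨⟨⟨⟨a1, a2⟩, a3⟩, a4⟩, a5⟩, a6⟩, a7⟩, a8⟩ := h e he
  exact ⟨a1, a2, a3, a4, a5, by linarith, a7, a8⟩

theorem evL (A d Bd : ℕ) (K Z₀ : ℝ) : ∃ L₀ : ℝ, ∀ L : ℝ, L₀ ≤ L →
    10 ^ 4 ≤ L ∧ 2 * (d:ℝ) ≤ L ∧ (Bd:ℝ) ≤ L ∧
    10 ^ 4 * (Real.log d + 1) * (Real.log L) ^ 2 ≤ L ^ (1 / 6 : ℝ) ∧
    K * L ^ (A + 3) ≤ Real.exp (Real.sqrt L) ∧ Z₀ ≤ Real.exp (Real.sqrt L) ∧
    (A:ℝ) * Real.log L ≤ Real.sqrt L := by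
  have h1 : ∀ᶠ L : ℝ in atTop, 10 ^ 4 * (Real.log d + 1) * (Real.log L) ^ 2 ≤ L ^ (1 / 6 : ℝ) := by
    have e1 : (fun L : ℝ => (Real.log L) ^ (2:ℝ)) =o[atTop] (fun L : ℝ => L ^ (1 / 6 : ℝ)) :=
      isLittleO_log_rpow_rpow_atTop 2 (by norm_num)
    have hK0 : 0 ≤ 10 ^ 4 * (Real.log d + 1) := by
      have : 0 ≤ Real.log (d:ℝ) := Real.log_natCast_nonneg d
      positivity
    have e2 := e1.def (show (0:ℝ) < 1 / (10 ^ 4 * (Real.log d + 1) + 1) by positivity)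
    filter_upwards [e2, eventually_ge_atTop (1:ℝ)] with L hL hL2
    rw [Real.norm_eq_abs, Real.norm_eq_abs, abs_of_nonneg (Real.rpow_nonneg
      (Real.log_nonneg hL2) _), abs_of_nonneg (Real.rpow_nonneg (by linarith) _),
      Real.rpow_two, div_mul_eq_mul_div, one_mul, le_div_iff₀ (by positivity)] at hL
    have := sq_nonneg (Real.log L)
    nlinarith
  have hsq : Tendsto (fun L : ℝ => Real.sqrt L) atTop atTop := Real.tendsto_sqrt_atTop
  have h2 : ∀ᶠ L : ℝ in atTop, K * L ^ (A + 3) ≤ Real.exp (Real.sqrt L) := by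
    filter_upwards [hsq.eventually (ev_pow_exp K (2 * (A + 3))), eventually_ge_atTop (0:ℝ)]
      with L hL hL0
    rw [pow_mul, Real.sq_sqrt hL0] at hL
    exact hL
  have h3 : ∀ᶠ L : ℝ in atTop, Z₀ ≤ Real.exp (Real.sqrt L) :=
    (Real.tendsto_exp_atTop.comp hsq).eventually_ge_atTop Z₀
  have h4 : ∀ᶠ L : ℝ in atTop, (A:ℝ) * Real.log L ≤ Real.sqrt L := by
    filter_upwards [hsq.eventually (ev_log (2 * A)), eventually_ge_atTop (1:ℝ)] with L hL hL0
    rw [Real.log_sqrt (by linarith)] at hL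
    linarith
  obtain ⟨L₀, h⟩ := eventually_atTop.1 (((((((eventually_ge_atTop ((10:ℝ) ^ 4)).and
    (eventually_ge_atTop (2 * (d:ℝ)))).and (eventually_ge_atTop (Bd:ℝ))).and h1).and h2).and
    h3).and h4)
  refine ⟨L₀, fun L hL => ?_⟩
  obtain ⟨⟨⟨⟨⟨⟨a1, a2⟩, a3⟩, a4⟩, a5⟩, a6⟩, a7⟩ := h L hL
  exact ⟨a1, a2, a3, a4, a5, a6, a7⟩

/-- the loss at the covered points -/
theorem loss_fin (e : ℝ) (he : 100 ≤ e) (h1 : 480 + 104 * Real.log e ≤ e)
    (h2 : 2000 * e ≤ Real.exp e) (J rr : ℕ) (hJ : (J:ℝ) ≤ 50 * e + 2)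
    (hrr : (rr:ℝ) ≤ Real.exp e / 20 + 1) :
    (3 * (1 + 3 * Real.exp (2 * e) * ((J : ℝ) + 2) ^ (2 * J) * (Real.exp (50 * e) + 1)) ^ rr) ^ 2 ≤
      Real.exp (e ^ 2 * Real.exp e) := by
  have hJ0 : (0:ℝ) ≤ J := Nat.cast_nonneg J
  have hlog : Real.log ((J:ℝ) + 2) ≤ 4 + Real.log e := by
    have a1 : (J:ℝ) + 2 ≤ 52 * e := by linarith
    have a2 : Real.log ((J:ℝ) + 2) ≤ Real.log (52 * e) := Real.log_le_log (by linarith) a1
    rw [Real.log_mul (by norm_num) (by linarith)] at a2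
    have a3 : Real.log 52 ≤ 4 := by
      rw [Real.log_le_iff_le_exp (by norm_num)]
      have a4 := Real.exp_one_gt_d9
      have a5 : Real.exp 4 = Real.exp 1 ^ 4 := by rw [← Real.exp_nat_mul]; norm_num
      rw [a5]
      have a6 : (2.7:ℝ) ^ 4 ≤ Real.exp 1 ^ 4 := pow_le_pow_left₀ (by norm_num) (by linarith) 4
      norm_num at a6 ⊢
      linarith
    linarith
  have hle0 : 0 ≤ Real.log e := Real.log_nonneg (by linarith)
  have hpow : ((J : ℝ) + 2) ^ (2 * J) ≤ Real.exp (104 * e * (4 + Real.log e)) := by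
    have a1 : ((J : ℝ) + 2) ^ (2 * J) = Real.exp ((2 * J : ℕ) * Real.log ((J:ℝ) + 2)) := by
      rw [Real.exp_nat_mul, Real.exp_log (by linarith)]
    rw [a1]
    apply Real.exp_le_exp.2
    push_cast
    have a2 : 2 * (J:ℝ) ≤ 104 * e := by linarith
    have a3 : 0 ≤ Real.log ((J:ℝ) + 2) := Real.log_nonneg (by linarith)
    calc 2 * (J:ℝ) * Real.log ((J:ℝ) + 2) ≤ 104 * e * Real.log ((J:ℝ) + 2) :=
          mul_le_mul_of_nonneg_right a2 a3
      _ ≤ 104 * e * (4 + Real.log e) := mul_le_mul_of_nonneg_left hlog (by linarith)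
  have hbase : 1 + 3 * Real.exp (2 * e) * ((J : ℝ) + 2) ^ (2 * J) * (Real.exp (50 * e) + 1) ≤
      Real.exp (e ^ 2) := by
    have a1 : Real.exp (50 * e) + 1 ≤ 2 * Real.exp (50 * e) := by
      have := Real.one_le_exp (show 0 ≤ 50 * e by linarith)
      linarith
    have a2 : 3 * Real.exp (2 * e) * ((J : ℝ) + 2) ^ (2 * J) * (Real.exp (50 * e) + 1) ≤
        3 * Real.exp (2 * e) * Real.exp (104 * e * (4 + Real.log e)) *
          (2 * Real.exp (50 * e)) := by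
      apply mul_le_mul _ a1 (by positivity) (by positivity)
      exact mul_le_mul_of_nonneg_left hpow (by positivity)
    have a3 : 3 * Real.exp (2 * e) * Real.exp (104 * e * (4 + Real.log e)) *
          (2 * Real.exp (50 * e)) = 6 * Real.exp (52 * e + 104 * e * (4 + Real.log e)) := by
      have : Real.exp (52 * e + 104 * e * (4 + Real.log e)) = Real.exp (2 * e) *
          Real.exp (104 * e * (4 + Real.log e)) * Real.exp (50 * e) := by
        rw [← Real.exp_add, ← Real.exp_add]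
        congr 1
        ring
      rw [this]
      ring
    rw [a3] at a2
    have a4 : 1 ≤ Real.exp (52 * e + 104 * e * (4 + Real.log e)) := Real.one_le_exp (by positivity)
    have a5 : (7:ℝ) ≤ Real.exp 2 := by
      have b1 := Real.exp_one_gt_d9
      have b2 : Real.exp 2 = Real.exp 1 ^ 2 := by rw [← Real.exp_nat_mul]; norm_num
      rw [b2]
      nlinarith
    have a6 : 7 * Real.exp (52 * e + 104 * e * (4 + Real.log e)) ≤
        Real.exp (2 + (52 * e + 104 * e * (4 + Real.log e))) := by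
      rw [Real.exp_add 2]
      exact mul_le_mul_of_nonneg_right a5 (Real.exp_pos _).le
    have a7 : Real.exp (2 + (52 * e + 104 * e * (4 + Real.log e))) ≤ Real.exp (e ^ 2) := by
      apply Real.exp_le_exp.2
      nlinarith
    linarith
  have hb0 : 0 ≤ 1 + 3 * Real.exp (2 * e) * ((J : ℝ) + 2) ^ (2 * J) * (Real.exp (50 * e) + 1) := by
    positivity
  calc (3 * (1 + 3 * Real.exp (2 * e) * ((J : ℝ) + 2) ^ (2 * J) *
        (Real.exp (50 * e) + 1)) ^ rr) ^ 2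
      ≤ (3 * Real.exp (e ^ 2) ^ rr) ^ 2 := by
        apply pow_le_pow_left₀ (by positivity)
        apply mul_le_mul_of_nonneg_left _ (by norm_num)
        exact pow_le_pow_left₀ hb0 hbase rr
    _ = 9 * Real.exp (2 * (rr * e ^ 2)) := by
        rw [← Real.exp_nat_mul, mul_pow, ← Real.exp_nat_mul]
        norm_num
    _ ≤ Real.exp 3 * Real.exp (2 * (rr * e ^ 2)) := by
        apply mul_le_mul_of_nonneg_right _ (Real.exp_pos _).le
        have b1 := Real.exp_one_gt_d9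
        have b2 : Real.exp 3 = Real.exp 1 ^ 3 := by rw [← Real.exp_nat_mul]; norm_num
        rw [b2]
        have b3 : (2.7:ℝ) ^ 3 ≤ Real.exp 1 ^ 3 := pow_le_pow_left₀ (by norm_num) (by linarith) 3
        norm_num at b3 ⊢
        linarith
    _ = Real.exp (3 + 2 * (rr * e ^ 2)) := by rw [← Real.exp_add]
    _ ≤ _ := by
        apply Real.exp_le_exp.2
        have c1 : (rr:ℝ) * e ^ 2 ≤ (Real.exp e / 20 + 1) * e ^ 2 :=
          mul_le_mul_of_nonneg_right hrr (by positivity)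
        have c2 : 10 ≤ Real.exp e := by linarith
        have c3 : (1:ℝ) ≤ e ^ 2 := one_le_pow₀ (by linarith)
        nlinarith

end Pool.Agent.L5helper45.PT
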