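import Pool.Agent.L5helper45.PT.ProfE
import Pool.Agent.L5helper45.PT.Par

set_option autoImplicit false
set_option linter.unusedSectionVars false
set_option linter.unusedVariables false
set_option maxHeartbeats 4000000

/-! # The covering theorem: choice of the parameters -/

namespace Pool.Agent.L5helper45.PT

open Finset Filter Pool.Agent.H256R2.SC Pool.Agent.Y831.RC
open Pool.Agent.H474R2.PG (Sg)

open scoped Classical

/-- sizes -/
theorem sizes (e L : ℝ) (he : 100 ≤ e) (hL : 10 ^ 4 ≤ L) (heL : 3 * e ≤ Real.log L)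
    (h6 : 10 ^ 4 * (Real.log L) ^ 2 ≤ L ^ (1 / 6 : ℝ)) :
    Real.exp e ≤ L ^ (1 / 3 : ℝ) ∧ Real.exp e * e ^ 2 ≤ Real.sqrt L ∧
    Real.sqrt L ≤ L / (Real.exp e * e ^ 2) ∧ Real.exp e * e ^ 2 * 10 ^ 4 ≤ Real.sqrt L := by
  have hL0 : 0 < L := by linarith
  have h1 : Real.exp e ≤ L ^ (1 / 3 : ℝ) := by
    rw [Real.rpow_def_of_pos hL0]
    exact Real.exp_le_exp.2 (by linarith)
  have hlog0 : 0 ≤ Real.log L := by linarith
  have h2 : e ^ 2 ≤ (Real.log L) ^ 2 := pow_le_pow_left₀ (by linarith) (by linarith) 2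
  have h5 : L ^ (1 / 3 : ℝ) * L ^ (1 / 6 : ℝ) = Real.sqrt L := by
    rw [← Real.rpow_add hL0, Real.sqrt_eq_rpow]
    norm_num
  have h4 : Real.exp e * e ^ 2 * 10 ^ 4 ≤ Real.sqrt L := by
    have e1 : e ^ 2 * 10 ^ 4 ≤ L ^ (1 / 6 : ℝ) := by linarith
    rw [← h5, mul_assoc]
    exact mul_le_mul h1 e1 (by positivity) (by positivity)
  have h3 : Real.exp e * e ^ 2 ≤ Real.sqrt L := by
    have : 0 < Real.exp e * e ^ 2 := by positivity
    linarith
  refine ⟨h1, h3, ?_, h4⟩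
  rw [le_div_iff₀ (by positivity)]
  calc Real.sqrt L * (Real.exp e * e ^ 2) ≤ Real.sqrt L * Real.sqrt L :=
        mul_le_mul_of_nonneg_left h3 (Real.sqrt_nonneg _)
    _ = L := Real.mul_self_sqrt hL0.le

/-- the support of the majorants of the first block -/
theorem S₁_le (d : ℕ) (hd : 1 ≤ d) (e L Y W : ℝ) (he : 100 ≤ e) (hL : 10 ^ 4 ≤ L)
    (heL : 3 * e ≤ Real.log L) (hY : Y ≤ L) (hW : 1 ≤ W) (hY0 : 0 ≤ Y) (b₀ : ℕ)
    (hb₀ : (b₀:ℝ) ≤ 6 * e + 2) :
    ∏ j ∈ range (Nat.log 2 ⌊Y / W⌋₊ + 1), (d:ℝ) ^ (b₀ + 2 * j) ≤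
      Real.exp (Real.log d * (20 * (Real.log L) ^ 2)) ∧
    1 ≤ ∏ j ∈ range (Nat.log 2 ⌊Y / W⌋₊ + 1), (d:ℝ) ^ (b₀ + 2 * j) := by
  have hdR : (1:ℝ) ≤ d := by exact_mod_cast hd
  set Bk := Nat.log 2 ⌊Y / W⌋₊ + 1 with hBk
  have hlogL : 300 ≤ Real.log L := by linarith
  have h1 : (Bk : ℝ) ≤ 2 * Real.log L := by
    have e1 : (2:ℝ) ^ (Nat.log 2 ⌊Y / W⌋₊) ≤ L := by
      rcases Nat.eq_zero_or_pos ⌊Y / W⌋₊ with h | h
      · rw [h]
        simp
        linarith
      · have a1 : 2 ^ (Nat.log 2 ⌊Y / W⌋₊) ≤ ⌊Y / W⌋₊ := Nat.pow_log_le_self 2 (by omega)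
        calc (2:ℝ) ^ (Nat.log 2 ⌊Y / W⌋₊) ≤ (⌊Y / W⌋₊ : ℝ) := by exact_mod_cast a1
          _ ≤ Y / W := Nat.floor_le (by positivity)
          _ ≤ Y := div_le_self hY0 hW
          _ ≤ L := hY
    have e2 := Real.log_le_log (by positivity) e1
    rw [Real.log_pow] at e2
    have e3 := Real.log_two_gt_d9
    have e4 : (0:ℝ) ≤ (Nat.log 2 ⌊Y / W⌋₊ : ℝ) := Nat.cast_nonneg _
    have e5 : (Nat.log 2 ⌊Y / W⌋₊ : ℝ) * (2 / 3) ≤ Real.log L := by nlinarith
    rw [hBk]
    push_cast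
    linarith
  have h2 : ∏ j ∈ range Bk, (d:ℝ) ^ (b₀ + 2 * j) ≤ (d:ℝ) ^ (Bk * (b₀ + 2 * Bk)) := by
    calc ∏ j ∈ range Bk, (d:ℝ) ^ (b₀ + 2 * j) ≤ ∏ j ∈ range Bk, (d:ℝ) ^ (b₀ + 2 * Bk) := by
          apply Finset.prod_le_prod
          · intro j _
            positivity
          · intro j hj
            rw [Finset.mem_range] at hj
            exact pow_le_pow_right₀ hdR (by omega)
      _ = _ := by rw [Finset.prod_const, Finset.card_range, ← pow_mul, mul_comm]
  refine ⟨h2.trans ?_, ?_⟩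
  · have h3 : (d:ℝ) ^ (Bk * (b₀ + 2 * Bk)) =
        Real.exp (((Bk * (b₀ + 2 * Bk) : ℕ) : ℝ) * Real.log d) := by
      rw [Real.exp_nat_mul, Real.exp_log (by linarith)]
    rw [h3]
    apply Real.exp_le_exp.2
    rw [mul_comm]
    apply mul_le_mul_of_nonneg_left _ (Real.log_nonneg hdR)
    push_cast
    have h4 : (0:ℝ) ≤ Bk := Nat.cast_nonneg _
    have h5 : (b₀:ℝ) + 2 * Bk ≤ 7 * Real.log L := by linarith
    calc (Bk:ℝ) * (b₀ + 2 * Bk) ≤ (2 * Real.log L) * (7 * Real.log L) :=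
          mul_le_mul h1 h5 (by positivity) (by linarith)
      _ ≤ _ := by nlinarith
  · calc (1:ℝ) = ∏ _j ∈ range Bk, (1:ℝ) := by simp
      _ ≤ _ := Finset.prod_le_prod (fun _ _ => zero_le_one) fun j _ => one_le_pow₀ hdR

theorem stot_le (d : ℕ) (hd : 1 ≤ d) (e L : ℝ) (he : 100 ≤ e) (hL : 10 ^ 4 ≤ L)
    (heL : 3 * e ≤ Real.log L)
    (h6 : 10 ^ 4 * (Real.log d + 1) * (Real.log L) ^ 2 ≤ L ^ (1 / 6 : ℝ)) (S₁ : ℝ) (hS₁0 : 0 ≤ S₁)
    (hS₁ : S₁ ≤ Real.exp (Real.log d * (20 * (Real.log L) ^ 2))) (rr J : ℕ)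
    (hrr : (rr:ℝ) ≤ Real.exp e / 20 + 1) (hJ : (J:ℝ) ≤ 50 * e + 2) :
    (S₁ ^ rr * Real.exp (Real.log d * (Real.exp e * e ^ 2 / 20))) ^ 2 * (S₁ * (d:ℝ) ^ J) ≤
      Real.exp (L / 100) := by
  have hdR : (1:ℝ) ≤ d := by exact_mod_cast hd
  have hL0 : 0 < L := by linarith
  have hld0 : 0 ≤ Real.log (d:ℝ) := Real.log_nonneg hdR
  have hT2 : 100 ≤ Real.exp e := by
    have := Real.add_one_le_exp e
    linarith
  have h6' : 10 ^ 4 * (Real.log L) ^ 2 ≤ L ^ (1 / 6 : ℝ) := by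
    refine le_trans ?_ h6
    have h7 := mul_nonneg hld0 (sq_nonneg (Real.log L))
    linarith
  obtain ⟨s1, s2, s3, s4⟩ := sizes e L he hL heL h6'
  have hsq2 : Real.sqrt L * Real.sqrt L = L := Real.mul_self_sqrt hL0.le
  have hsq100 : 100 ≤ Real.sqrt L := by
    apply Real.le_sqrt_of_sq_le
    linarith
  have hsqL : Real.sqrt L ≤ L / 100 := by nlinarith
  have h5 : L ^ (1 / 3 : ℝ) * L ^ (1 / 6 : ℝ) = Real.sqrt L := by
    rw [← Real.rpow_add hL0, Real.sqrt_eq_rpow]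
    norm_num
  set l : ℝ := Real.log L with hl
  set ld : ℝ := Real.log (d:ℝ) with hld
  set T : ℝ := Real.exp e with hT
  have hT0 : 0 < T := Real.exp_pos e
  have c1 : S₁ ^ rr ≤ Real.exp (ld * (20 * l ^ 2) * T) := by
    calc S₁ ^ rr ≤ (Real.exp (ld * (20 * l ^ 2))) ^ rr :=
          pow_le_pow_left₀ hS₁0 hS₁ rr
      _ = Real.exp (ld * (20 * l ^ 2) * rr) := by rw [← Real.exp_nat_mul]; congr 1; ring
      _ ≤ _ := by
          apply Real.exp_le_exp.2
          apply mul_le_mul_of_nonneg_left _ (by positivity)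
          linarith
  have c2 : (d:ℝ) ^ J ≤ Real.exp (ld * (52 * e)) := by
    have : (d:ℝ) ^ J = Real.exp (J * ld) := by
      rw [Real.exp_nat_mul, hld, Real.exp_log (by linarith)]
    rw [this]
    apply Real.exp_le_exp.2
    rw [mul_comm]
    apply mul_le_mul_of_nonneg_left _ hld0
    linarith
  set S₂ : ℝ := Real.exp (ld * (T * e ^ 2 / 20)) with hS₂
  have hS₂0 : 0 < S₂ := Real.exp_pos _
  have c3 : (S₁ ^ rr * S₂) ^ 2 * (S₁ * (d:ℝ) ^ J) ≤ (Real.exp (ld * (20 * l ^ 2) * T) * S₂) ^ 2 *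
      (Real.exp (ld * (20 * l ^ 2)) * Real.exp (ld * (52 * e))) := by
    apply mul_le_mul
    · apply pow_le_pow_left₀ (by positivity)
      exact mul_le_mul_of_nonneg_right c1 hS₂0.le
    · exact mul_le_mul hS₁ c2 (by positivity) (by positivity)
    · positivity
    · positivity
  refine c3.trans ?_
  rw [hS₂, ← Real.exp_add, ← Real.exp_add, ← Real.exp_nat_mul, ← Real.exp_add]
  apply Real.exp_le_exp.2
  push_cast
  have d1 : e ^ 2 ≤ l ^ 2 := pow_le_pow_left₀ (by linarith) (by linarith) 2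
  have d2 : e ≤ l ^ 2 := by nlinarith only [d1, he]
  have d4 : l ^ 2 ≤ T * l ^ 2 := by nlinarith only [sq_nonneg l, hT2]
  have d5 : ld * (20 * l ^ 2) ≤ 20 * (ld * (T * l ^ 2)) := by
    have := mul_le_mul_of_nonneg_left d4 hld0
    linarith only [this]
  have d6 : ld * (52 * e) ≤ 52 * (ld * (T * l ^ 2)) := by
    have := mul_le_mul_of_nonneg_left (d2.trans d4) hld0
    linarith only [this]
  have d7 : ld * (T * e ^ 2 / 20) ≤ ld * (T * l ^ 2) := by
    apply mul_le_mul_of_nonneg_left _ hld0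
    have := mul_le_mul_of_nonneg_left d1 hT0.le
    have h0 : 0 ≤ T * e ^ 2 := by positivity
    linarith only [this, h0]
  have d8 : ld * (T * l ^ 2) * 10 ^ 4 ≤ Real.sqrt L := by
    have e2 : ld * l ^ 2 * 10 ^ 4 ≤ L ^ (1 / 6 : ℝ) := by
      have := sq_nonneg l
      nlinarith only [this, h6]
    calc ld * (T * l ^ 2) * 10 ^ 4 = T * (ld * l ^ 2 * 10 ^ 4) := by ring
      _ ≤ L ^ (1 / 3 : ℝ) * L ^ (1 / 6 : ℝ) := mul_le_mul s1 e2 (by positivity) (by positivity)
      _ = Real.sqrt L := h5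
  have d9 : ld * (20 * l ^ 2) * T = 20 * (ld * (T * l ^ 2)) := by ring
  have d10 : 0 ≤ ld * (T * l ^ 2) := by positivity
  rw [d9]
  linarith only [d5, d6, d7, d8, d10, hsqL]

theorem fin_le (e L : ℝ) (he : 100 ≤ e) (hL : 10 ^ 4 ≤ L) (h8 : 2000 * e ≤ Real.exp e)
    (hLe : L ^ 2 ≤ Real.exp (L / 100)) (Stot u N : ℝ) (hS0 : 0 ≤ Stot)
    (hS : Stot ≤ Real.exp (L / 100)) (hu0 : 0 ≤ u) (hu : u ≤ L ^ 2)
    (hN : Real.exp (9 / 10 * L) ≤ N) (rr J b₀ : ℕ) (hrr : (rr:ℝ) ≤ Real.exp e / 20 + 1)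
    (hJ : (J:ℝ) ≤ 50 * e + 2) (hb₀ : (b₀:ℝ) ≤ 6 * e + 2) :
    Stot * ((Real.exp (L / (Real.exp e * e ^ 2) * (2 * b₀ + 4)) ^ rr *
      Real.exp (L / 10 + 1)) ^ 2 *
      (1 + u * (Real.exp (L / (Real.exp e * e ^ 2) * (2 * b₀ + 4)) *
        (Real.exp (L / (2000 * e)) ^ J + 1)))) < N / 8 := by
  have hL0 : 0 < L := by linarith
  have he0 : 0 < e := by linarith
  set T : ℝ := Real.exp e with hT
  have hT0 : 0 < T := Real.exp_pos e
  have hT2 : 200000 ≤ T := by linarith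
  have h1 : L / (T * e ^ 2) * (2 * b₀ + 4) ≤ 13 * (L / (T * e)) := by
    calc L / (T * e ^ 2) * (2 * b₀ + 4) ≤ L / (T * e ^ 2) * (13 * e) := by
          apply mul_le_mul_of_nonneg_left _ (by positivity)
          linarith
      _ = 13 * (L / (T * e)) := by field_simp
  have h2 : Real.exp (L / (T * e ^ 2) * (2 * b₀ + 4)) ≤ Real.exp (L / 1000) := by
    apply Real.exp_le_exp.2
    refine h1.trans ?_
    rw [← mul_div_assoc, div_le_div_iff₀ (by positivity) (by norm_num)]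
    have h3 : 13000 ≤ T * e := by nlinarith only [hT2, he]
    nlinarith only [h3, hL0]
  have h3 : Real.exp (L / (T * e ^ 2) * (2 * b₀ + 4)) ^ rr ≤ Real.exp (L / 50) := by
    rw [← Real.exp_nat_mul]
    apply Real.exp_le_exp.2
    have e1 : (rr:ℝ) ≤ T / 10 := by linarith only [hrr, hT2]
    calc (rr:ℝ) * (L / (T * e ^ 2) * (2 * b₀ + 4)) ≤ T / 10 * (13 * (L / (T * e))) :=
          mul_le_mul e1 h1 (by positivity) (by positivity)
      _ = 13 / 10 * L / e := by field_simp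
      _ ≤ L / 50 := by
          rw [div_le_div_iff₀ he0 (by norm_num)]
          nlinarith only [he, hL0]
  have h4 : Real.exp (L / (2000 * e)) ^ J ≤ Real.exp (L / 30) := by
    rw [← Real.exp_nat_mul]
    apply Real.exp_le_exp.2
    rw [← mul_div_assoc, div_le_div_iff₀ (by positivity) (by norm_num)]
    have e1 : (J:ℝ) * L ≤ (51 * e) * L :=
      mul_le_mul_of_nonneg_right (by linarith only [hJ, he]) hL0.le
    have e2 : 0 ≤ e * L := by positivity
    linarith only [e1, e2]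
  have h5 : 1 + u * (Real.exp (L / (T * e ^ 2) * (2 * b₀ + 4)) *
      (Real.exp (L / (2000 * e)) ^ J + 1)) ≤ 3 * Real.exp (L / 100 + L / 1000 + L / 30) := by
    have e1 : Real.exp (L / (2000 * e)) ^ J + 1 ≤ 2 * Real.exp (L / 30) := by
      have := Real.one_le_exp (show 0 ≤ L / 30 by positivity)
      linarith only [this, h4]
    have e2 : u * (Real.exp (L / (T * e ^ 2) * (2 * b₀ + 4)) *
        (Real.exp (L / (2000 * e)) ^ J + 1)) ≤
        Real.exp (L / 100) * (Real.exp (L / 1000) * (2 * Real.exp (L / 30))) := by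
      apply mul_le_mul (hu.trans hLe) _ (by positivity) (by positivity)
      exact mul_le_mul h2 e1 (by positivity) (by positivity)
    have e3 : Real.exp (L / 100) * (Real.exp (L / 1000) * (2 * Real.exp (L / 30))) =
        2 * Real.exp (L / 100 + L / 1000 + L / 30) := by
      rw [Real.exp_add, Real.exp_add]
      ring
    rw [e3] at e2
    have e4 : 1 ≤ Real.exp (L / 100 + L / 1000 + L / 30) := Real.one_le_exp (by positivity)
    linarith only [e2, e4]
  have h6 : (Real.exp (L / (T * e ^ 2) * (2 * b₀ + 4)) ^ rr * Real.exp (L / 10 + 1)) ^ 2 ≤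
      Real.exp (L / 25 + L / 5 + 2) := by
    calc (Real.exp (L / (T * e ^ 2) * (2 * b₀ + 4)) ^ rr * Real.exp (L / 10 + 1)) ^ 2 ≤
          (Real.exp (L / 50) * Real.exp (L / 10 + 1)) ^ 2 := by
          apply pow_le_pow_left₀ (by positivity)
          exact mul_le_mul_of_nonneg_right h3 (Real.exp_pos _).le
      _ = _ := by
          rw [← Real.exp_add, ← Real.exp_nat_mul]
          congr 1
          push_cast
          ring
  have h7 : Stot * ((Real.exp (L / (T * e ^ 2) * (2 * b₀ + 4)) ^ rr *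
      Real.exp (L / 10 + 1)) ^ 2 *
      (1 + u * (Real.exp (L / (T * e ^ 2) * (2 * b₀ + 4)) *
        (Real.exp (L / (2000 * e)) ^ J + 1)))) ≤
      Real.exp (L / 100) * (Real.exp (L / 25 + L / 5 + 2) *
        (3 * Real.exp (L / 100 + L / 1000 + L / 30))) := by
    apply mul_le_mul hS _ (by positivity) (by positivity)
    exact mul_le_mul h6 h5 (by positivity) (by positivity)
  refine lt_of_le_of_lt h7 ?_
  have h9 : Real.exp (L / 100) * (Real.exp (L / 25 + L / 5 + 2) *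
        (3 * Real.exp (L / 100 + L / 1000 + L / 30))) =
      3 * Real.exp (L / 100 + (L / 25 + L / 5 + 2) + (L / 100 + L / 1000 + L / 30)) := by
    rw [Real.exp_add (L / 100 + (L / 25 + L / 5 + 2)), Real.exp_add (L / 100)]
    ring
  rw [h9]
  have h10 : Real.exp (9 / 10 * L) / 8 ≤ N / 8 := by linarith only [hN]
  refine lt_of_lt_of_le ?_ h10
  have h11 : (27:ℝ) ≤ Real.exp 27 := by
    have := Real.add_one_le_exp (27:ℝ)
    linarith only [this]
  have h12 : Real.exp (L / 100 + (L / 25 + L / 5 + 2) + (L / 100 + L / 1000 + L / 30)) *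
      Real.exp 27 ≤ Real.exp (9 / 10 * L) := by
    rw [← Real.exp_add]
    apply Real.exp_le_exp.2
    linarith only [hL]
  have h13 := Real.exp_pos (L / 100 + (L / 25 + L / 5 + 2) + (L / 100 + L / 1000 + L / 30))
  nlinarith only [h11, h12, h13]

/-- the numerical conditions on the number of colours -/
theorem num_le (e L lam : ℝ) (he : 100 ≤ e) (hL : Real.exp (3 * e) ≤ L) (hlam0 : 0 ≤ lam)
    (hlam : lam ≤ Real.exp (2 * e)) (J : ℕ) (hJ : 50 * e ≤ J) :
    4 * lam * (Real.exp (-(3 * e)) + ((1 / L ^ 3) ^ 2 + Real.exp (-50 * e + 1))) ≤ 1 / 12 ∧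
    2 * lam * ((1 / 3) ^ J * Real.exp (20 * (2 * e))) ≤ 1 / 12 ∧
    2 * lam * Real.exp (20 * (2 * e)) ≤ Real.exp (50 * e) / 12 ∧
    Real.exp (-50 * e + 1) ≤ 1 / 8 := by
  have h1 : Real.exp (-50 * e + 1) ≤ Real.exp (-(3 * e)) := Real.exp_le_exp.2 (by linarith)
  have hL1 : 1 ≤ L := le_trans (Real.one_le_exp (by linarith)) hL
  have h2 : (1 / L ^ 3) ^ 2 ≤ Real.exp (-(3 * e)) := by
    have e1 : (1 / L ^ 3) ^ 2 = 1 / L ^ 6 := by rw [div_pow, one_pow, ← pow_mul]
    rw [e1, Real.exp_neg, ← one_div]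
    apply one_div_le_one_div_of_le (Real.exp_pos _)
    exact hL.trans (le_self_pow₀ hL1 (by norm_num))
  have h3 : (144:ℝ) ≤ Real.exp e := by
    have b1 := Real.exp_one_gt_d9
    have b2 : Real.exp 6 = Real.exp 1 ^ 6 := by rw [← Real.exp_nat_mul]; norm_num
    have b3 : (2.5:ℝ) ^ 6 ≤ Real.exp 1 ^ 6 := pow_le_pow_left₀ (by norm_num) (by linarith) 6
    have b4 : Real.exp 6 ≤ Real.exp e := Real.exp_le_exp.2 (by linarith)
    rw [b2] at b4
    have b5 : (144:ℝ) ≤ (2.5:ℝ) ^ 6 := by norm_num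
    linarith only [b3, b4, b5]
  have h4 : Real.exp (2 * e) * Real.exp (-(3 * e)) = Real.exp (-e) := by
    rw [← Real.exp_add]; congr 1; ring
  have h5 : Real.exp (-e) ≤ 1 / 144 := by
    rw [Real.exp_neg, ← one_div]
    exact one_div_le_one_div_of_le (by norm_num) h3
  have hthird : ((1:ℝ) / 3) ^ J ≤ Real.exp (-(J:ℝ)) := by
    have h1 : (1:ℝ) / 3 ≤ Real.exp (-1) := by
      rw [Real.exp_neg, one_div]
      apply inv_anti₀ (Real.exp_pos _)
      have := Real.exp_one_lt_d9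
      linarith
    have h2 : Real.exp (-(J:ℝ)) = Real.exp (-1) ^ J := by
      rw [← Real.exp_nat_mul]; congr 1; ring
    rw [h2]
    exact pow_le_pow_left₀ (by norm_num) h1 J
  refine ⟨?_, ?_, ?_, ?_⟩
  · calc 4 * lam * (Real.exp (-(3 * e)) + ((1 / L ^ 3) ^ 2 + Real.exp (-50 * e + 1))) ≤
          4 * Real.exp (2 * e) * (3 * Real.exp (-(3 * e))) := by
          apply mul_le_mul _ _ (by positivity) (by positivity)
          · linarith
          · linarith
      _ = 12 * (Real.exp (2 * e) * Real.exp (-(3 * e))) := by ring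
      _ ≤ 1 / 12 := by rw [h4]; linarith
  · calc 2 * lam * ((1 / 3) ^ J * Real.exp (20 * (2 * e))) ≤
          2 * Real.exp (2 * e) * (Real.exp (-(50 * e)) * Real.exp (20 * (2 * e))) := by
          apply mul_le_mul _ _ (by positivity) (by positivity)
          · linarith
          · apply mul_le_mul_of_nonneg_right _ (Real.exp_pos _).le
            exact hthird.trans (Real.exp_le_exp.2 (by linarith))
      _ = 2 * Real.exp (-(8 * e)) := by
          rw [mul_assoc, ← Real.exp_add, ← Real.exp_add]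
          congr 2
          ring
      _ ≤ 2 * Real.exp (-e) := by
          apply mul_le_mul_of_nonneg_left _ (by norm_num)
          exact Real.exp_le_exp.2 (by linarith)
      _ ≤ 1 / 12 := by linarith
  · calc 2 * lam * Real.exp (20 * (2 * e)) ≤ 2 * Real.exp (2 * e) * Real.exp (20 * (2 * e)) := by
          apply mul_le_mul_of_nonneg_right _ (Real.exp_pos _).le
          linarith
      _ = 2 * Real.exp (42 * e) := by
          rw [mul_assoc, ← Real.exp_add]
          congr 2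
          ring
      _ ≤ Real.exp e * Real.exp (42 * e) / 12 := by
          have := Real.exp_pos (42 * e)
          nlinarith
      _ = Real.exp (43 * e) / 12 := by
          rw [← Real.exp_add]
          congr 2
          ring
      _ ≤ _ := by
          apply div_le_div_of_nonneg_right _ (by norm_num)
          exact Real.exp_le_exp.2 (by linarith)
  · calc Real.exp (-50 * e + 1) ≤ Real.exp (-e) := Real.exp_le_exp.2 (by linarith)
      _ ≤ 1 / 8 := by linarith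

end Pool.Agent.L5helper45.PT
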