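import Pool.Agent.H474R2.PG.NoColl

set_option autoImplicit false
set_option linter.unusedVariables false

/-! # The exceptional primes of a set of shifts -/

namespace Pool.Agent.L5helper45.PT

open Polynomial Finset Pool.Agent.H474R2.PG

theorem exists_R (f : ℤ[X]) (hf : Irreducible f) (hd : 0 < f.natDegree) :
    ∃ R : ℤ[X], (∀ t : ℤ, t ≠ 0 → R.eval t ≠ 0) ∧
      ∀ p x t : ℤ, p ∣ f.eval x → p ∣ f.eval (x + t) → p ∣ R.eval t := by
  classical
  set d := f.natDegree with hdd
  set F : ℤ[X][X] := f.map C with hF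
  set G : ℤ[X][X] := F.comp (X + C X) with hG
  have hFd : F.natDegree ≤ d := natDegree_map_le
  have hGd : G.natDegree ≤ d := by
    have h1 : (X + C X : ℤ[X][X]).natDegree = 1 := natDegree_X_add_C _
    calc G.natDegree ≤ F.natDegree * (X + C X : ℤ[X][X]).natDegree := natDegree_comp_le
      _ ≤ d := by rw [h1, mul_one]; exact hFd
  obtain ⟨P, Q, -, -, hPQ⟩ := exists_mul_add_mul_eq_C_resultant F G hFd hGd (Or.inl hd.ne')
  set R : ℤ[X] := F.resultant G d d with hR
  have key1 : ∀ x t : ℤ, ∃ u v : ℤ, f.eval x * u + f.eval (x + t) * v = R.eval t := by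
    intro x t
    refine ⟨((P.eval (C x)).eval t), ((Q.eval (C x)).eval t), ?_⟩
    have h := congrArg (fun q : ℤ[X][X] => (q.eval (C x)).eval t) hPQ
    simp only [eval_add, eval_mul, eval_C] at h
    have hFx : (F.eval (C x)).eval t = f.eval x := by
      rw [hF, eval_map, eval₂_at_apply, eval_C]
    have hGx : (G.eval (C x)).eval t = f.eval (x + t) := by
      rw [hG, eval_comp, hF, eval_map]
      simp only [eval_add, eval_X, eval_C]
      have := Polynomial.hom_eval₂ f C (evalRingHom t) (C x + X)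
      simp only [coe_evalRingHom] at this
      rw [this]
      have hid : (evalRingHom t).comp C = RingHom.id ℤ := by
        ext; simp
      rw [hid]
      simp [eval₂_id]
    rw [hFx, hGx] at h
    exact h
  have key2 : ∀ t : ℤ, t ≠ 0 → R.eval t ≠ 0 := by
    intro t ht h0
    apply ncol_res f hf hd t ht
    have h1 := resultant_map_map F G d d (evalRingHom t)
    have hFm : F.map (evalRingHom t) = f := by
      rw [hF, Polynomial.map_map]
      have hid : (evalRingHom t).comp C = RingHom.id ℤ := by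
        ext; simp
      rw [hid, Polynomial.map_id]
    have hGm : G.map (evalRingHom t) = f.comp (X + C t) := by
      rw [hG, Polynomial.map_comp, hFm]
      simp
    rw [hFm, hGm] at h1
    rw [← hdd, h1, ← hR]
    simpa using h0
  refine ⟨R, key2, fun p x t h1 h2 => ?_⟩
  obtain ⟨u, v, huv⟩ := key1 x t
  rw [← huv]
  exact dvd_add (h1.mul_right _) (h2.mul_right _)

theorem eval_bound (R : ℤ[X]) : ∃ K : ℝ, 1 ≤ K ∧ ∀ (t : ℤ) (H : ℝ), 1 ≤ H → |(t:ℝ)| ≤ H →
    |((R.eval t : ℤ) : ℝ)| ≤ K * H ^ R.natDegree := by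
  refine ⟨∑ i ∈ range (R.natDegree + 1), |((R.coeff i : ℤ) : ℝ)| + 1, ?_, ?_⟩
  · have : 0 ≤ ∑ i ∈ range (R.natDegree + 1), |((R.coeff i : ℤ) : ℝ)| :=
      Finset.sum_nonneg fun i _ => abs_nonneg _
    linarith
  · intro t H hH ht
    rw [eval_eq_sum_range]
    push_cast
    refine (abs_sum_le_sum_abs _ _).trans ?_
    have h1 : ∑ i ∈ range (R.natDegree + 1), |((R.coeff i : ℤ) : ℝ) * (t:ℝ) ^ i| ≤
        (∑ i ∈ range (R.natDegree + 1), |((R.coeff i : ℤ) : ℝ)|) * H ^ R.natDegree := by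
      rw [sum_mul]
      refine sum_le_sum fun i hi => ?_
      rw [abs_mul, abs_pow]
      apply mul_le_mul_of_nonneg_left _ (abs_nonneg _)
      calc |(t:ℝ)| ^ i ≤ H ^ i := pow_le_pow_left₀ (abs_nonneg _) ht i
        _ ≤ H ^ R.natDegree :=
          pow_le_pow_right₀ hH (by simpa [Nat.lt_succ_iff] using hi)
    have h2 : 0 ≤ H ^ R.natDegree := by positivity
    nlinarith

theorem omega_le (m : ℕ) (hm : m ≠ 0) : (m.primeFactors.card : ℝ) ≤ 2 * Real.log m := by
  have h1 : 2 ^ m.primeFactors.card ≤ m := by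
    calc 2 ^ m.primeFactors.card = ∏ _p ∈ m.primeFactors, 2 := by rw [Finset.prod_const]
      _ ≤ ∏ p ∈ m.primeFactors, p :=
          Finset.prod_le_prod' fun p hp => (Nat.prime_of_mem_primeFactors hp).two_le
      _ ≤ m := Nat.le_of_dvd (Nat.pos_of_ne_zero hm) (Nat.prod_primeFactors_dvd m)
  have h2 : (2:ℝ) ^ m.primeFactors.card ≤ m := by exact_mod_cast h1
  have h3 := Real.log_le_log (by positivity) h2
  rw [Real.log_pow] at h3
  have h4 := Real.log_two_gt_d9
  have h5 : (0:ℝ) ≤ m.primeFactors.card := Nat.cast_nonneg _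
  nlinarith

/-- outside few primes, no prime divides two values of `f` at shifted arguments -/
theorem exc_set (f : ℤ[X]) (hf : Irreducible f) (hd : 0 < f.natDegree) :
    ∃ (K : ℝ) (k : ℕ), 0 ≤ K ∧ ∀ (B : Finset ℤ) (H : ℝ), 1 ≤ H → (∀ b ∈ B, |(b:ℝ)| ≤ H) →
      ∃ E : Finset ℕ, (E.card : ℝ) ≤ (B.card : ℝ) ^ 2 * (K + 2 * k * Real.log (2 * H)) ∧
        ∀ p : ℕ, p.Prime → p ∉ E → ∀ x : ℤ, ∀ b ∈ B, ∀ b' ∈ B, (p:ℤ) ∣ f.eval (x + b) →
          (p:ℤ) ∣ f.eval (x + b') → b = b' := by
  classical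
  obtain ⟨R, hR1, hR2⟩ := exists_R f hf hd
  obtain ⟨K, hK1, hK⟩ := eval_bound R
  refine ⟨2 * Real.log K, R.natDegree, by have := Real.log_nonneg hK1; positivity, ?_⟩
  intro B H hH hB
  have hlH : 0 ≤ Real.log (2 * H) := Real.log_nonneg (by linarith)
  have hlK : 0 ≤ Real.log K := Real.log_nonneg hK1
  refine ⟨(B ×ˢ B).biUnion (fun q => (R.eval (q.2 - q.1)).natAbs.primeFactors), ?_, ?_⟩
  · have h1 : (((B ×ˢ B).biUnion (fun q => (R.eval (q.2 - q.1)).natAbs.primeFactors)).card : ℝ) ≤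
        ∑ q ∈ B ×ˢ B, ((R.eval (q.2 - q.1)).natAbs.primeFactors.card : ℝ) := by
      exact_mod_cast Finset.card_biUnion_le
    refine h1.trans ?_
    have h2 : ∀ q ∈ B ×ˢ B, ((R.eval (q.2 - q.1)).natAbs.primeFactors.card : ℝ) ≤
        2 * Real.log K + 2 * R.natDegree * Real.log (2 * H) := by
      intro q hq
      rw [Finset.mem_product] at hq
      by_cases h0 : (R.eval (q.2 - q.1)).natAbs = 0
      · rw [h0]
        simp
        positivity
      · refine (omega_le _ h0).trans ?_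
        have h3 : |((q.2 - q.1 : ℤ) : ℝ)| ≤ 2 * H := by
          push_cast
          have a1 := abs_le.1 (hB q.1 hq.1)
          have a2 := abs_le.1 (hB q.2 hq.2)
          rw [abs_le]
          constructor <;> linarith [a1.1, a1.2, a2.1, a2.2]
        have h4 := hK (q.2 - q.1) (2 * H) (by linarith) h3
        have h5 : (((R.eval (q.2 - q.1)).natAbs : ℕ) : ℝ) = |((R.eval (q.2 - q.1) : ℤ) : ℝ)| := by
          rw [Nat.cast_natAbs, Int.cast_abs]
        have h6 : (0:ℝ) < (((R.eval (q.2 - q.1)).natAbs : ℕ) : ℝ) := by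
          exact_mod_cast Nat.pos_of_ne_zero h0
        have h7 := Real.log_le_log h6 (h5.le.trans h4)
        rw [Real.log_mul (by positivity) (by positivity), Real.log_pow] at h7
        linarith
    calc ∑ q ∈ B ×ˢ B, ((R.eval (q.2 - q.1)).natAbs.primeFactors.card : ℝ) ≤
          ∑ q ∈ B ×ˢ B, (2 * Real.log K + 2 * R.natDegree * Real.log (2 * H)) :=
          Finset.sum_le_sum h2
      _ = _ := by
          rw [Finset.sum_const, Finset.card_product, nsmul_eq_mul]
          push_cast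
          ring
  · intro p hp hpE x b hb b' hb' h1 h2
    by_contra hne
    apply hpE
    rw [Finset.mem_biUnion]
    refine ⟨(b, b'), Finset.mem_product.2 ⟨hb, hb'⟩, ?_⟩
    have h3 : b' - b ≠ 0 := sub_ne_zero.2 (Ne.symm hne)
    have h4 := hR2 p (x + b) (b' - b) h1 (by
      have : x + b + (b' - b) = x + b' := by ring
      rw [this]
      exact h2)
    rw [Nat.mem_primeFactors]
    refine ⟨hp, ?_, ?_⟩
    · exact Int.natCast_dvd.1 h4
    · exact Int.natAbs_ne_zero.2 (hR1 _ h3)

end Pool.Agent.L5helper45.PT
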