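import Pool.Agent.L5helper45.PT.CovM
import Pool.Agent.L5helper45.PT.Avg
import Pool.Agent.L5helper45.PT.Exc

set_option autoImplicit false
set_option linter.unusedVariables false
set_option maxHeartbeats 4000000

/-! # The main theorem on strings of composite values -/

namespace Pool.Agent.L5helper45.PT

open Polynomial Finset Filter Pool.Agent.H474R2.PG

open scoped Classical

/-- the parameters depending on `T` -/
theorem parT (e₀ : ℝ) : ∃ T₀ : ℝ, ∀ T : ℝ, T₀ ≤ T →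
    4 ≤ T ∧ e₀ ≤ Real.log T / 3 ∧ 0 < Real.log T ∧
    (Real.log T / 3) ^ 2 * Real.exp (Real.log T / 3) ≤ T / 4 ∧
    32 / 3 ≤ Real.exp (3 / 4 * T) := by
  refine ⟨max 4 (Real.exp (3 * max e₀ 1)), fun T hT => ?_⟩
  have h4 : 4 ≤ T := (le_max_left _ _).trans hT
  have h0 : 0 < T := by linarith
  have h5 : Real.exp (3 * max e₀ 1) ≤ T := (le_max_right _ _).trans hT
  have h6 : 3 * max e₀ 1 ≤ Real.log T := (Real.le_log_iff_exp_le h0).2 h5
  have h7 := le_max_left e₀ 1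
  have h8 := le_max_right e₀ 1
  set e : ℝ := Real.log T / 3 with he
  have heT : Real.log T = 3 * e := by rw [he]; ring
  have he0 : 0 < e := by linarith
  refine ⟨h4, by linarith, by linarith, ?_, ?_⟩
  · have hT3 : T = Real.exp e ^ 3 := by
      rw [← Real.exp_nat_mul, ← Real.exp_log h0, heT]
      norm_num
    have h10 : 2 * e ≤ Real.exp e := by
      have a1 := Real.add_one_le_exp (e - 1)
      have a2 : Real.exp e = Real.exp (e - 1) * Real.exp 1 := by
        rw [← Real.exp_add]; congr 1; ring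
      have a3 := Real.exp_one_gt_d9
      rw [a2]
      nlinarith [Real.exp_pos (e - 1)]
    rw [hT3]
    have h11 : e ^ 2 ≤ Real.exp e ^ 2 / 4 := by nlinarith
    calc e ^ 2 * Real.exp e ≤ Real.exp e ^ 2 / 4 * Real.exp e :=
          mul_le_mul_of_nonneg_right h11 (Real.exp_pos e).le
      _ = Real.exp e ^ 3 / 4 := by ring
  · have h12 : Real.exp 3 ≤ Real.exp (3 / 4 * T) := Real.exp_le_exp.2 (by linarith)
    have h13 : (32 / 3 : ℝ) ≤ Real.exp 3 := by
      have a3 := Real.exp_one_gt_d9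
      have a4 : Real.exp 3 = Real.exp 1 ^ 3 := by
        rw [← Real.exp_nat_mul]; norm_num
      rw [a4]
      have a5 : (2.7:ℝ) ^ 3 ≤ Real.exp 1 ^ 3 := pow_le_pow_left₀ (by norm_num) (by linarith) 3
      norm_num at a5
      linarith
    linarith

/-- the parameters depending on `L` -/
theorem parL (c K : ℝ) : ∃ L₀ : ℝ, ∀ L : ℝ, L₀ ≤ L →
    10 ≤ L ∧ c * Real.log L ≤ L ∧ K ≤ L ∧ 2 * (Real.log L) ^ 2 ≤ L := by
  have h1 : ∀ᶠ L : ℝ in atTop, c * Real.log L ≤ L := by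
    have h := Real.isLittleO_log_id_atTop
    have h2 : ∀ᶠ L : ℝ in atTop, ‖Real.log L‖ ≤ (1 / (|c| + 1)) * ‖id L‖ :=
      h.bound (by positivity)
    filter_upwards [h2, eventually_ge_atTop 1] with L hL hL1
    have h3 : 0 ≤ Real.log L := Real.log_nonneg hL1
    rw [Real.norm_eq_abs, abs_of_nonneg h3, id, Real.norm_eq_abs,
      abs_of_nonneg (show (0:ℝ) ≤ L by linarith)] at hL
    have hc : 0 < |c| + 1 := by positivity
    have h4 : (|c| + 1) * Real.log L ≤ L := by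
      have := mul_le_mul_of_nonneg_left hL hc.le
      rw [← mul_assoc, mul_one_div_cancel hc.ne', one_mul] at this
      exact this
    have h5 := le_abs_self c
    nlinarith
  have h2 : ∀ᶠ L : ℝ in atTop, 2 * (Real.log L) ^ 2 ≤ L := by
    have h := (isLittleO_log_rpow_atTop (show (0:ℝ) < 1 / 2 by norm_num)).bound
      (c := 1 / 2) (by norm_num)
    filter_upwards [h, eventually_ge_atTop 1] with L hL hL1
    have h3 : 0 ≤ Real.log L := Real.log_nonneg hL1
    rw [Real.norm_eq_abs, abs_of_nonneg h3, Real.norm_eq_abs, abs_of_nonneg (by positivity),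
      ← Real.sqrt_eq_rpow] at hL
    have h4 := Real.sq_sqrt (show (0:ℝ) ≤ L by linarith)
    have h5 : (Real.log L) ^ 2 ≤ (1 / 2 * Real.sqrt L) ^ 2 := pow_le_pow_left₀ h3 hL 2
    rw [mul_pow, h4] at h5
    linarith
  obtain ⟨L₀, hL₀⟩ := eventually_atTop.1 (h1.and (h2.and ((eventually_ge_atTop (10:ℝ)).and
    (eventually_ge_atTop K))))
  exact ⟨L₀, fun L hL => ⟨(hL₀ L hL).2.2.1, (hL₀ L hL).1, (hL₀ L hL).2.2.2, (hL₀ L hL).2.1⟩⟩

/-- counting in a class modulo the small primes -/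
theorem class_count (f : ℤ[X]) (M M' : ℤ) (hMM : M ≤ M') (L : ℝ) (A Bd d : ℕ) (hL : 1 ≤ L)
    (hA : 1 ≤ A) (hBdL : (Bd:ℝ) ≤ L) (hBd : ∀ p : ℕ, p.Prime → Bd < p → rho f p ≤ d) (a : ℤ)
    (T : Finset ℕ) (s : ℕ → ℤ) (hT : ∀ p ∈ T, p.Prime ∧ L ^ A < (p:ℝ)) :
    |(((Finset.Ioc M M').filter (fun n : ℤ => ((PW (L / 100) : ℕ) : ℤ) ∣ n - a ∧
        ∀ p ∈ T, (p:ℤ) ∣ f.eval (n + s p))).card : ℝ) -
      ((M' : ℝ) - M) / (PW (L / 100) : ℕ) * ∏ p ∈ T, (rho f p : ℝ) / (p:ℝ)| ≤ (d:ℝ) ^ T.card := by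
  have hLA : L ≤ L ^ A := by
    calc L = L ^ 1 := (pow_one L).symm
      _ ≤ L ^ A := pow_le_pow_right₀ hL hA
  have h1 := count_class f M M' hMM (PW (L / 100)) (PW_pos _) a T
    (fun p hp => ⟨(hT p hp).1, PR_not_dvd (by positivity) (hT p hp).1
      (by have := (hT p hp).2; linarith)⟩) s
  have h2 : ∏ p ∈ T, (rho f p : ℝ) ≤ (d:ℝ) ^ T.card := by
    calc ∏ p ∈ T, (rho f p : ℝ) ≤ ∏ p ∈ T, (d : ℝ) := by
          apply Finset.prod_le_prod
          · intro p _; positivity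
          · intro p hp
            have h3 : (Bd:ℝ) < p := by have := (hT p hp).2; linarith
            exact_mod_cast hBd p (hT p hp).1 (by exact_mod_cast h3)
      _ = (d:ℝ) ^ T.card := by rw [Finset.prod_const]
  refine le_trans ?_ (h1.trans h2)
  apply le_of_eq
  congr!

theorem finT (f : ℤ[X]) (hf : Irreducible f) (hd : 0 < f.natDegree) (D : ℕ) :
    ∃ c : ℝ, 0 < c ∧ ∃ T₀ X₀ : ℝ, ∀ X T : ℝ, X₀ ≤ X → T₀ ≤ T → T ≤ Real.log X →
      ∀ B : Finset ℤ, (B.card : ℝ) ≤ c * Real.log X * Real.log T →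
      (∀ b ∈ B, |(b:ℝ)| ≤ Real.exp ((Real.log X) ^ D)) → ∀ M : ℤ,
      X * Real.exp (-T) ≤ (((Finset.Ioc M (M + ⌊X⌋)).filter
        (fun n : ℤ => ∀ b ∈ B, ∃ p : ℕ, p.Prime ∧ (p:ℝ) ≤ X ^ (1 / (2 * Real.log T)) ∧
          (p:ℤ) ∣ f.eval (n + b))).card : ℝ) := by
  obtain ⟨C, hC0, hC⟩ := mertens_two f hf hd
  obtain ⟨Bd, hBd⟩ := rho_le f hf.ne_zero
  obtain ⟨c₂, hc₂, Y₀, hY₀, hRL⟩ := rough_lower (rho f) f.natDegree Bd hBd C
    (fun w hw => by have := abs_le.1 (hC w hw); linarith [this.1])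
  obtain ⟨cc, hcc, e₀, L₁, hcov⟩ := coverT (rho f) f.natDegree Bd hd hBd C hC0 hC c₂ Y₀ hc₂ hRL
    (D + 6) (by omega)
  obtain ⟨K, k, hK, hexc⟩ := exc_set f hf hd
  obtain ⟨T₀, hT₀⟩ := parT e₀
  obtain ⟨L₂, hL₂⟩ := parL (cc / 6) (max (K + 4 * k) Bd)
  refine ⟨cc / 6, by positivity, T₀, Real.exp (max L₁ L₂), ?_⟩
  intro X T hX hT hTX B hB hBH M
  obtain ⟨t1, t2, t4, t5, t6⟩ := hT₀ T hT
  have hX0 : 0 < X := lt_of_lt_of_le (Real.exp_pos _) hX
  obtain ⟨L, hL⟩ : ∃ L, L = Real.log X := ⟨_, rfl⟩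
  have hL12 : max L₁ L₂ ≤ L := by rw [hL]; exact (Real.le_log_iff_exp_le hX0).2 hX
  have hLX : Real.exp L = X := by rw [hL]; exact Real.exp_log hX0
  rw [← hL] at hTX hB hBH
  obtain ⟨l1, l2, l3, l4⟩ := hL₂ L ((le_max_right _ _).trans hL12)
  have hL1 : L₁ ≤ L := (le_max_left _ _).trans hL12
  have hL0 : 0 < L := by linarith
  have hL11 : 1 ≤ L := by linarith
  have hKL : K + 4 * k ≤ L := (le_max_left _ _).trans l3
  have hBdL : (Bd:ℝ) ≤ L := (le_max_right _ _).trans l3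
  obtain ⟨e, he⟩ : ∃ e, e = Real.log T / 3 := ⟨_, rfl⟩
  rw [← he] at t2 t5
  have hlT : Real.log T = 3 * e := by rw [he]; ring
  have he0 : 0 < e := by linarith
  have hT0 : 0 < T := by linarith
  have hlTL : Real.log T ≤ Real.log L := Real.log_le_log hT0 hTX
  -- size of B
  have hBL : (B.card : ℝ) ≤ L ^ 2 := by
    calc (B.card : ℝ) ≤ cc / 6 * L * Real.log T := hB
      _ = L * (cc / 6 * Real.log T) := by ring
      _ ≤ L * (cc / 6 * Real.log L) := by
          apply mul_le_mul_of_nonneg_left _ hL0.le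
          exact mul_le_mul_of_nonneg_left hlTL (by positivity)
      _ ≤ L * L := mul_le_mul_of_nonneg_left l2 hL0.le
      _ = L ^ 2 := by ring
  -- the exceptional primes
  have hLD : 1 ≤ L ^ D := one_le_pow₀ hL11
  obtain ⟨E, hE1, hE2⟩ := hexc B (Real.exp (L ^ D)) (by
    rw [← Real.exp_zero]; exact Real.exp_le_exp.2 (by linarith)) hBH
  have hk0 : (0:ℝ) ≤ k := Nat.cast_nonneg k
  have hEL : (E.card : ℝ) * L ≤ L ^ (D + 6) := by
    have a1 : Real.log (2 * Real.exp (L ^ D)) ≤ 2 * L ^ D := by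
      rw [Real.log_mul (by norm_num) (Real.exp_ne_zero _), Real.log_exp]
      have := Real.log_two_lt_d9
      linarith
    have a2 : K + 2 * k * Real.log (2 * Real.exp (L ^ D)) ≤ L * L ^ D := by
      calc K + 2 * k * Real.log (2 * Real.exp (L ^ D)) ≤ K * L ^ D + 2 * k * (2 * L ^ D) := by
            apply add_le_add
            · nlinarith
            · exact mul_le_mul_of_nonneg_left a1 (by positivity)
        _ = (K + 4 * k) * L ^ D := by ring
        _ ≤ L * L ^ D := mul_le_mul_of_nonneg_right hKL (by positivity)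
    have a3 : (B.card : ℝ) ^ 2 ≤ (L ^ 2) ^ 2 := pow_le_pow_left₀ (Nat.cast_nonneg _) hBL 2
    have a4 : (E.card : ℝ) ≤ (L ^ 2) ^ 2 * (L * L ^ D) :=
      hE1.trans (mul_le_mul a3 a2 (by
        have : 0 ≤ Real.log (2 * Real.exp (L ^ D)) := by
          apply Real.log_nonneg
          have := Real.one_le_exp (show 0 ≤ L ^ D by positivity)
          linarith
        positivity) (by positivity))
    calc (E.card : ℝ) * L ≤ (L ^ 2) ^ 2 * (L * L ^ D) * L :=
          mul_le_mul_of_nonneg_right a4 hL0.le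
      _ = L ^ (D + 6) := by ring
  -- the interval
  have hX2 : 2 ≤ X := by
    rw [← hLX]
    have := Real.add_one_le_exp L
    linarith
  have hfl : X / 2 ≤ (⌊X⌋ : ℝ) := by
    have := Int.lt_floor_add_one X
    linarith
  have hfl0 : (0:ℤ) ≤ ⌊X⌋ := Int.floor_nonneg.2 hX0.le
  have hMM : M ≤ M + ⌊X⌋ := by linarith
  obtain ⟨W, hW⟩ : ∃ W, W = PW (L / 100) := ⟨_, rfl⟩
  have hW1 : 1 ≤ W := by rw [hW]; exact PW_pos _
  have hWR : (1:ℝ) ≤ W := by exact_mod_cast hW1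
  have hWle : (W:ℝ) ≤ Real.exp (L / 50) := by rw [hW]; exact PW_le hL0.le
  obtain ⟨N, hN⟩ : ∃ N : ℝ, N = (⌊X⌋ : ℝ) / W := ⟨_, rfl⟩
  have hNL : Real.exp (9 / 10 * L) ≤ N := by
    rw [hN, le_div_iff₀ (by linarith)]
    have b1 : Real.exp (9 / 10 * L) * W ≤ Real.exp (9 / 10 * L) * Real.exp (L / 50) :=
      mul_le_mul_of_nonneg_left hWle (Real.exp_pos _).le
    have b2 : Real.exp (9 / 10 * L) * Real.exp (L / 50) * 2 ≤ X := by
      rw [← Real.exp_add, ← hLX]
      have b3 : (2:ℝ) ≤ Real.exp (L - (9 / 10 * L + L / 50)) := by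
        have := Real.add_one_le_exp (L - (9 / 10 * L + L / 50))
        have b4 : Real.exp (4 / 5) ≤ Real.exp (L - (9 / 10 * L + L / 50)) :=
          Real.exp_le_exp.2 (by linarith)
        have b5 : (2:ℝ) ≤ Real.exp (4 / 5) := by
          have := Real.quadratic_le_exp_of_nonneg (show (0:ℝ) ≤ 4 / 5 by norm_num)
          norm_num at this
          linarith
        linarith
      have b6 : Real.exp L = Real.exp (9 / 10 * L + L / 50) *
          Real.exp (L - (9 / 10 * L + L / 50)) := by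
        rw [← Real.exp_add]; congr 1; ring
      rw [b6]
      exact mul_le_mul_of_nonneg_left b3 (Real.exp_pos _).le
    linarith
  have hN2 : 2 ≤ N := by
    have := Real.add_one_le_exp (9 / 10 * L)
    linarith
  have hXδ : X ^ (1 / (2 * Real.log T)) = Real.exp (L / (2 * Real.log T)) := by
    rw [← hLX, ← Real.exp_mul, mul_one_div]
  have hsm : L / 100 ≤ Real.exp (L / (2 * Real.log T)) := by
    have g1 : Real.log L ≤ L / (2 * Real.log T) := by
      rw [le_div_iff₀ (by linarith)]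
      have g2 : 0 ≤ Real.log L := Real.log_nonneg hL11
      calc Real.log L * (2 * Real.log T) ≤ Real.log L * (2 * Real.log L) :=
            mul_le_mul_of_nonneg_left (by linarith) g2
        _ = 2 * (Real.log L) ^ 2 := by ring
        _ ≤ L := l4
    calc L / 100 ≤ L := by linarith
      _ = Real.exp (Real.log L) := (Real.exp_log hL0).symm
      _ ≤ _ := Real.exp_le_exp.2 g1
  -- one class
  have key : ∀ a ∈ (Finset.range W).filter (fun a =>
      ((surv f (L / 100) B a).card : ℝ) ≤ 2 * (B.card * Real.exp (-(Sg (rho f) (L / 100))))),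
      3 / 8 * N * Real.exp (-(T / 4)) ≤ (((Finset.Ioc M (M + ⌊X⌋)).filter
        (fun n : ℤ => (W:ℤ) ∣ n - a ∧ ∀ b ∈ B, ∃ p : ℕ, p.Prime ∧ (p:ℝ) ≤ X ^ (1 / (2 * Real.log T)) ∧
          (p:ℤ) ∣ f.eval (n + b))).card : ℝ) := by
    intro a ha
    rw [Finset.mem_filter] at ha
    obtain ⟨ha1, ha2⟩ := ha
    -- shifts that do not survive
    have hsmall : ∀ n : ℤ, (W:ℤ) ∣ n - a → ∀ b ∈ B, b ∉ surv f (L / 100) B a →
        ∃ p : ℕ, p.Prime ∧ (p:ℝ) ≤ X ^ (1 / (2 * Real.log T)) ∧ (p:ℤ) ∣ f.eval (n + b) := by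
      intro n hn b hb hbs
      unfold surv at hbs
      rw [Finset.mem_filter] at hbs
      push Not at hbs
      obtain ⟨p, hp, hpd⟩ := hbs hb
      refine ⟨p, PR_prime hp, ?_, ?_⟩
      · rw [hXδ]
        exact (PR_le (by positivity) hp).trans hsm
      · refine (eval_dvd_congr f p _ _ ?_).2 hpd
        have h1 : (p:ℤ) ∣ (W:ℤ) := by
          rw [hW]
          exact Int.natCast_dvd_natCast.2 (Finset.dvd_prod_of_mem (fun p => p) hp)
        have h2 := h1.trans hn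
        have h3 : n + b - ((a:ℤ) + b) = n - a := by ring
        rwa [h3]
    have hexpT : Real.exp (-(T / 4)) ≤ 1 := by
      rw [← Real.exp_zero]
      exact Real.exp_le_exp.2 (by linarith)
    rcases (surv f (L / 100) B a).eq_empty_or_nonempty with hs | hs
    · -- nothing survives
      have h1 := class_count f M (M + ⌊X⌋) hMM L 1 Bd f.natDegree hL11 le_rfl hBdL hBd a ∅
        (fun _ => 0) (by simp)
      have h2 : (Finset.Ioc M (M + ⌊X⌋)).filter (fun n : ℤ => ((PW (L / 100) : ℕ) : ℤ) ∣ n - a ∧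
          ∀ p ∈ (∅ : Finset ℕ), (p:ℤ) ∣ f.eval (n + (fun _ => 0 : ℕ → ℤ) p)) ⊆
          (Finset.Ioc M (M + ⌊X⌋)).filter
          (fun n : ℤ => (W:ℤ) ∣ n - a ∧ ∀ b ∈ B, ∃ p : ℕ, p.Prime ∧ (p:ℝ) ≤ X ^ (1 / (2 * Real.log T)) ∧
            (p:ℤ) ∣ f.eval (n + b)) := by
        intro n hn
        rw [Finset.mem_filter] at hn ⊢
        rw [← hW] at hn
        exact ⟨hn.1, hn.2.1, fun b hb => hsmall n hn.2.1 b hb (by rw [hs]; simp)⟩
      have h3 := Finset.card_le_card h2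
      have h3' : (((Finset.Ioc M (M + ⌊X⌋)).filter (fun n : ℤ => ((PW (L / 100) : ℕ) : ℤ) ∣ n - a ∧
          ∀ p ∈ (∅ : Finset ℕ), (p:ℤ) ∣ f.eval (n + (fun _ => 0 : ℕ → ℤ) p))).card : ℝ) ≤
          (((Finset.Ioc M (M + ⌊X⌋)).filter
          (fun n : ℤ => (W:ℤ) ∣ n - a ∧ ∀ b ∈ B, ∃ p : ℕ, p.Prime ∧ (p:ℝ) ≤ X ^ (1 / (2 * Real.log T)) ∧
            (p:ℤ) ∣ f.eval (n + b))).card : ℝ) := by exact_mod_cast h3
      refine le_trans ?_ h3'
      rw [Finset.prod_empty, mul_one, Finset.card_empty, pow_zero, ← hW] at h1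
      have h4 : ((M + ⌊X⌋ : ℤ) : ℝ) - M = (⌊X⌋ : ℝ) := by push_cast; ring
      rw [h4, ← hN] at h1
      have h5 := (abs_le.1 h1).1
      have h6 : 3 / 8 * N * Real.exp (-(T / 4)) ≤ 3 / 8 * N * 1 :=
        mul_le_mul_of_nonneg_left hexpT (by linarith)
      rw [← hW]
      linarith
    · -- the survivors are covered by large primes
      have : Nonempty (↥(surv f (L / 100) B a)) := hs.coe_sort
      have hcardκ : (Fintype.card (↥(surv f (L / 100) B a)) : ℝ) =
          ((surv f (L / 100) B a).card : ℝ) := by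
        rw [Fintype.card_coe]
      have hu1 : (Fintype.card (↥(surv f (L / 100) B a)) : ℝ) ≤
          cc * L * e * Real.exp (-(Sg (rho f) (L / 100))) := by
        rw [hcardκ]
        calc ((surv f (L / 100) B a).card : ℝ) ≤
              2 * (B.card * Real.exp (-(Sg (rho f) (L / 100)))) := ha2
          _ ≤ 2 * (cc / 6 * L * Real.log T * Real.exp (-(Sg (rho f) (L / 100)))) := by
              apply mul_le_mul_of_nonneg_left _ (by norm_num)
              exact mul_le_mul_of_nonneg_right hB (Real.exp_pos _).le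
          _ = cc * L * e * Real.exp (-(Sg (rho f) (L / 100))) := by rw [hlT]; ring
      have hu2 : (Fintype.card (↥(surv f (L / 100) B a)) : ℝ) ≤ L ^ 2 := by
        rw [hcardκ]
        refine le_trans ?_ hBL
        exact_mod_cast Finset.card_filter_le _ _
      have h1 := hcov e L t2 hL1 (by linarith) E hEL (↥(surv f (L / 100) B a)) hu1 hu2
        (fun p n k => (p:ℤ) ∣ f.eval (n + (k:ℤ)))
        (by
          intro p hp _ _ hpE n k l hk hl
          apply Subtype.ext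
          exact hE2 p hp hpE n k (Finset.mem_filter.1 k.2).1 l (Finset.mem_filter.1 l.2).1 hk hl)
        ((Finset.Ioc M (M + ⌊X⌋)).filter (fun n : ℤ => (W:ℤ) ∣ n - a)) N hNL
        (by
          intro S t hS
          have h2 := class_count f M (M + ⌊X⌋) hMM L (D + 6) Bd f.natDegree hL11 (by omega) hBdL
            hBd a S (fun p => (t p : ℤ)) hS
          rw [Finset.filter_filter]
          have h4 : ((M + ⌊X⌋ : ℤ) : ℝ) - M = (⌊X⌋ : ℝ) := by push_cast; ring
          rw [h4, ← hW, ← hN] at h2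
          refine le_trans (le_of_eq ?_) h2
          congr!)
      have h2 : (((Finset.Ioc M (M + ⌊X⌋)).filter (fun n : ℤ => (W:ℤ) ∣ n - a)).filter
          (fun x : ℤ => ∀ k : (↥(surv f (L / 100) B a)), ∃ p : ℕ, p.Prime ∧
            L ^ (D + 6) < (p:ℝ) ∧ (p : ℝ) ≤ Real.exp (L / (2000 * e)) ∧
            (p:ℤ) ∣ f.eval (x + (k:ℤ)))) ⊆
          (Finset.Ioc M (M + ⌊X⌋)).filter
          (fun n : ℤ => (W:ℤ) ∣ n - a ∧ ∀ b ∈ B, ∃ p : ℕ, p.Prime ∧ (p:ℝ) ≤ X ^ (1 / (2 * Real.log T)) ∧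
            (p:ℤ) ∣ f.eval (n + b)) := by
        intro n hn
        rw [Finset.mem_filter, Finset.mem_filter] at hn
        rw [Finset.mem_filter]
        refine ⟨hn.1.1, hn.1.2, fun b hb => ?_⟩
        by_cases hbs : b ∈ surv f (L / 100) B a
        · obtain ⟨p, hp1, _, hp3, hp4⟩ := hn.2 ⟨b, hbs⟩
          refine ⟨p, hp1, hp3.trans ?_, hp4⟩
          rw [hXδ]
          apply Real.exp_le_exp.2
          apply div_le_div_of_nonneg_left hL0.le (by linarith)
          rw [hlT]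
          linarith
        · exact hsmall n hn.1.2 b hb hbs
      have h3 := Finset.card_le_card h2
      have h3' : ((((Finset.Ioc M (M + ⌊X⌋)).filter (fun n : ℤ => (W:ℤ) ∣ n - a)).filter
          (fun x : ℤ => ∀ k : (↥(surv f (L / 100) B a)), ∃ p : ℕ, p.Prime ∧
            L ^ (D + 6) < (p:ℝ) ∧ (p : ℝ) ≤ Real.exp (L / (2000 * e)) ∧
            (p:ℤ) ∣ f.eval (x + (k:ℤ)))).card : ℝ) ≤
          (((Finset.Ioc M (M + ⌊X⌋)).filter
          (fun n : ℤ => (W:ℤ) ∣ n - a ∧ ∀ b ∈ B, ∃ p : ℕ, p.Prime ∧ (p:ℝ) ≤ X ^ (1 / (2 * Real.log T)) ∧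
            (p:ℤ) ∣ f.eval (n + b))).card : ℝ) := by exact_mod_cast h3
      have h5 : Real.exp (e ^ 2 * Real.exp e) ≤ Real.exp (T / 4) := Real.exp_le_exp.2 t5
      set R : ℝ := (((Finset.Ioc M (M + ⌊X⌋)).filter
          (fun n : ℤ => (W:ℤ) ∣ n - a ∧ ∀ b ∈ B, ∃ p : ℕ, p.Prime ∧ (p:ℝ) ≤ X ^ (1 / (2 * Real.log T)) ∧
            (p:ℤ) ∣ f.eval (n + b))).card : ℝ) with hR
      have hR0 : 0 ≤ R := Nat.cast_nonneg _
      have h6 : 3 / 8 * N ≤ R * Real.exp (T / 4) :=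
        h1.trans (mul_le_mul h3' h5 (Real.exp_pos _).le hR0)
      rw [Real.exp_neg]
      rw [← div_eq_mul_inv, div_le_iff₀ (Real.exp_pos _)]
      exact h6
  -- all the classes
  have hgood := good_classes f (L / 100) B
  rw [← hW] at hgood
  have hsum := sum_classes M (M + ⌊X⌋) W (fun n : ℤ => ∀ b ∈ B, ∃ p : ℕ, p.Prime ∧
      (p:ℝ) ≤ X ^ (1 / (2 * Real.log T)) ∧ (p:ℤ) ∣ f.eval (n + b)) ((Finset.range W).filter (fun a =>
      ((surv f (L / 100) B a).card : ℝ) ≤ 2 * (B.card * Real.exp (-(Sg (rho f) (L / 100))))))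
      (fun a ha => Finset.mem_range.1 (Finset.mem_filter.1 ha).1)
  refine le_trans ?_ (le_trans hsum (le_of_eq (by congr!)))
  have h1 : (((Finset.range W).filter (fun a => ((surv f (L / 100) B a).card : ℝ) ≤
      2 * (B.card * Real.exp (-(Sg (rho f) (L / 100)))))).card : ℝ) *
      (3 / 8 * N * Real.exp (-(T / 4))) ≤
      ∑ a ∈ (Finset.range W).filter (fun a => ((surv f (L / 100) B a).card : ℝ) ≤
      2 * (B.card * Real.exp (-(Sg (rho f) (L / 100))))), (((Finset.Ioc M (M + ⌊X⌋)).filter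
        (fun n : ℤ => (W:ℤ) ∣ n - a ∧ ∀ b ∈ B, ∃ p : ℕ, p.Prime ∧ (p:ℝ) ≤ X ^ (1 / (2 * Real.log T)) ∧
          (p:ℤ) ∣ f.eval (n + b))).card : ℝ) := by
    rw [← nsmul_eq_mul, ← Finset.sum_const]
    exact Finset.sum_le_sum key
  refine le_trans ?_ (le_trans h1 (le_of_eq (by congr!)))
  have h2 : (W:ℝ) / 2 * (3 / 8 * N * Real.exp (-(T / 4))) ≤
      (((Finset.range W).filter (fun a => ((surv f (L / 100) B a).card : ℝ) ≤
      2 * (B.card * Real.exp (-(Sg (rho f) (L / 100)))))).card : ℝ) *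
      (3 / 8 * N * Real.exp (-(T / 4))) :=
    mul_le_mul_of_nonneg_right hgood (by positivity)
  refine le_trans ?_ h2
  have h3 : (W:ℝ) * N = (⌊X⌋ : ℝ) := by
    rw [hN]
    field_simp
  have h4 : Real.exp (-T) * Real.exp (3 / 4 * T) = Real.exp (-(T / 4)) := by
    rw [← Real.exp_add]; congr 1; ring
  calc X * Real.exp (-T) ≤ X * Real.exp (-T) * (3 / 32 * Real.exp (3 / 4 * T)) := by
        have : 0 < X * Real.exp (-T) := by positivity
        nlinarith
    _ = 3 / 32 * X * (Real.exp (-T) * Real.exp (3 / 4 * T)) := by ring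
    _ = 3 / 16 * (X / 2) * Real.exp (-(T / 4)) := by rw [h4]; ring
    _ ≤ 3 / 16 * (⌊X⌋ : ℝ) * Real.exp (-(T / 4)) := by
        apply mul_le_mul_of_nonneg_right _ (Real.exp_pos _).le
        linarith
    _ = (W:ℝ) / 2 * (3 / 8 * N * Real.exp (-(T / 4))) := by
        rw [← h3]; ring

end Pool.Agent.L5helper45.PT
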