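import Pool.Agent.Y831.RC5.Cnt5
import Pool.Agent.Y831.RC5.BH

set_option autoImplicit false
set_option linter.unusedSectionVars false

/-! # Combinations of elementary events with bounded coefficient sum and bounded support -/

namespace Pool.Agent.L5helper45.PT

open Finset Pool.Agent.H256R2.SC Pool.Agent.Y831.RC

variable {n n₁ n₂ : ℕ} {κ : Type} [Fintype κ] [DecidableEq κ]

/-- `F` is a combination of elementary events `D` with `dd ^ |supp D| ≤ S` and coefficient sum at
most `B` -/
def Lc (dd S B : ℝ) (F : Col n κ → ℝ) : Prop := Lv (fun _ => dd) S B F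

variable {dd : ℝ}

theorem Lc_mono {S S' B B' : ℝ} {F : Col n κ → ℝ} (hS : S ≤ S') (hB : B ≤ B') (h : Lc dd S B F) :
    Lc dd S' B' F := Lv_mono hS hB h

theorem Lc_mul (hd : 1 ≤ dd) {S S' B B' : ℝ} {F G : Col n κ → ℝ} (hF : Lc dd S B F)
    (hG : Lc dd S' B' G) : Lc dd (S * S') (B * B') (fun x => F x * G x) :=
  Lv_mul (fun _ => hd) hF hG

theorem Lc_const (c : ℝ) : Lc dd 1 |c| (fun _ : Col n κ => c) := Lv_const (fun _ => dd) c

theorem Lc_smul (hd : 1 ≤ dd) (c : ℝ) {S B : ℝ} {F : Col n κ → ℝ} (hF : Lc dd S B F) :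
    Lc dd S (|c| * B) (fun x => c * F x) := by
  have := Lc_mul hd (Lc_const (dd := dd) (n := n) (κ := κ) c) hF
  rwa [one_mul] at this

theorem Lc_sum {ι : Type} (T : Finset ι) (S : ℝ) (B : ι → ℝ)
    (F : ι → Col n κ → ℝ) (hF : ∀ j ∈ T, Lc dd S (B j) (F j)) :
    Lc dd S (∑ j ∈ T, B j) (fun x => ∑ j ∈ T, F j x) := Lv_sum T B F hF

theorem Lc_sub {S B B' : ℝ} {F G : Col n κ → ℝ} (hF : Lc dd S B F) (hG : Lc dd S B' G) :
    Lc dd S (B + B') (fun x => F x - G x) := Lv_sub hF hG

theorem Lc_prod (hd : 1 ≤ dd) {ι : Type} (T : Finset ι) (S B : ι → ℝ)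
    (F : ι → Col n κ → ℝ) (hF : ∀ j ∈ T, Lc dd (S j) (B j) (F j)) :
    Lc dd (∏ j ∈ T, S j) (∏ j ∈ T, B j) (fun x => ∏ j ∈ T, F j x) := by
  classical
  induction T using Finset.induction_on with
  | empty =>
    simp only [Finset.prod_empty]
    simpa using Lc_const (dd := dd) (n := n) (κ := κ) 1
  | insert a T ha ih =>
    simp only [Finset.prod_insert ha]
    exact Lc_mul hd (hF a (Finset.mem_insert_self a T))
      (ih fun j hj => hF j (Finset.mem_insert_of_mem hj))

theorem Lc_ind (D : Col n κ) : Lc dd (qq (fun _ => dd) D) 1 (fun x : Col n κ => ind D x) := by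
  refine ⟨fun E => if D = E then 1 else 0, fun x => ?_, ?_, fun E hE => ?_⟩
  · simp
  · simp only [apply_ite abs, abs_one, abs_zero]
    simp
  · have h : D = E := by
      by_contra h
      exact hE (if_neg h)
    rw [h]

theorem Lc_zero (S : ℝ) : Lc dd S 0 (fun _ : Col n κ => 0) := Lv_zero _ _

theorem Lc_psi (hd : 1 ≤ dd) (g : Fin n → ℝ) (hg0 : ∀ i, 0 ≤ g i) (hg1 : ∀ i, g i ≤ 1)
    (D : Col n κ) :
    Lc dd (qq (fun _ => dd) D) (2 ^ (univ.filter (fun i => D i ≠ none)).card)
      (fun x => psi g D x) := by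
  refine ⟨fun E => ∏ i, cf (g i) (D i) (E i), fun x => psi_eq g D x, sum_abs_prod_cf g hg0 hg1 D,
    fun E hE => ?_⟩
  unfold qq
  apply Finset.prod_le_prod
  · intro i _
    exact zero_le_one.trans (nu1_ge_one dd hd _)
  · intro i _
    have h1 : cf (g i) (D i) (E i) ≠ 0 := fun h => hE (Finset.prod_eq_zero (Finset.mem_univ i) h)
    cases hD : D i with
    | none =>
      rw [hD] at h1
      have h2 : E i = none := by
        by_contra h
        apply h1
        simp [cf, h]
      rw [h2]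
    | some k =>
      cases hE : E i with
      | none => simpa [nu1] using hd
      | some l => simp [nu1]

theorem qq_append (p₁ : Fin n₁ → ℝ) (p₂ : Fin n₂ → ℝ) (D₁ : Col n₁ κ) (D₂ : Col n₂ κ) :
    qq (Fin.append p₁ p₂) (Fin.append D₁ D₂) = qq p₁ D₁ * qq p₂ D₂ := by
  unfold qq
  rw [Fin.prod_univ_add]
  simp only [Fin.append_left, Fin.append_right]

theorem append_const (dd : ℝ) : Fin.append (fun _ : Fin n₁ => dd) (fun _ : Fin n₂ => dd) =
    fun _ : Fin (n₁ + n₂) => dd := by
  funext i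
  refine Fin.addCases (fun j => ?_) (fun j => ?_) i
  · rw [Fin.append_left]
  · rw [Fin.append_right]

theorem qqc_append (dd : ℝ) (D₁ : Col n₁ κ) (D₂ : Col n₂ κ) :
    qq (fun _ => dd) (Fin.append D₁ D₂) = qq (fun _ => dd) D₁ * qq (fun _ => dd) D₂ := by
  rw [← append_const, qq_append]

theorem Lc_fst {S B : ℝ} {F : Col n₁ κ → ℝ} (h : Lc dd S B F) :
    Lc dd S B (fun x : Col (n₁ + n₂) κ => F (fstc x)) := by
  classical
  obtain ⟨f, h1, h2, h3'⟩ := h
  have h3 := Lc_sum (dd := dd) (n := n₁ + n₂) (κ := κ) univ S (fun D : Col n₁ κ => |f D|)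
    (fun D x => f D * ind (Fin.append D (fun _ : Fin n₂ => none)) x)
    (fun D _ => by
      by_cases hD : f D = 0
      · have e1 : (fun x : Col (n₁ + n₂) κ =>
            f D * ind (Fin.append D (fun _ : Fin n₂ => none)) x) = fun _ => 0 := by
          funext x
          rw [hD, zero_mul]
        rw [e1, hD, abs_zero]
        exact Lc_zero S
      · obtain ⟨f', a1, a2, a3⟩ := Lc_ind (dd := dd) (Fin.append D (fun _ : Fin n₂ => none))
        refine ⟨fun E => f D * f' E, fun x => ?_, ?_, fun E hE => ?_⟩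
        · have a1' := a1 x
          simp only at a1'
          change f D * ind _ x = _
          rw [a1', Finset.mul_sum]
          exact Finset.sum_congr rfl fun E _ => by ring
        · simp only [abs_mul]
          rw [← Finset.mul_sum]
          calc |f D| * _ ≤ |f D| * 1 := mul_le_mul_of_nonneg_left a2 (abs_nonneg _)
            _ = |f D| := mul_one _
        · have := a3 E (right_ne_zero_of_mul hE)
          rw [qqc_append, qq_none, mul_one] at this
          exact this.trans (h3' D hD))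
  have h4 : (fun x : Col (n₁ + n₂) κ => F (fstc x)) = fun x => ∑ D : Col n₁ κ,
      f D * ind (Fin.append D (fun _ : Fin n₂ => none)) x := by
    funext x
    rw [h1]
    refine Finset.sum_congr rfl fun D _ => ?_
    congr 1
    rw [ind_eq_prod, ind_eq_prod, Fin.prod_univ_add]
    simp only [Fin.append_left, Fin.append_right, fstc, ne_eq, not_true_eq_false, false_imp_iff,
      if_true, Finset.prod_const_one, mul_one]
    refine Finset.prod_congr rfl fun i _ => ?_
    congr
  rw [h4]
  exact Lc_mono le_rfl h2 h3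

theorem Lc_snd {S B : ℝ} {F : Col n₂ κ → ℝ} (h : Lc dd S B F) :
    Lc dd S B (fun x : Col (n₁ + n₂) κ => F (sndc x)) := by
  classical
  obtain ⟨f, h1, h2, h3'⟩ := h
  have h3 := Lc_sum (dd := dd) (n := n₁ + n₂) (κ := κ) univ S (fun D : Col n₂ κ => |f D|)
    (fun D x => f D * ind (Fin.append (fun _ : Fin n₁ => none) D) x)
    (fun D _ => by
      by_cases hD : f D = 0
      · have e1 : (fun x : Col (n₁ + n₂) κ =>
            f D * ind (Fin.append (fun _ : Fin n₁ => none) D) x) = fun _ => 0 := by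
          funext x
          rw [hD, zero_mul]
        rw [e1, hD, abs_zero]
        exact Lc_zero S
      · obtain ⟨f', a1, a2, a3⟩ := Lc_ind (dd := dd) (Fin.append (fun _ : Fin n₁ => none) D)
        refine ⟨fun E => f D * f' E, fun x => ?_, ?_, fun E hE => ?_⟩
        · have a1' := a1 x
          simp only at a1'
          change f D * ind _ x = _
          rw [a1', Finset.mul_sum]
          exact Finset.sum_congr rfl fun E _ => by ring
        · simp only [abs_mul]
          rw [← Finset.mul_sum]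
          calc |f D| * _ ≤ |f D| * 1 := mul_le_mul_of_nonneg_left a2 (abs_nonneg _)
            _ = |f D| := mul_one _
        · have := a3 E (right_ne_zero_of_mul hE)
          rw [qqc_append, qq_none, one_mul] at this
          exact this.trans (h3' D hD))
  have h4 : (fun x : Col (n₁ + n₂) κ => F (sndc x)) = fun x => ∑ D : Col n₂ κ,
      f D * ind (Fin.append (fun _ : Fin n₁ => none) D) x := by
    funext x
    rw [h1]
    refine Finset.sum_congr rfl fun D _ => ?_
    congr 1
    rw [ind_eq_prod, ind_eq_prod, Fin.prod_univ_add]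
    simp only [Fin.append_left, Fin.append_right, sndc, ne_eq, not_true_eq_false, false_imp_iff,
      if_true, Finset.prod_const_one, one_mul]
    refine Finset.prod_congr rfl fun i _ => ?_
    congr
  rw [h4]
  exact Lc_mono le_rfl h2 h3

theorem Lc_SS (hd : 1 ≤ dd) (J : ℕ) (k : κ) :
    Lc dd (dd ^ J) (((n:ℝ) + 1) ^ J) (SS J k : Col n κ → ℝ) :=
  Lv_SS (fun _ => dd) (fun _ => hd) dd (fun _ => le_rfl) hd J k

theorem qq_onS (k : κ) (s : Finset (Fin n)) : qq (fun _ => dd) (onS k s) = dd ^ s.card := by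
  unfold qq onS
  rw [← Finset.prod_filter_mul_prod_filter_not univ (fun i => i ∈ s)]
  have h3 : ∏ i with i ∉ s, nu1 dd (if i ∈ s then some k else none) = 1 := by
    apply Finset.prod_eq_one
    intro i hi
    simp only [mem_filter, mem_univ, true_and] at hi
    simp [hi, nu1]
  rw [h3, mul_one, Finset.filter_mem_eq_inter, Finset.univ_inter]
  rw [← Finset.prod_const]
  apply Finset.prod_congr rfl
  intro i hi
  simp [hi, nu1]

/-- the sieve weight in the two blocks -/
theorem Lc_V5 (hd : 1 ≤ dd) (g₂ : Fin n₂ → ℝ) (hg0 : ∀ i, 0 ≤ g₂ i) (hg1 : ∀ i, g₂ i ≤ 1)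
    (p : Fin n₂ → ℝ)
    (y : Col n₂ κ → ℝ) (hy : ∀ D, |y D| ≤ 1) (Q : ℝ) (hQ : ∀ D, y D ≠ 0 → qq p D ≤ Q)
    (R : κ → Col n₁ κ → ℝ) (S₁ S₂ Λ : ℝ) (hS₁ : 1 ≤ S₁) (hΛ : 1 ≤ Λ)
    (hRL : ∀ k, Lc dd S₁ Λ (R k)) (r : ℕ)
    (hr : ∀ D, y D ≠ 0 → (cols D).card ≤ r)
    (hS₂ : ∀ D : Col n₂ κ, qq p D ≤ Q → qq (fun _ => dd) D ≤ S₂) :
    Lc dd (S₁ ^ r * S₂) (Λ ^ r * ∑ D : Col n₂ κ with qq p D ≤ Q,
      2 ^ (univ.filter (fun i => D i ≠ none)).card)
      (fun x : Col (n₁ + n₂) κ => V5 g₂ y R (fstc x) (sndc x)) := by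
  classical
  have h1 := Lc_sum (dd := dd) (n := n₁ + n₂) (κ := κ) univ (S₁ ^ r * S₂) (fun D : Col n₂ κ =>
    |y D| * ((∏ _k ∈ cols D, Λ) *
      2 ^ (univ.filter (fun i => D i ≠ none)).card))
    (fun D x => y D * ((∏ k ∈ cols D, R k (fstc x)) * psi g₂ D (sndc x)))
    (fun D _ => by
      by_cases hD : y D = 0
      · have e1 : (fun x : Col (n₁ + n₂) κ =>
            y D * ((∏ k ∈ cols D, R k (fstc x)) * psi g₂ D (sndc x))) = fun _ => 0 := by
          funext x
          rw [hD, zero_mul]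
        rw [e1, hD, abs_zero, zero_mul]
        exact Lc_zero _
      · have e1 := Lc_prod hd (cols D) (fun _ => S₁) (fun _ => Λ) (fun k => R k)
          (fun k _ => hRL k)
        rw [Finset.prod_const] at e1
        have e2 : Lc dd (S₁ ^ r) (∏ _k ∈ cols D, Λ) (fun x => ∏ k ∈ cols D, R k x) :=
          Lc_mono (pow_le_pow_right₀ hS₁ (hr D hD)) le_rfl e1
        have e3 := Lc_mono (hS₂ D (hQ D hD)) le_rfl (Lc_psi hd g₂ hg0 hg1 D)
        exact Lc_smul hd _ (Lc_mul hd (Lc_fst e2) (Lc_snd e3)))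
  have h2 : (fun x : Col (n₁ + n₂) κ => ∑ D : Col n₂ κ,
      y D * ((∏ k ∈ cols D, R k (fstc x)) * psi g₂ D (sndc x))) =
      fun x => V5 g₂ y R (fstc x) (sndc x) := by
    funext x
    unfold V5 VV
    refine Finset.sum_congr rfl fun D _ => ?_
    ring
  rw [h2] at h1
  refine Lc_mono le_rfl ?_ h1
  rw [Finset.mul_sum, Finset.sum_filter]
  apply Finset.sum_le_sum
  intro D _
  by_cases h3 : y D = 0
  · rw [h3, abs_zero, zero_mul]
    split_ifs
    · positivity
    · exact le_rfl
  · rw [if_pos (hQ D h3), Finset.prod_const]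
    have h4 : Λ ^ (cols D).card ≤ Λ ^ r := pow_le_pow_right₀ hΛ (hr D h3)
    have h5 : (0:ℝ) ≤ 2 ^ (univ.filter (fun i => D i ≠ none)).card := by positivity
    have h6 : Λ ^ (cols D).card * 2 ^ (univ.filter (fun i => D i ≠ none)).card ≤
        Λ ^ r * 2 ^ (univ.filter (fun i => D i ≠ none)).card := mul_le_mul_of_nonneg_right h4 h5
    calc |y D| * (Λ ^ (cols D).card * 2 ^ (univ.filter (fun i => D i ≠ none)).card)
        ≤ 1 * (Λ ^ (cols D).card * 2 ^ (univ.filter (fun i => D i ≠ none)).card) :=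
          mul_le_mul_of_nonneg_right (hy D) (by positivity)
      _ ≤ _ := by rw [one_mul]; exact h6

theorem Lc_SSmask (hd : 1 ≤ dd) (bl : Fin n → ℕ) (j : ℕ) (J : ℕ) (k : κ) :
    Lc dd (dd ^ J) ((((univ.filter (fun i => bl i = j)).card : ℝ) + 1) ^ J)
      (fun x : Col n κ => SS J k (mask bl j x)) := by
  classical
  set P : Finset (Fin n) := univ.filter (fun i => bl i = j) with hP
  have h1 := Lc_sum (dd := dd) (n := n) (κ := κ) (P.powerset.filter (fun s => s.card ≤ J)) (dd ^ J)
    (fun s => |(-1:ℝ) ^ s.card| * 1)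
    (fun s (x : Col n κ) => (-1) ^ s.card * ind (onS k s) x)
    (fun s hs => by
      refine Lc_smul hd _ (Lc_mono ?_ le_rfl (Lc_ind _))
      rw [qq_onS]
      exact pow_le_pow_right₀ hd (Finset.mem_filter.1 hs).2)
  have h2 : (fun x : Col n κ => ∑ s ∈ P.powerset.filter (fun s => s.card ≤ J),
      (-1) ^ s.card * ind (onS k s) x) = fun x => SS J k (mask bl j x) := by
    funext x
    unfold SS
    symm
    have e1 : P.powerset.filter (fun s => s.card ≤ J) ⊆
        univ.filter (fun s : Finset (Fin n) => s.card ≤ J) := by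
      intro s hs
      rw [Finset.mem_filter] at hs ⊢
      exact ⟨Finset.mem_univ _, hs.2⟩
    rw [← Finset.sum_subset e1]
    · refine Finset.sum_congr rfl fun s hs => ?_
      rw [Finset.mem_filter, Finset.mem_powerset] at hs
      rw [ind_onS]
      congr 1
      have e2 : (∀ i ∈ s, mask bl j x i = some k) ↔ ∀ i ∈ s, x i = some k := by
        constructor
        · intro h i hi
          exact ((mask_iff bl j x i k).1 (h i hi)).2
        · intro h i hi
          rw [mask_iff]
          have := hs.1 hi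
          rw [hP, Finset.mem_filter] at this
          exact ⟨this.2, h i hi⟩
      by_cases h : ∀ i ∈ s, x i = some k
      · rw [if_pos h, if_pos (e2.2 h)]
      · rw [if_neg h, if_neg (fun h' => h (e2.1 h'))]
    · intro s hs hs'
      rw [Finset.mem_filter] at hs hs'
      rw [if_neg, mul_zero]
      intro h
      apply hs'
      refine ⟨Finset.mem_powerset.2 fun i hi => ?_, hs.2⟩
      rw [hP, Finset.mem_filter]
      exact ⟨Finset.mem_univ _, ((mask_iff bl j x i k).1 (h i hi)).1⟩
  rw [h2] at h1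
  refine Lc_mono le_rfl ?_ h1
  have h3 : ∀ s : Finset (Fin n), |(-1:ℝ) ^ s.card| * 1 = 1 := by
    intro s
    rw [abs_pow, abs_neg, abs_one, one_pow, one_mul]
  rw [Finset.sum_congr rfl fun s _ => h3 s, Finset.sum_const, nsmul_eq_mul, mul_one]
  have h4 : (P.powerset.filter (fun s => s.card ≤ J)).card ≤ (P.card + 1) ^ J := by
    clear h1 h2
    induction J with
    | zero =>
      have e1 : P.powerset.filter (fun s => s.card ≤ 0) ⊆ {∅} := by
        intro s hs
        rw [Finset.mem_filter] at hs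
        rw [Finset.mem_singleton]
        exact Finset.card_eq_zero.1 (by omega)
      simpa using Finset.card_le_card e1
    | succ J ih =>
      have e1 : P.powerset.filter (fun s => s.card ≤ J + 1) ⊆
          (P.powerset.filter (fun s => s.card ≤ J)) ∪ powersetCard (J + 1) P := by
        intro s hs
        simp only [mem_filter, mem_powerset, mem_union, mem_powersetCard] at hs ⊢
        by_cases h : s.card ≤ J
        · exact Or.inl ⟨hs.1, h⟩
        · exact Or.inr ⟨hs.1, by omega⟩
      have e2 := (Finset.card_le_card e1).trans (Finset.card_union_le _ _)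
      rw [Finset.card_powersetCard] at e2
      have e3 : P.card.choose (J + 1) ≤ P.card ^ (J + 1) := Nat.choose_le_pow _ (J + 1)
      have e4 : P.card ^ (J + 1) ≤ P.card * (P.card + 1) ^ J := by
        rw [pow_succ, mul_comm]
        exact Nat.mul_le_mul_left _ (Nat.pow_le_pow_left (Nat.le_succ _) J)
      calc (P.powerset.filter (fun s => s.card ≤ J + 1)).card
          ≤ (P.card + 1) ^ J + P.card * (P.card + 1) ^ J := by omega
        _ = (P.card + 1) ^ (J + 1) := by ring
  exact_mod_cast h4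

theorem Lc_BHk (hd : 1 ≤ dd) (bl : Fin n → ℕ) (B : ℕ) (M : ℕ → ℕ) (k : κ) :
    Lc dd (∏ j ∈ range B, dd ^ (M j))
      (∏ j ∈ range B, (((univ.filter (fun i => bl i = j)).card : ℝ) + 1) ^ (M j))
      (BHk bl B M k : Col n κ → ℝ) :=
  Lc_prod hd (range B) _ _ _ fun j _ => Lc_SSmask hd bl j (M j) k

end Pool.Agent.L5helper45.PT
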