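import Pool.Agent.Y831.RC3.Apply3
import Pool.Agent.L5helper45.PT.Base

set_option autoImplicit false
set_option linter.unusedSectionVars false

/-! # The profile for a set of primes with general weights -/

namespace Pool.Agent.L5helper45.PT

open Finset Filter Pool.Agent.H256R2.SC Pool.Agent.Y831.RC

open scoped Classical

theorem profileG (m₀ : ℕ) (PP : Finset ℕ) (g : ℕ → ℝ) (hPP : ∀ p ∈ PP, 1 < (p:ℝ))
    (hgp : ∀ p ∈ PP, 0 < g p) (z v₀ A₀ B₁ G₂ W : ℝ) (hz : 1 < z) (hv₀ : 0 < v₀)
    (hv₀z : v₀ ≤ Real.log z) (hA₀ : 0 < A₀)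
    (hlow : ∀ v, v₀ ≤ v → v ≤ Real.log z → W * v ≤
      1 + Asum (fun i => ((emb PP i : ℕ) : ℝ)) (fun i => g (emb PP i)) (Real.exp v))
    (hB : ∑ s : Finset (Fin PP.card) with
      Real.log (∏ i ∈ s, ((emb PP i : ℕ) : ℝ)) < v₀, ∏ i ∈ s, g (emb PP i) ≤ B₁)
    (hG : ∑ i, g (emb PP i) ≤ G₂)
    (hA : A₀ ≤ W * Real.log (Real.log z / v₀) - B₁ / v₀ - Real.exp (3 * G₂ - m₀) / v₀)
    (hBA : B₁ ≤ A₀ * v₀) :
    ∃ h, HypS (fun i => ((emb PP i : ℕ) : ℝ)) (fun i => g (emb PP i))
      h z (1 / A₀) v₀ ∧ ∀ s, h s ≠ 0 → s.card ≤ m₀ := by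
  have hzpos : 0 < z := by linarith
  set P : Fin PP.card → ℝ := fun i => ((emb PP i : ℕ) : ℝ) with hP
  have hP1 : ∀ i, 1 < P i := fun i => hPP _ (emb_mem PP i)
  set g' : Fin PP.card → ℝ := fun i => g (emb PP i) with hg'
  have hg0 : ∀ i, 0 < g' i := fun i => hgp _ (emb_mem PP i)
  have hP0 : ∀ i, 0 < P i := fun i => zero_lt_one.trans (hP1 i)
  have hgpos : ∀ s : Finset (Fin PP.card), 0 < ∏ i ∈ s, g' i := fun s =>
    Finset.prod_pos fun i _ => hg0 i
  have hppos : ∀ s : Finset (Fin PP.card), 0 < ∏ i ∈ s, P i := fun s =>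
    Finset.prod_pos fun i _ => hP0 i
  have hB1 : 1 ≤ B₁ := by
    refine le_trans ?_ hB
    have e : (∏ i ∈ (∅ : Finset (Fin PP.card)), g' i) = 1 := Finset.prod_empty
    rw [← e]
    refine Finset.single_le_sum (f := fun s : Finset (Fin PP.card) => ∏ i ∈ s, g' i)
      (fun s _ => (hgpos s).le) ?_
    rw [Finset.mem_filter]
    exact ⟨Finset.mem_univ _, by simpa using hv₀⟩
  refine exists_hT m₀ P g' hP1 hg0 z A₀ v₀ B₁
    hz hA₀ hv₀ (hA.trans ?_) hB hBA
  set S : Finset (Finset (Fin PP.card)) := univ.filter (fun s : Finset (Fin PP.card) =>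
    (s.Nonempty ∧ v₀ ≤ Real.log (∏ i ∈ s, P i)) ∧ ∏ i ∈ s, P i ≤ z) with hS
  -- summation by parts, for the scaled weights
  have hmain : (W / B₁) * Real.log (Real.log z / v₀) - 1 / v₀ ≤
      ∑ s ∈ S, ((∏ i ∈ s, g' i) / B₁) / Real.log (∏ i ∈ s, P i) := by
    refine alog_lower S (fun s => (∏ i ∈ s, g' i) / B₁) (fun s => Real.log (∏ i ∈ s, P i))
      (fun s _ => div_nonneg (hgpos s).le (by linarith)) ?_ _ v₀ (Real.log z) hv₀ hv₀z ?_
    · intro s hs
      have := (Finset.mem_filter.1 hs).2.1.2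
      linarith
    · intro v hv1 hv2
      have h2 : W * v ≤ 1 + Asum P g' (Real.exp v) := hlow v hv1 hv2
      have h3 : 1 + Asum P g' (Real.exp v) ≤
          B₁ + ∑ s ∈ S with Real.log (∏ i ∈ s, P i) ≤ v, ∏ i ∈ s, g' i := by
        have h4 : 1 + Asum P g' (Real.exp v) =
            ∑ s : Finset (Fin PP.card) with Real.log (∏ i ∈ s, P i) ≤ v, ∏ i ∈ s, g' i := by
          have e1 : (univ.filter (fun s : Finset (Fin PP.card) => Real.log (∏ i ∈ s, P i) ≤ v)) =
              insert ∅ (univ.filter (fun s : Finset (Fin PP.card) =>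
                s.Nonempty ∧ ∏ i ∈ s, P i ≤ Real.exp v)) := by
            ext s
            rw [Finset.mem_insert, Finset.mem_filter, Finset.mem_filter,
              Real.log_le_iff_le_exp (hppos s)]
            constructor
            · intro hs
              rcases Finset.eq_empty_or_nonempty s with he | he
              · exact Or.inl he
              · exact Or.inr ⟨hs.1, he, hs.2⟩
            · rintro (rfl | hs)
              · refine ⟨Finset.mem_univ _, ?_⟩
                rw [Finset.prod_empty]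
                exact Real.one_le_exp (by linarith)
              · exact ⟨hs.1, hs.2.2⟩
          rw [e1, Finset.sum_insert (by simp), Finset.prod_empty]
          rfl
        rw [h4, ← Finset.sum_filter_add_sum_filter_not _
          (fun s : Finset (Fin PP.card) => Real.log (∏ i ∈ s, P i) < v₀)]
        apply add_le_add
        · refine le_trans ?_ hB
          apply Finset.sum_le_sum_of_subset_of_nonneg
          · intro s hs
            rw [Finset.mem_filter, Finset.mem_filter] at hs
            rw [Finset.mem_filter]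
            exact ⟨Finset.mem_univ _, hs.2⟩
          · intro s _ _
            exact (hgpos s).le
        · apply Finset.sum_le_sum_of_subset_of_nonneg
          · intro s hs
            rw [Finset.mem_filter, Finset.mem_filter] at hs
            rw [Finset.mem_filter, hS, Finset.mem_filter]
            have h5 := not_lt.1 hs.2
            refine ⟨⟨Finset.mem_univ _, ⟨?_, h5⟩, ?_⟩, hs.1.2⟩
            · rw [Finset.nonempty_iff_ne_empty]
              rintro rfl
              simp at h5
              linarith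
            · rw [← Real.log_le_log_iff (hppos s) hzpos]
              exact hs.1.2.trans hv2
          · intro s _ _
            exact (hgpos s).le
      have h5 : W * v - B₁ ≤
          ∑ s ∈ S with Real.log (∏ i ∈ s, P i) ≤ v, ∏ i ∈ s, g' i := by linarith
      rw [← Finset.sum_div, le_div_iff₀ (by linarith)]
      refine le_trans (le_of_eq ?_) h5
      field_simp
  have h6 : W * Real.log (Real.log z / v₀) - B₁ / v₀ =
      ((W / B₁) * Real.log (Real.log z / v₀) - 1 / v₀) * B₁ := by
    field_simp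
  have h7 : W * Real.log (Real.log z / v₀) - B₁ / v₀ ≤
      ∑ s ∈ S, (∏ i ∈ s, g' i) / Real.log (∏ i ∈ s, P i) := by
    rw [h6]
    refine (mul_le_mul_of_nonneg_right hmain (by linarith)).trans (le_of_eq ?_)
    rw [Finset.sum_mul]
    refine Finset.sum_congr rfl fun s _ => ?_
    have : B₁ ≠ 0 := by linarith
    field_simp
  have h8 := Finset.sum_filter_add_sum_filter_not S (fun s : Finset (Fin PP.card) => s.card ≤ m₀)
    (fun s => (∏ i ∈ s, g' i) / Real.log (∏ i ∈ s, P i))
  have h9 : ∑ s ∈ S with ¬ s.card ≤ m₀, (∏ i ∈ s, g' i) / Real.log (∏ i ∈ s, P i) ≤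
      Real.exp (3 * G₂ - m₀) / v₀ := by
    calc ∑ s ∈ S with ¬ s.card ≤ m₀, (∏ i ∈ s, g' i) / Real.log (∏ i ∈ s, P i)
        ≤ ∑ s ∈ S with ¬ s.card ≤ m₀, (∏ i ∈ s, g' i) / v₀ := by
          apply Finset.sum_le_sum
          intro s hs
          have h10 := (Finset.mem_filter.1 (Finset.mem_filter.1 hs).1).2.1.2
          exact div_le_div_of_nonneg_left (hgpos s).le hv₀ h10
      _ = (∑ s ∈ S with ¬ s.card ≤ m₀, ∏ i ∈ s, g' i) / v₀ := by rw [Finset.sum_div]
      _ ≤ (∑ s : Finset (Fin PP.card) with ¬ s.card ≤ m₀, ∏ i ∈ s, g' i) / v₀ := by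
          apply div_le_div_of_nonneg_right _ hv₀.le
          apply Finset.sum_le_sum_of_subset_of_nonneg
          · intro s hs
            rw [Finset.mem_filter] at hs ⊢
            exact ⟨Finset.mem_univ _, hs.2⟩
          · intro s _ _
            exact (hgpos s).le
      _ ≤ _ := by
          apply div_le_div_of_nonneg_right _ hv₀.le
          exact loss_le g' hg0 m₀ G₂ hG
  have h10 : ∑ s ∈ S with s.card ≤ m₀, (∏ i ∈ s, g' i) / Real.log (∏ i ∈ s, P i) =
      ∑ s : Finset (Fin PP.card) with ((s.Nonempty ∧ v₀ ≤ Real.log (∏ i ∈ s, P i)) ∧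
        ∏ i ∈ s, P i ≤ z) ∧ s.card ≤ m₀, (∏ i ∈ s, g' i) / Real.log (∏ i ∈ s, P i) := by
    rw [hS, Finset.filter_filter]
  rw [← h10]
  linarith

end Pool.Agent.L5helper45.PT
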