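import Pool.Agent.L5helper45.PT.Cov

set_option autoImplicit false
set_option linter.unusedSectionVars false
set_option linter.unusedVariables false

/-! # The profile of the second block -/

namespace Pool.Agent.L5helper45.PT

open Finset Filter Pool.Agent.H256R2.SC Pool.Agent.Y831.RC

open scoped Classical

/-- sets of small product -/
theorem small_PE {r : ℕ → ℕ} {y z v₀ : ℝ} (hy : 1 ≤ y) (hyz : y ≤ z) (E : Finset ℕ)
    (hyv : y ≤ Real.exp v₀) :
    ∑ s : Finset (Fin (PE r y z E).card) with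
      Real.log (∏ i ∈ s, ((emb (PE r y z E) i : ℕ) : ℝ)) < v₀,
      ∏ i ∈ s, (r (emb (PE r y z E) i) : ℝ) / ((emb (PE r y z E) i : ℕ) : ℝ) ≤
      Real.exp (Pool.Agent.H474R2.PG.Sg r (Real.exp v₀) - Pool.Agent.H474R2.PG.Sg r y) := by
  have hz0 : 0 ≤ z := by linarith
  have hy0 : 0 ≤ y := by linarith
  set PP := PE r y z E with hPP
  set P : Fin PP.card → ℝ := fun i => ((emb PP i : ℕ) : ℝ) with hP
  set g : Fin PP.card → ℝ := fun i => (r (emb PP i) : ℝ) / ((emb PP i : ℕ) : ℝ) with hg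
  have hP1 : ∀ i, 1 < P i := fun i => lt_of_le_of_lt hy (PE_mem hz0 (emb_mem PP i)).2.1
  have hg0 : ∀ i, 0 ≤ g i := fun i => by simp only [hg]; positivity
  set F : Finset (Fin PP.card) := univ.filter (fun i => P i ≤ Real.exp v₀) with hF
  have h1 : ∑ s : Finset (Fin PP.card) with Real.log (∏ i ∈ s, P i) < v₀, ∏ i ∈ s, g i ≤
      ∑ s ∈ F.powerset, ∏ i ∈ s, g i := by
    apply Finset.sum_le_sum_of_subset_of_nonneg
    · intro s hs
      rw [Finset.mem_filter] at hs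
      rw [Finset.mem_powerset]
      intro i hi
      rw [hF, Finset.mem_filter]
      refine ⟨Finset.mem_univ _, ?_⟩
      have e1 : P i ≤ ∏ j ∈ s, P j := by
        rw [← Finset.mul_prod_erase s P hi]
        have e2 : 1 ≤ ∏ j ∈ s.erase i, P j := by
          calc (1:ℝ) = ∏ _j ∈ s.erase i, (1:ℝ) := by simp
            _ ≤ _ := Finset.prod_le_prod (fun _ _ => zero_le_one) fun j _ => (hP1 j).le
        have e3 := hP1 i
        nlinarith
      have e4 : 0 < ∏ j ∈ s, P j := Finset.prod_pos fun j _ => zero_lt_one.trans (hP1 j)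
      have e5 := hs.2.le
      rw [Real.log_le_iff_le_exp e4] at e5
      exact e1.trans e5
    · intro s _ _
      exact Finset.prod_nonneg fun i _ => hg0 i
  refine h1.trans ?_
  rw [← Finset.prod_one_add]
  have h2 : ∏ i ∈ F, (1 + g i) ≤ Real.exp (∑ i ∈ F, g i) := by
    rw [Real.exp_sum]
    apply Finset.prod_le_prod
    · intro i _
      have := hg0 i
      linarith
    · intro i _
      rw [add_comm]
      exact Real.add_one_le_exp _
  refine h2.trans (Real.exp_le_exp.2 ?_)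
  rw [← Pool.Agent.H474R2.PG.RoughAux.sum_PS r hy0 hyv]
  have h3 : ∑ i ∈ F, g i = ∑ p ∈ F.map (emb PP), (r p : ℝ) / (p : ℝ) := by
    rw [Finset.sum_map]
  rw [h3]
  apply Finset.sum_le_sum_of_subset_of_nonneg
  · intro p hp
    rw [Finset.mem_map] at hp
    obtain ⟨i, hi, rfl⟩ := hp
    rw [hF, Finset.mem_filter] at hi
    obtain ⟨e1, e2, e3, e4, e5⟩ := PE_mem hz0 (emb_mem PP i)
    unfold Pool.Agent.H474R2.PG.PS Pool.Agent.H474R2.PG.PR
    rw [Finset.mem_filter, Finset.mem_filter, Finset.mem_Icc]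
    exact ⟨⟨⟨e1.one_le, Nat.le_floor hi.2⟩, e1⟩, e2, e4⟩
  · intro p _ _
    positivity

theorem profE (r : ℕ → ℕ) (C : ℝ) (hC : 0 ≤ C) (hM : ∀ w : ℝ, 3 ≤ w →
    |Pool.Agent.H474R2.PG.Sg r w - Real.log (Real.log w)| ≤ C) (c₂ Z₀ : ℝ) (hc₂ : 0 < c₂)
    (hRL : ∀ y z x : ℝ, Z₀ ≤ y → y ≤ x → x ≤ z →
      c₂ * Real.log x * Real.exp (-(Pool.Agent.H474R2.PG.Sg r y)) - 1 ≤
        ∑ s ∈ ((Pool.Agent.H474R2.PG.PS r y z).powerset.filter
            (fun s : Finset ℕ => s.Nonempty ∧ ∏ p ∈ s, (p : ℝ) ≤ x)),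
          ∏ p ∈ s, (r p : ℝ) / (p : ℝ))
    (E : Finset ℕ) (y z v₀ ee : ℝ) (m₀ : ℕ) (hy3 : 3 ≤ y) (hyZ : Z₀ ≤ y) (hyz : y ≤ z)
    (hv : v₀ = Real.log y * ee ^ 2) (hv₀z : v₀ ≤ Real.log z)
    (hl : ee / 2 ≤ Real.log (Real.log z / v₀)) (hee : 1 ≤ ee)
    (hG : Pool.Agent.H474R2.PG.Sg r z - Pool.Agent.H474R2.PG.Sg r y ≤ 2 * ee)
    (hm₀ : 6 * ee ≤ m₀)
    (hc : Real.exp (2 * C) * ee ^ 2 + 1 ≤ c₂ * Real.exp (-C) / 8 * ee ^ 3)
    (hexc : (∑ p ∈ (Pool.Agent.H474R2.PG.PS r y z).filter (fun p => p ∈ E), (r p : ℝ) / (p : ℝ)) *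
      Real.exp (2 * ee) ≤ c₂ / 2 * Real.exp (-C) * ee ^ 2) :
    ∃ h, HypS (fun i => ((emb (PE r y z E) i : ℕ) : ℝ))
      (fun i => (r (emb (PE r y z E) i) : ℝ) / ((emb (PE r y z E) i : ℕ) : ℝ)) h z
      (8 * Real.exp (Pool.Agent.H474R2.PG.Sg r y) / (c₂ * ee)) v₀ ∧
      ∀ s, h s ≠ 0 → s.card ≤ m₀ := by
  have hly : 0 < Real.log y := Real.log_pos (by linarith)
  have hv₀ : 0 < v₀ := by rw [hv]; positivity
  have hvy : Real.log y ≤ v₀ := by rw [hv]; nlinarith [sq_nonneg (ee - 1)]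
  have hz1 : 1 < z := by linarith
  have hz0 : 0 < z := by linarith
  have hy0 : 0 < y := by linarith
  set S := Pool.Agent.H474R2.PG.Sg r y with hS
  have hSy := abs_le.1 (hM y hy3)
  have hexpS : Real.exp (-C) / Real.log y ≤ Real.exp (-S) := by
    have h1 : S ≤ Real.log (Real.log y) + C := by linarith [hSy.2]
    have h2 : Real.exp (-C) / Real.log y = Real.exp (-(Real.log (Real.log y) + C)) := by
      rw [neg_add, Real.exp_add, Real.exp_neg (Real.log (Real.log y)), Real.exp_log hly]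
      rw [mul_comm, div_eq_mul_inv]
    rw [h2]
    exact Real.exp_le_exp.2 (by linarith)
  have hvS : Real.exp (-C) * ee ^ 2 ≤ v₀ * Real.exp (-S) := by
    calc Real.exp (-C) * ee ^ 2 = v₀ * (Real.exp (-C) / Real.log y) := by
          rw [hv]; field_simp
      _ ≤ _ := mul_le_mul_of_nonneg_left hexpS hv₀.le
  set A₀ : ℝ := c₂ * Real.exp (-S) * ee / 8 with hA₀
  have hA₀p : 0 < A₀ := by positivity
  have hK : 1 / A₀ = 8 * Real.exp S / (c₂ * ee) := by
    rw [hA₀, Real.exp_neg]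
    have := Real.exp_pos S
    field_simp
  rw [← hK]
  have hkey : c₂ * Real.exp (-C) / 8 * ee ^ 3 ≤ A₀ * v₀ := by
    have h1 := mul_le_mul_of_nonneg_left hvS (show 0 ≤ c₂ * ee / 8 by positivity)
    calc c₂ * Real.exp (-C) / 8 * ee ^ 3 = c₂ * ee / 8 * (Real.exp (-C) * ee ^ 2) := by ring
      _ ≤ c₂ * ee / 8 * (v₀ * Real.exp (-S)) := h1
      _ = A₀ * v₀ := by rw [hA₀]; ring
  refine profileG m₀ (PE r y z E) (fun p => (r p : ℝ) / (p : ℝ)) ?_ ?_ z v₀ A₀
    (Real.exp (2 * C) * ee ^ 2) (2 * ee) (c₂ / 2 * Real.exp (-S)) hz1 hv₀ hv₀z hA₀p ?_ ?_ ?_ ?_ ?_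
  · intro p hp
    have := (PE_mem hz0.le hp).2.1
    linarith
  · intro p hp
    obtain ⟨e1, e2, e3, e4, e5⟩ := PE_mem hz0.le hp
    have h1 : (0:ℝ) < r p := by exact_mod_cast Nat.pos_of_ne_zero e4
    have h2 : (0:ℝ) < p := by linarith
    positivity
  · intro v hv1 hv2
    have hyv : y ≤ Real.exp v := by
      rw [← Real.exp_log hy0]
      exact Real.exp_le_exp.2 (hvy.trans hv1)
    have hvz : Real.exp v ≤ z := by
      rw [← Real.exp_log hz0]
      exact Real.exp_le_exp.2 hv2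
    have h1 := hRL y z (Real.exp v) hyZ hyv hvz
    rw [Real.log_exp] at h1
    have h2 := Asum_PE r E y z (c₂ / 2 * Real.exp (-C) * ee ^ 2) _ (Real.exp v) h1 (by
      refine le_trans ?_ hexc
      apply mul_le_mul_of_nonneg_left
      · apply Real.exp_le_exp.2
        rw [Pool.Agent.H474R2.PG.RoughAux.sum_PS r hy0.le hyz]
        exact hG
      · exact Finset.sum_nonneg fun p _ => by positivity)
    have h3 : c₂ / 2 * Real.exp (-C) * ee ^ 2 ≤ c₂ / 2 * Real.exp (-S) * v := by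
      have h4 : c₂ / 2 * (Real.exp (-C) * ee ^ 2) ≤ c₂ / 2 * (v₀ * Real.exp (-S)) :=
        mul_le_mul_of_nonneg_left hvS (by positivity)
      have h5 : c₂ / 2 * (v₀ * Real.exp (-S)) ≤ c₂ / 2 * (v * Real.exp (-S)) := by
        apply mul_le_mul_of_nonneg_left _ (by positivity)
        exact mul_le_mul_of_nonneg_right hv1 (Real.exp_pos _).le
      linarith
    have h6 : c₂ * v * Real.exp (-S) = 2 * (c₂ / 2 * Real.exp (-S) * v) := by ring
    linarith
  · refine (small_PE (by linarith) hyz E (by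
      rw [← Real.exp_log hy0]
      exact Real.exp_le_exp.2 hvy)).trans ?_
    have h1 := (abs_le.1 (Sg_diff hM hy3 (show y ≤ Real.exp v₀ by
      rw [← Real.exp_log hy0]
      exact Real.exp_le_exp.2 hvy))).2
    rw [Real.log_exp] at h1
    have h2 : v₀ / Real.log y = ee ^ 2 := by rw [hv]; field_simp
    rw [h2] at h1
    calc Real.exp (Pool.Agent.H474R2.PG.Sg r (Real.exp v₀) - S) ≤
          Real.exp (2 * C + Real.log (ee ^ 2)) := Real.exp_le_exp.2 (by linarith)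
      _ = Real.exp (2 * C) * ee ^ 2 := by rw [Real.exp_add, Real.exp_log (by positivity)]
  · exact (mass_PE hy0.le hyz E).trans hG
  · have h1 : Real.exp (3 * (2 * ee) - m₀) ≤ 1 := by
      rw [← Real.exp_zero]
      exact Real.exp_le_exp.2 (by linarith)
    have h2 : (Real.exp (2 * C) * ee ^ 2) / v₀ + Real.exp (3 * (2 * ee) - m₀) / v₀ ≤ A₀ := by
      rw [← add_div, div_le_iff₀ hv₀]
      linarith
    have h3 : c₂ / 2 * Real.exp (-S) * (ee / 2) ≤
        c₂ / 2 * Real.exp (-S) * Real.log (Real.log z / v₀) :=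
      mul_le_mul_of_nonneg_left hl (by positivity)
    have h4 : c₂ / 2 * Real.exp (-S) * (ee / 2) = 2 * A₀ := by rw [hA₀]; ring
    linarith
  · linarith

end Pool.Agent.L5helper45.PT
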