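import Pool.Agent.L5helper45.PT.Prof

set_option autoImplicit false
set_option linter.unusedSectionVars false

/-! # The profile for the primes in an interval outside an exceptional set -/

namespace Pool.Agent.L5helper45.PT

open Finset Filter Pool.Agent.H256R2.SC Pool.Agent.Y831.RC

open scoped Classical

/-- the primes of `(y, z]` modulo which there are roots, outside `E` -/
noncomputable def PE (r : ℕ → ℕ) (y z : ℝ) (E : Finset ℕ) : Finset ℕ :=
  (Pool.Agent.H474R2.PG.PS r y z) \ E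

theorem PE_mem {r : ℕ → ℕ} {y z : ℝ} (hz : 0 ≤ z) {E : Finset ℕ} {p : ℕ} (hp : p ∈ PE r y z E) :
    p.Prime ∧ y < (p:ℝ) ∧ (p:ℝ) ≤ z ∧ r p ≠ 0 ∧ p ∉ E := by
  unfold PE Pool.Agent.H474R2.PG.PS at hp
  rw [Finset.mem_sdiff, Finset.mem_filter] at hp
  exact ⟨PR_prime hp.1.1, hp.1.2.1, PR_le hz hp.1.1, hp.1.2.2, hp.2⟩

theorem sum_biUnion_le' {ι β : Type*} [DecidableEq β] (I : Finset ι) (T : ι → Finset β)
    (f : β → ℝ) (hf : ∀ b, 0 ≤ f b) :
    ∑ b ∈ I.biUnion T, f b ≤ ∑ i ∈ I, ∑ b ∈ T i, f b := by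
  classical
  induction I using Finset.induction_on with
  | empty => simp
  | insert a I ha ih =>
    rw [Finset.biUnion_insert, Finset.sum_insert ha]
    have h1 := Finset.sum_union_inter (s₁ := T a) (s₂ := I.biUnion T) (f := f)
    have h2 : 0 ≤ ∑ b ∈ T a ∩ I.biUnion T, f b := Finset.sum_nonneg fun b _ => hf b
    linarith

theorem sum_sub_powerset (P : Finset ℕ) (g : ℕ → ℝ) (hg : ∀ p ∈ P, 0 ≤ g p) (p : ℕ) (hp : p ∈ P) :
    ∑ s ∈ P.powerset.filter (fun s => p ∈ s), ∏ q ∈ s, g q ≤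
      g p * ∑ s ∈ P.powerset, ∏ q ∈ s, g q := by
  rw [Finset.mul_sum]
  have h1 : ∑ s ∈ P.powerset.filter (fun s => p ∈ s), ∏ q ∈ s, g q =
      ∑ s ∈ P.powerset.filter (fun s => p ∈ s), g p * ∏ q ∈ s.erase p, g q := by
    refine Finset.sum_congr rfl fun s hs => ?_
    rw [Finset.mem_filter] at hs
    rw [Finset.mul_prod_erase s g hs.2]
  rw [h1]
  have h2 : ∑ s ∈ P.powerset.filter (fun s => p ∈ s), g p * ∏ q ∈ s.erase p, g q =
      ∑ t ∈ (P.powerset.filter (fun s => p ∈ s)).image (fun s => s.erase p),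
        g p * ∏ q ∈ t, g q := by
    rw [Finset.sum_image]
    intro s hs t ht h
    rw [Finset.mem_coe, Finset.mem_filter] at hs ht
    simp only at h
    rw [← Finset.insert_erase hs.2, ← Finset.insert_erase ht.2, h]
  rw [h2]
  apply Finset.sum_le_sum_of_subset_of_nonneg
  · intro t ht
    rw [Finset.mem_image] at ht
    obtain ⟨s, hs, rfl⟩ := ht
    rw [Finset.mem_filter, Finset.mem_powerset] at hs
    rw [Finset.mem_powerset]
    exact (Finset.erase_subset _ _).trans hs.1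
  · intro t ht _
    rw [Finset.mem_powerset] at ht
    exact mul_nonneg (hg p hp) (Finset.prod_nonneg fun q hq => hg q (ht hq))

/-- lower bound for the sums over rough numbers without exceptional primes -/
theorem Asum_PE (r : ℕ → ℕ) (E : Finset ℕ) (y z θ a x : ℝ)
    (hlow : a ≤ ∑ s ∈ ((Pool.Agent.H474R2.PG.PS r y z).powerset.filter
            (fun s : Finset ℕ => s.Nonempty ∧ ∏ p ∈ s, (p : ℝ) ≤ x)),
          ∏ p ∈ s, (r p : ℝ) / (p : ℝ))
    (hθ : (∑ p ∈ (Pool.Agent.H474R2.PG.PS r y z).filter (fun p => p ∈ E), (r p : ℝ) / (p : ℝ)) *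
      Real.exp (∑ p ∈ Pool.Agent.H474R2.PG.PS r y z, (r p : ℝ) / (p : ℝ)) ≤ θ) :
    a - θ ≤ Asum (fun i => ((emb (PE r y z E) i : ℕ) : ℝ))
      (fun i => (r (emb (PE r y z E) i) : ℝ) / ((emb (PE r y z E) i : ℕ) : ℝ)) x := by
  rw [Pool.Agent.H474R2.PG.Asum_enum' (PE r y z E) (fun p => (r p : ℝ) / (p : ℝ)) x]
  set P := Pool.Agent.H474R2.PG.PS r y z with hP
  set g : ℕ → ℝ := fun p => (r p : ℝ) / (p : ℝ) with hg
  have hg0 : ∀ p, 0 ≤ g p := fun p => by simp only [hg]; positivity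
  have hprod0 : ∀ s : Finset ℕ, 0 ≤ ∏ p ∈ s, g p := fun s => Finset.prod_nonneg fun p _ => hg0 p
  have h1 : ∑ s ∈ P.powerset.filter (fun s : Finset ℕ => s.Nonempty ∧ ∏ p ∈ s, (p : ℝ) ≤ x),
      ∏ p ∈ s, g p ≤
      (∑ s ∈ (PE r y z E).powerset.filter
        (fun s : Finset ℕ => s.Nonempty ∧ ∏ p ∈ s, (p : ℝ) ≤ x), ∏ p ∈ s, g p) +
      ∑ p ∈ P.filter (fun p => p ∈ E), ∑ s ∈ P.powerset.filter (fun s => p ∈ s),
        ∏ q ∈ s, g q := by
    rw [← Finset.sum_filter_add_sum_filter_not (P.powerset.filter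
      (fun s : Finset ℕ => s.Nonempty ∧ ∏ p ∈ s, (p : ℝ) ≤ x)) (fun s => s ⊆ PE r y z E)]
    apply add_le_add
    · apply Finset.sum_le_sum_of_subset_of_nonneg
      · intro s hs
        rw [Finset.mem_filter, Finset.mem_filter] at hs
        rw [Finset.mem_filter, Finset.mem_powerset]
        exact ⟨hs.2, hs.1.2⟩
      · intro s _ _
        exact hprod0 s
    · have e1 : ∑ s ∈ (P.powerset.filter
          (fun s : Finset ℕ => s.Nonempty ∧ ∏ p ∈ s, (p : ℝ) ≤ x)).filter
            (fun s => ¬ s ⊆ PE r y z E), ∏ p ∈ s, g p ≤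
          ∑ s ∈ (P.filter (fun p => p ∈ E)).biUnion
            (fun p => P.powerset.filter (fun s => p ∈ s)), ∏ p ∈ s, g p := by
        apply Finset.sum_le_sum_of_subset_of_nonneg
        · intro s hs
          rw [Finset.mem_filter, Finset.mem_filter, Finset.mem_powerset] at hs
          obtain ⟨⟨h1, h2⟩, h3⟩ := hs
          rw [Finset.not_subset] at h3
          obtain ⟨p, hp1, hp2⟩ := h3
          unfold PE at hp2
          rw [Finset.mem_sdiff, not_and, not_not] at hp2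
          rw [Finset.mem_biUnion]
          refine ⟨p, Finset.mem_filter.2 ⟨h1 hp1, hp2 (h1 hp1)⟩, ?_⟩
          rw [Finset.mem_filter, Finset.mem_powerset]
          exact ⟨h1, hp1⟩
        · intro s _ _
          exact hprod0 s
      refine e1.trans ?_
      exact sum_biUnion_le' _ _ _ (fun s => hprod0 s)
  have h2 : ∑ p ∈ P.filter (fun p => p ∈ E), ∑ s ∈ P.powerset.filter (fun s => p ∈ s),
        ∏ q ∈ s, g q ≤ θ := by
    refine le_trans ?_ hθ
    rw [Finset.sum_mul]
    apply Finset.sum_le_sum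
    intro p hp
    rw [Finset.mem_filter] at hp
    refine (sum_sub_powerset P g (fun p _ => hg0 p) p hp.1).trans ?_
    apply mul_le_mul_of_nonneg_left _ (hg0 p)
    rw [← Finset.prod_one_add, Real.exp_sum]
    apply Finset.prod_le_prod
    · intro q _
      have := hg0 q
      linarith
    · intro q _
      rw [add_comm]
      exact Real.add_one_le_exp _
  linarith

end Pool.Agent.L5helper45.PT
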